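import Pool.Agent.Helper86.Orl.Ring1

/-!
# The contraction with the abelian variety is self-adjoint
-/

set_option autoImplicit false

open scoped ComplexConjugate
open Module Pool.Agent.W539.DI Pool.Agent.Helper30.DI Pool.Agent.Q8.OM

namespace Pool.Agent.Helper86.Orl

variable {n a : ℕ} {X : KRing n} (S : AbelianSymmetry X a)

theorem tr_io (k : Fin a) (z : X.R) : X.tr (io S k z) = 0 := by
  refine X.ind (P := fun z => X.tr (io S k z) = 0) (by simp) (fun u v hu hv => by
    rw [map_add, map_add, hu, hv, add_zero]) (fun p q x hx => ?_) z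
  by_cases h : p + -1 = n ∧ q + 0 = n
  · rw [zero_of_type hx (Or.inr (Or.inr (Or.inl (by omega)))), map_zero, map_zero]
  · exact X.tr_van _ _ _ (io_type S k _ _ _ hx) h

theorem tr_ib (k : Fin a) (z : X.R) : X.tr (ib S k z) = 0 := by
  change X.tr (X.bar (io S k (X.bar z))) = 0
  rw [X.tr_bar, tr_io, map_zero]

theorem adj_io (k : Fin a) (u v : X.R) : X.tr (io S k u * v) = -X.tr (sg X u * io S k v) := by
  have h := tr_io S k (u * v)
  rw [io_mul, map_add] at h
  exact eq_neg_of_add_eq_zero_left h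

theorem adj_ib (k : Fin a) (u v : X.R) : X.tr (ib S k u * v) = -X.tr (sg X u * ib S k v) := by
  have h := tr_ib S k (u * v)
  rw [ib_mul, map_add] at h
  exact eq_neg_of_add_eq_zero_left h

theorem sg_io (k : Fin a) : sg X * io S k = -(io S k * sg X) :=
  sg_anti (-1) 0 (by decide) (io_type S k)

theorem sg_ib (k : Fin a) : sg X * ib S k = -(ib S k * sg X) :=
  sg_anti 0 (-1) (by decide) (ib_type S k)

/-- the power of the sign -/
noncomputable def sN (X : KRing n) (N : ℕ) : Module.End ℂ X.R := pr fun _ : Fin N => sg X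

theorem sN_succ (N : ℕ) : sN X (N + 1) = sg X * sN X N := by rw [sN, pr_succ]; rfl

theorem sN_eq (N : ℕ) : sN X N = sg X ^ N := by
  induction N with
  | zero => rw [sN, pr_zero, pow_zero]
  | succ N ih => rw [sN_succ, ih, pow_succ']

theorem sN_sN (N : ℕ) : sN X N * sN X N = 1 := by
  rw [sN_eq, ← pow_add, ← two_mul, pow_mul, pow_two, sg_sg, one_pow]

theorem adj_pr {N : ℕ} (c : Fin N → Module.End ℂ X.R)
    (h : ∀ k u v, X.tr (c k u * v) = -X.tr (sg X u * c k v))
    (hs : ∀ k, sg X * c k = -(c k * sg X)) (u v : X.R) :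
    X.tr (pr c u * v) = (-1 : ℂ) ^ (N * (N + 1) / 2) * X.tr (sN X N u * rp c v) := by
  induction N generalizing u v with
  | zero => rw [sN, pr_zero, pr_zero, rp_zero]; simp
  | succ N ih =>
    have e1 : sg X (pr (fun i => c i.succ) u) = (-1 : ℂ) ^ N • pr (fun i => c i.succ) (sg X u) := by
      have := LinearMap.congr_fun (pr_anti (sg X) (fun i => c (Fin.succ i)) fun i => hs _) u
      rw [neg_pow_smul] at this
      exact this
    have e2 : sN X (N + 1) = sN X N * sg X := by rw [sN_eq, pow_succ, ← sN_eq]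
    rw [pr_succ, rp_succ, Module.End.mul_apply, Module.End.mul_apply, h, e1, smul_mul_assoc,
      map_smul, smul_eq_mul, ih (fun i => c i.succ) (fun k => h _) (fun k => hs _), e2,
      Module.End.mul_apply]
    have e3 : (N + 1) * (N + 1 + 1) / 2 = N * (N + 1) / 2 + (N + 1) := by
      have : (N + 1) * (N + 1 + 1) = N * (N + 1) + (N + 1) * 2 := by ring
      rw [this, Nat.add_mul_div_right _ _ (by norm_num)]
    rw [e3, pow_add, pow_succ]
    ring

/-- **The contraction with the abelian variety is self-adjoint.** -/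
theorem D_adj (u v : X.R) : X.tr (DD S u * v) = X.tr (u * DD S v) := by
  have key : X.tr (D0 S u * v) = X.tr (u * D0 S v) := by
    have h1 : X.tr (D0 S u * v) = (-1 : ℂ) ^ (a * (a + 1) / 2) *
        X.tr (sN X a (pr (ib S) u) * rp (io S) v) := adj_pr (io S) (adj_io S) (sg_io S) _ _
    have h2 : sN X a (pr (ib S) u) = (-1 : ℂ) ^ (a * a) • pr (ib S) (sN X a u) := by
      have := LinearMap.congr_fun (pr_pr (fun _ : Fin a => sg X) (ib S) fun _ j => sg_ib S j) u
      rw [neg_pow_smul] at this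
      exact this
    have h3 : X.tr (pr (ib S) (sN X a u) * rp (io S) v) = (-1 : ℂ) ^ (a * (a + 1) / 2) *
        X.tr (sN X a (sN X a u) * rp (ib S) (rp (io S) v)) :=
      adj_pr (ib S) (adj_ib S) (sg_ib S) _ _
    have h4 : sN X a (sN X a u) = u := LinearMap.congr_fun (sN_sN a) u
    have h5 : rp (ib S) (rp (io S) v) = (-1 : ℂ) ^ a • D0 S v := by
      have e : rp (ib S) * rp (io S) = (-1 : ℂ) ^ a • D0 S := by
        rw [rp_eq _ (ib_ib S), rp_eq _ (io_io S), neg_pow_smul, neg_pow_smul, smul_mul_smul_comm,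
          ← mul_pow, neg_one_mul, neg_neg, one_pow, one_smul, D0_pr]
      exact LinearMap.congr_fun e v
    rw [h1, h2, smul_mul_assoc, map_smul, smul_eq_mul, h3, h4, h5, mul_smul_comm, map_smul,
      smul_eq_mul]
    have e1 : (-1 : ℂ) ^ (a * (a + 1) / 2) * (-1 : ℂ) ^ (a * (a + 1) / 2) = 1 := by
      rw [← mul_pow, neg_one_mul, neg_neg, one_pow]
    have e2 : (-1 : ℂ) ^ (a * a) * (-1 : ℂ) ^ a = 1 := by
      rw [← pow_add]
      have : a * a + a = a * (a + 1) := by ring
      rw [this]
      exact (Nat.even_mul_succ_self a).neg_one_pow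
    calc _ = ((-1 : ℂ) ^ (a * (a + 1) / 2) * (-1 : ℂ) ^ (a * (a + 1) / 2)) *
          ((-1 : ℂ) ^ (a * a) * (-1 : ℂ) ^ a) * X.tr (u * D0 S v) := by ring
      _ = _ := by rw [e1, e2]; ring
  rw [DD, LinearMap.smul_apply, LinearMap.smul_apply, smul_mul_assoc, mul_smul_comm, map_smul,
    map_smul, key]

theorem M_adj (u v : X.R) : X.tr (MM S u * v) = X.tr (u * MM S v) := by
  rw [MM_apply, MM_apply, vol_central, mul_assoc]

end Pool.Agent.Helper86.Orl
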