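import Mathlib

/-!
# Products of anticommuting operators
-/

set_option autoImplicit false

namespace Pool.Agent.Helper86.Orl

open Module

section Ring

variable {B : Type*} [Ring B]

/-- the product `c 0 * c 1 * ⋯` -/
def pr {N : ℕ} (c : Fin N → B) : B := (List.ofFn c).prod

/-- the product `⋯ * c 1 * c 0` -/
def rp {N : ℕ} (c : Fin N → B) : B := (List.ofFn c).reverse.prod

theorem pr_zero (c : Fin 0 → B) : pr c = 1 := by simp [pr]

theorem rp_zero (c : Fin 0 → B) : rp c = 1 := by simp [rp]

theorem pr_succ {N : ℕ} (c : Fin (N + 1) → B) : pr c = c 0 * pr (fun i => c i.succ) := by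
  simp [pr, List.ofFn_succ]

theorem rp_succ {N : ℕ} (c : Fin (N + 1) → B) : rp c = rp (fun i => c i.succ) * c 0 := by
  simp [rp, List.ofFn_succ]

theorem neg_one_pow_mul_self (N : ℕ) : (-1 : B) ^ N * (-1) ^ N = 1 := by
  rw [← pow_add]
  exact Even.neg_one_pow ⟨N, rfl⟩

theorem pr_anti {N : ℕ} (x : B) (c : Fin N → B) (h : ∀ i, x * c i = -(c i * x)) :
    x * pr c = (-1) ^ N * (pr c * x) := by
  induction N with
  | zero => simp [pr_zero]
  | succ N ih =>
    rw [pr_succ, ← mul_assoc, h 0, neg_mul, mul_assoc, ih (fun i => c i.succ) fun i => h i.succ,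
      pow_succ]
    have : ∀ y : B, y * (-1) ^ N = (-1) ^ N * y := fun y =>
      ((Commute.neg_one_left y).pow_left N).eq.symm
    rw [← mul_assoc (c 0), this]
    noncomm_ring

theorem rp_anti {N : ℕ} (x : B) (c : Fin N → B) (h : ∀ i, x * c i = -(c i * x)) :
    x * rp c = (-1) ^ N * (rp c * x) := by
  induction N with
  | zero => simp [rp_zero]
  | succ N ih =>
    have : ∀ y : B, y * (-1) ^ N = (-1) ^ N * y := fun y =>
      ((Commute.neg_one_left y).pow_left N).eq.symm
    rw [rp_succ, ← mul_assoc, ih (fun i => c i.succ) fun i => h i.succ, mul_assoc, mul_assoc,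
      h 0, pow_succ]
    noncomm_ring

theorem rp_anti' {N : ℕ} (x : B) (c : Fin N → B) (h : ∀ i, x * c i = -(c i * x)) :
    rp c * x = (-1) ^ N * (x * rp c) := by
  rw [rp_anti x c h, ← mul_assoc, neg_one_pow_mul_self]
  simp

theorem pr_anti' {N : ℕ} (x : B) (c : Fin N → B) (h : ∀ i, x * c i = -(c i * x)) :
    pr c * x = (-1) ^ N * (x * pr c) := by
  rw [pr_anti x c h, ← mul_assoc, neg_one_pow_mul_self]
  simp

/-- two products of anticommuting elements anticommute -/
theorem rp_rp {N M : ℕ} (c : Fin N → B) (d : Fin M → B) (h : ∀ i j, c i * d j = -(d j * c i)) :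
    rp c * rp d = (-1) ^ (N * M) * (rp d * rp c) := by
  induction N with
  | zero => simp [rp_zero]
  | succ N ih =>
    have : ∀ y : B, y * (-1) ^ M = (-1) ^ M * y := fun y =>
      ((Commute.neg_one_left y).pow_left M).eq.symm
    rw [rp_succ, mul_assoc, rp_anti (c 0) d (h 0), ← mul_assoc, this, mul_assoc, ← mul_assoc (rp _),
      ih (fun i => c i.succ) fun i j => h i.succ j, add_mul, pow_add, one_mul]
    simp only [mul_assoc]
    simp only [← mul_assoc, ((Commute.neg_one_left ((-1 : B) ^ (N * M))).pow_left M).eq]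

theorem pr_pr {N M : ℕ} (c : Fin N → B) (d : Fin M → B) (h : ∀ i j, c i * d j = -(d j * c i)) :
    pr c * pr d = (-1) ^ (N * M) * (pr d * pr c) := by
  induction N with
  | zero => simp [pr_zero]
  | succ N ih =>
    have : ∀ y : B, y * (-1) ^ (N * M) = (-1) ^ (N * M) * y := fun y =>
      ((Commute.neg_one_left y).pow_left (N * M)).eq.symm
    rw [pr_succ, mul_assoc, ih (fun i => c i.succ) fun i j => h i.succ j, ← mul_assoc, this,
      mul_assoc, ← mul_assoc (c 0), pr_anti (c 0) d (h 0), add_mul, pow_add, one_mul]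
    simp only [mul_assoc]

theorem pr_left {N : ℕ} (c : Fin N → B) (h : ∀ i j, c i * c j = -(c j * c i))
    (h2 : ∀ i, c i * c i = 0) (i : Fin N) : c i * pr c = 0 := by
  induction N with
  | zero => exact i.elim0
  | succ N ih =>
    rw [pr_succ]
    refine Fin.cases ?_ (fun j => ?_) i
    · rw [← mul_assoc, h2, zero_mul]
    · rw [← mul_assoc, h, neg_mul, mul_assoc, ih (fun i => c i.succ) (fun i j => h _ _)
        (fun i => h2 _) j, mul_zero, neg_zero]

theorem pr_right {N : ℕ} (c : Fin N → B) (h : ∀ i j, c i * c j = -(c j * c i))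
    (h2 : ∀ i, c i * c i = 0) (i : Fin N) : pr c * c i = 0 := by
  rw [pr_anti' (c i) c (fun j => by
    by_cases e : i = j
    · subst e; rw [h2, neg_zero]
    · exact h i j), pr_left c h h2 i, mul_zero]

theorem rp_left {N : ℕ} (c : Fin N → B) (h : ∀ i j, c i * c j = -(c j * c i))
    (h2 : ∀ i, c i * c i = 0) (i : Fin N) : c i * rp c = 0 := by
  rw [rp_anti (c i) c (fun j => h i j)]
  have : rp c * c i = 0 := by
    induction N with
    | zero => exact i.elim0
    | succ N ih =>
      rw [rp_succ]
      refine Fin.cases ?_ (fun j => ?_) i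
      · rw [mul_assoc, h2, mul_zero]
      · rw [mul_assoc, h, mul_neg, ← mul_assoc, ih (fun i => c i.succ) (fun i j => h _ _)
          (fun i => h2 _) j, zero_mul, neg_zero]
  rw [this, mul_zero]

/-- the reversed product -/
theorem rp_eq {N : ℕ} (c : Fin N → B) (h : ∀ i j, c i * c j = -(c j * c i)) :
    rp c = (-1) ^ (N * (N - 1) / 2) * pr c := by
  induction N with
  | zero => simp [pr_zero, rp_zero]
  | succ N ih =>
    have e : (N + 1) * (N + 1 - 1) / 2 = N * (N - 1) / 2 + N := by
      rw [Nat.add_sub_cancel]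
      have h1 : (N + 1) * N = N * (N - 1) + N * 2 := by
        rcases N with _ | N
        · rfl
        · simp only [Nat.add_sub_cancel]; ring
      rw [h1, Nat.add_mul_div_right _ _ (by norm_num)]
    rw [rp_succ, pr_succ, ih (fun i => c i.succ) fun i j => h _ _, mul_assoc,
      pr_anti' (c 0) (fun i => c i.succ) (fun i => h _ _), e, pow_add, mul_assoc]

end Ring

section Vec

variable {B : Type*} [Ring B] {E : Type*} [AddCommGroup E] [Module B E]

/-- **Dual families.** -/
theorem pr_rp_smul {N : ℕ} (c l : Fin N → B) (y : E)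
    (hcl : ∀ i j, c i * l j + l j * c i = if i = j then 1 else 0) (hy : ∀ i, c i • y = 0) :
    pr c • rp l • y = y := by
  induction N generalizing y with
  | zero => simp [pr_zero, rp_zero]
  | succ N ih =>
    have h1 : pr (fun i => c (Fin.succ i)) • rp (fun i => l (Fin.succ i)) • (l 0 • y) = l 0 • y := by
      refine ih (fun i => c i.succ) (fun i => l i.succ) _ (fun i j => ?_) (fun i => ?_)
      · rw [hcl]
        simp
      · have := hcl i.succ 0
        rw [if_neg (Fin.succ_ne_zero i)] at this
        rw [← mul_smul, eq_neg_of_add_eq_zero_left this, neg_smul, mul_smul, hy, smul_zero, neg_zero]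
    rw [pr_succ, rp_succ, mul_smul, mul_smul, h1]
    have := hcl 0 0
    rw [if_pos rfl] at this
    rw [← mul_smul, eq_sub_of_add_eq this, sub_smul, one_smul, mul_smul, hy, smul_zero, sub_zero]

/-- **Dual families, the other order.** -/
theorem rp_pr_smul {N : ℕ} (c l : Fin N → B) (y : E)
    (hcl : ∀ i j, c i * l j + l j * c i = if i = j then 1 else 0) (hy : ∀ i, l i • y = 0) :
    rp l • pr c • y = y := by
  induction N with
  | zero => simp [pr_zero, rp_zero]
  | succ N ih =>
    have h1 : rp (fun i => l (Fin.succ i)) • pr (fun i => c (Fin.succ i)) • y = y := by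
      refine ih (fun i => c i.succ) (fun i => l i.succ) (fun i j => ?_) (fun i => hy _)
      rw [hcl]
      simp
    have h2 : l 0 • pr (fun i => c (Fin.succ i)) • y = 0 := by
      rw [← mul_smul, pr_anti (l 0) (fun i => c (Fin.succ i)) (fun i => ?_), mul_smul, mul_smul, hy,
        smul_zero, smul_zero]
      have := hcl i.succ 0
      rw [if_neg (Fin.succ_ne_zero i)] at this
      exact eq_neg_of_add_eq_zero_right this
    rw [pr_succ, rp_succ, mul_smul, mul_smul]
    have := hcl 0 0
    rw [if_pos rfl] at this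
    rw [← mul_smul (l 0), eq_sub_of_add_eq' this, sub_smul, one_smul, mul_smul (c 0), h2, smul_zero,
      sub_zero, h1]

theorem anti_smul_zero' {x : B} {N : ℕ} (c : Fin N → B) (y : E) (h : ∀ i, x * c i = -(c i * x))
    (hy : x • y = 0) : x • pr c • y = 0 := by
  rw [← mul_smul, pr_anti x c h, mul_smul, mul_smul, hy, smul_zero, smul_zero]

theorem anti_smul_zero {x : B} {N : ℕ} (c : Fin N → B) (y : E) (h : ∀ i, x * c i = -(c i * x))
    (hy : x • y = 0) : x • rp c • y = 0 := by
  rw [← mul_smul, rp_anti x c h, mul_smul, mul_smul, hy, smul_zero, smul_zero]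

end Vec

section Alg

variable {B : Type*} [Ring B] [Algebra ℂ B]

theorem neg_pow_smul (N : ℕ) (y : B) : (-1 : B) ^ N * y = (-1 : ℂ) ^ N • y := by
  rcases Nat.even_or_odd N with h | h
  · rw [h.neg_one_pow, h.neg_one_pow, one_mul, one_smul]
  · rw [h.neg_one_pow, h.neg_one_pow, neg_mul, one_mul, neg_smul, one_smul]

end Alg

section Top

variable {B : Type*} [Ring B] [Algebra ℂ B]

theorem alt_det {N : ℕ} {M : Type*} [AddCommGroup M] [Module ℂ M]
    (g : (Fin N → ℂ) [⋀^Fin N]→ₗ[ℂ] M) (C : Fin N → Fin N → ℂ) :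
    g C = (Matrix.of C).det • g (fun i => Pi.single i 1) := by
  rw [← sub_eq_zero, ← Module.forall_dual_apply_eq_zero_iff ℂ]
  intro f
  have h := AlternatingMap.eq_smul_basis_det (Pi.basisFun ℂ (Fin N)) (f.compAlternatingMap g)
  have h1 : f (g C) = f (g (Pi.basisFun ℂ (Fin N))) * (Pi.basisFun ℂ (Fin N)).det C := by
    have := congrArg (fun k => k C) h
    exact this
  have h2 : (Pi.basisFun ℂ (Fin N)).det C = (Matrix.of C).det := by
    rw [Pi.basisFun_det]
    rfl
  have h3 : (⇑(Pi.basisFun ℂ (Fin N)) : Fin N → Fin N → ℂ) = fun i => Pi.single i 1 := by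
    funext i
    simp
  rw [h2, h3] at h1
  rw [map_sub, map_smul, smul_eq_mul, sub_eq_zero, mul_comm]
  exact h1

/-- **Change of basis in products of anticommuting elements.** -/
theorem pr_det {N : ℕ} (τ' : Fin N → B) (h : ∀ i j, τ' i * τ' j = -(τ' j * τ' i))
    (C : Fin N → Fin N → ℂ) :
    pr (fun j => ∑ k, C j k • τ' k) = (Matrix.of C).det • pr τ' := by
  let f : (Fin N → ℂ) →ₗ[ℂ] B := Fintype.linearCombination ℂ τ'
  have hsq : ∀ z, f z * f z = 0 := by
    intro z
    have h1 : f z * f z = ∑ i, ∑ j, (z j * z i) • (τ' j * τ' i) := by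
      simp only [f, Fintype.linearCombination_apply, Finset.sum_mul, Finset.mul_sum]
      exact Finset.sum_congr rfl fun i _ => Finset.sum_congr rfl fun j _ => by
        rw [smul_mul_smul_comm]
    have h2 : f z * f z = -(f z * f z) := by
      rw [h1]
      nth_rewrite 1 [Finset.sum_comm]
      rw [← Finset.sum_neg_distrib]
      refine Finset.sum_congr rfl fun i _ => ?_
      rw [← Finset.sum_neg_distrib]
      refine Finset.sum_congr rfl fun j _ => ?_
      have e : τ' j * τ' i = -(τ' i * τ' j) := h j i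
      rw [e, smul_neg, mul_comm (z j), neg_neg]
    have h3 : (2 : ℂ) • (f z * f z) = 0 := by
      rw [two_smul]
      nth_rewrite 1 [h2]
      exact neg_add_cancel _
    exact (smul_eq_zero.mp h3).resolve_left two_ne_zero
  let F := ExteriorAlgebra.lift ℂ (⟨f, hsq⟩ : { f : (Fin N → ℂ) →ₗ[ℂ] B // ∀ m, f m * f m = 0 })
  have hF : ∀ v : Fin N → (Fin N → ℂ), F (ExteriorAlgebra.ιMulti ℂ N v) = pr fun i => f (v i) := by
    intro v
    rw [ExteriorAlgebra.ιMulti_apply, map_list_prod, List.map_ofFn]
    unfold pr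
    congr 1
    congr 1
    funext i
    exact ExteriorAlgebra.lift_ι_apply ℂ _ _ _
  have h4 : F (ExteriorAlgebra.ιMulti ℂ N C) = (Matrix.of C).det •
      F (ExteriorAlgebra.ιMulti ℂ N fun i => Pi.single i 1) :=
    alt_det (F.toLinearMap.compAlternatingMap (ExteriorAlgebra.ιMulti ℂ N)) C
  rw [hF, hF] at h4
  have e1 : (fun j => ∑ k, C j k • τ' k) = fun i => f (C i) := by
    funext j
    simp [f, Fintype.linearCombination_apply]
  have e2 : τ' = fun i => f (Pi.single i 1) := by
    funext j
    simp [f]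
  rw [e1, h4]
  congr 1
  rw [← e2]

end Top

end Pool.Agent.Helper86.Orl
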