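import Pool.Agent.Helper86.Orl.Rad

/-!
# The motives of degree one
-/

set_option autoImplicit false

open scoped ComplexConjugate
open Module Pool.Agent.W539.DI Pool.Agent.Helper30.DI Pool.Agent.Q8.OM

namespace Pool.Agent.Helper86.Orl

section Gen

variable {n a : ℕ} {X Y : KRing n} (S : AbelianSymmetry X a) (S' : AbelianSymmetry Y a)
  {φ : X.R →ₗ[ℂ] Y.R} {ψ : Y.R →ₗ[ℂ] X.R}

theorem diag_central {u : X.R} (hu : u ∈ ⨆ k : ℤ, X.H (0 + k, 0 + k)) (x : X.R) :
    u * x = x * u :=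
  Submodule.iSup_induction _ (motive := fun u => u * x = x * u) hu
    (fun k _ hy => even_central hy ⟨0 + k, rfl⟩ x) (by simp)
    (fun y z hy hz => by rw [add_mul, mul_add, hy, hz])

/-- the map given by the equivalence on the classes of degree one -/
noncomputable def al (φ : X.R →ₗ[ℂ] Y.R) (ψ : Y.R →ₗ[ℂ] X.R) : X.R →ₗ[ℂ] Y.R :=
  φ ∘ₗ LinearMap.mulLeft ℂ (ψ 1)

theorem al_eq (hc : ∀ x, ψ 1 * x = x * ψ 1) (w : X.R) :
    al φ ψ w = cg ψ φ (LinearMap.mulLeft ℂ w) 1 := by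
  change φ (ψ 1 * w) = φ (w * ψ 1)
  rw [hc]

theorem al_real (hφ : ∀ x, φ (X.bar x) = Y.bar (φ x)) (hψ : ∀ y, ψ (Y.bar y) = X.bar (ψ y))
    (w : X.R) : al φ ψ (X.bar w) = Y.bar (al φ ψ w) := by
  change φ (ψ 1 * X.bar w) = Y.bar (φ (ψ 1 * w))
  rw [← hφ, X.bar_mul, ← hψ, bar_one]

theorem al_spec (hψφ : ∀ x, ψ (φ x) = x) (hφψ : ∀ y, φ (ψ y) = y)
    (hφ : ∀ x, φ (X.bar x) = Y.bar (φ x)) (hψ : ∀ y, ψ (Y.bar y) = X.bar (ψ y))
    (hR : ∀ z, InV S z → InV S' (cg ψ φ z)) (hR' : ∀ z, InV S' z → InV S (cg φ ψ z))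
    (hc : ∀ x, ψ 1 * x = x * ψ 1) (hc' : ∀ y, φ 1 * y = y * φ 1)
    {p q : ℤ} (hpq : p + q = 1) {w : X.R} (hw : w ∈ X.H (p, q)) (hP : w ∈ PP S) :
    al φ ψ w ∈ Y.H (p, q) ∧ al φ ψ w ∈ PP S' ∧ al ψ φ (al φ ψ w) = w := by
  have key : ∀ w ∈ X.H (0, 1), w ∈ PP S →
      al φ ψ w ∈ Y.H (0, 1) ∧ al φ ψ w ∈ PP S' ∧ al ψ φ (al φ ψ w) = w := by
    intro w hw hP
    obtain ⟨γ, h1, h2, h3⟩ := rad_aux S S' hψφ hφψ hφ hψ hR hR' hw hP
    have h4 : al φ ψ w = γ := by
      rw [al_eq hc, h3, LinearMap.mulLeft_apply, mul_one]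
    rw [h4]
    refine ⟨h1, h2, ?_⟩
    rw [al_eq hc', ← h3, cg_cg hψφ, LinearMap.mulLeft_apply, mul_one]
  by_cases h0 : p = 0
  · have h1 : q = 1 := by omega
    subst h0 h1
    exact key w hw hP
  · by_cases h1 : p = 1
    · have h2 : q = 0 := by omega
      subst h1 h2
      obtain ⟨k1, k2, k3⟩ := key _ (X.bar_mem _ _ _ hw) (bar_mem_PP S hP)
      rw [al_real hφ hψ] at k1 k2 k3
      rw [al_real hψ hφ] at k3
      refine ⟨?_, ?_, bar_inj k3⟩
      · have := Y.bar_mem _ _ _ k1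
        rwa [Y.bar_bar] at this
      · have := bar_mem_PP S' k2
        rwa [Y.bar_bar] at this
    · have h2 : w = 0 := zero_of_type hw (by omega)
      rw [h2, map_zero, map_zero]
      exact ⟨Submodule.zero_mem _, Submodule.zero_mem _, rfl⟩

/-- the map preserves the spans of the forms -/
structure WI (b : X.R →ₗ[ℂ] Y.R) : Prop where
  f : ∀ k, b (S.form k) ∈ Submodule.span ℂ (Set.range S'.form)
  g : ∀ k, b (X.bar (S.form k)) ∈ Submodule.span ℂ (Set.range fun k => Y.bar (S'.form k))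

/-- the matrix of `b` on the forms -/
theorem b_inj {b : X.R →ₗ[ℂ] Y.R} (E : Matrix (Fin a) (Fin a) ℂ) (hE : E.det ≠ 0)
    (h1 : ∀ j, b (S.form j) = ∑ k, conj (E j k) • S'.form k)
    (h2 : ∀ j, b (X.bar (S.form j)) = ∑ k, E j k • Y.bar (S'.form k)) {w : X.R}
    (hw : Pi1 S w = w) (hb : b w = 0) : w = 0 := by
  obtain ⟨c, d, hcd⟩ := Pi1_span S w
  rw [hw] at hcd
  have e0 : b w = ∑ j, c j • ∑ k, conj (E j k) • S'.form k +
      ∑ j, d j • ∑ k, E j k • Y.bar (S'.form k) := by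
    rw [hcd, map_add, map_sum, map_sum]
    congr 1
    · exact Finset.sum_congr rfl fun j _ => by rw [map_smul, h1]
    · exact Finset.sum_congr rfl fun j _ => by rw [map_smul, h2]
  rw [hb] at e0
  have e1 : ∀ l, ∑ j, c j * conj (E j l) = 0 := by
    intro l
    have h3 := congrArg (io S' l) e0
    simp only [map_zero, map_add, map_sum, map_smul, io_form, io_bform, smul_zero,
      Finset.sum_const_zero, add_zero, smul_ite, Finset.sum_ite_eq, Finset.mem_univ, if_true] at h3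
    have h4 : (∑ j, c j * conj (E j l)) • (1 : Y.R) = (0 : ℂ) • 1 := by
      rw [Finset.sum_smul, zero_smul, h3]
      exact Finset.sum_congr rfl fun j _ => (smul_smul _ _ _).symm
    exact smul_one_inj h4
  have e2 : ∀ l, ∑ j, d j * E j l = 0 := by
    intro l
    have h3 := congrArg (ib S' l) e0
    simp only [map_zero, map_add, map_sum, map_smul, ib_form, ib_bform, smul_zero,
      Finset.sum_const_zero, zero_add, smul_ite, Finset.sum_ite_eq, Finset.mem_univ, if_true] at h3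
    have h4 : (∑ j, d j * E j l) • (1 : Y.R) = (0 : ℂ) • 1 := by
      rw [Finset.sum_smul, zero_smul, h3]
      exact Finset.sum_congr rfl fun j _ => (smul_smul _ _ _).symm
    exact smul_one_inj h4
  have hd : d = 0 := Matrix.eq_zero_of_vecMul_eq_zero hE (funext e2)
  have hc : c = 0 := by
    have h3 : (fun j => conj (c j)) = 0 := by
      refine Matrix.eq_zero_of_vecMul_eq_zero hE (funext fun l => ?_)
      have h4 := congrArg (starRingEnd ℂ) (e1 l)
      rw [map_sum, map_zero] at h4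
      rw [Pi.zero_apply, ← h4]
      change ∑ j, conj (c j) * E j l = _
      exact Finset.sum_congr rfl fun j _ => by rw [map_mul, Complex.conj_conj]
    funext j
    have h5 : conj (c j) = 0 := congrFun h3 j
    rw [← Complex.conj_conj (c j), h5, map_zero]
    rfl
  rw [hcd, hc, hd]
  simp

end Gen

section Thy

variable {m a : ℕ} {ι : Type} {T : Theory (m + a) ι} {C : Act T} {i j : ι}

/-- **The killed classes of degree one.** -/
theorem P1_iso (R : Scal C (fun b : Bool => cond b i j)) (h : C.Equiv i j) :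
    (PT R).Iso true {1} false {1} := by
  obtain ⟨φ, hφ, ψ, hψ, h1, h2, hi, hR, hR'⟩ := h
  have hψφ : ∀ x, ψ (φ x) = x := LinearMap.congr_fun h1
  have hφψ : ∀ x, φ (ψ x) = x := LinearMap.congr_fun h2
  have hc : ∀ x, ψ 1 * x = x * ψ 1 :=
    diag_central (T.hodge _ _ _ hψ 0 0 1 (T.X j).one_mem)
  have hc' : ∀ x, φ 1 * x = x * φ 1 :=
    diag_central (T.hodge _ _ _ hφ 0 0 1 (T.X i).one_mem)
  have hα : al φ ψ ∈ T.A i j := T.comp _ _ _ _ _ (C.mul _ _ _ hψ) hφ
  have hα' : al ψ φ ∈ T.A j i := T.comp _ _ _ _ _ (C.mul _ _ _ hφ) hψ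
  have s1 := fun (p q : ℤ) (hpq : p + q = 1) (w : (T.X i).R) (hw : w ∈ (T.X i).H (p, q))
    (hP : w ∈ PP (C.S i)) => al_spec (C.S i) (C.S j) hψφ hφψ (T.real _ _ _ hφ) (T.real _ _ _ hψ)
      hR hR' hc hc' hpq hw hP
  have s2 := fun (p q : ℤ) (hpq : p + q = 1) (w : (T.X j).R) (hw : w ∈ (T.X j).H (p, q))
    (hP : w ∈ PP (C.S j)) => al_spec (C.S j) (C.S i) hφψ hψφ (T.real _ _ _ hψ) (T.real _ _ _ hφ)
      hR' hR hc' hc hpq hw hP
  let f : (PX R true).R →ₗ[ℂ] (PX R false).R :=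
    dsc R (k := true) (l := false) (al φ ψ ∘ₗ part (T.X i) {1})
  let g : (PX R false).R →ₗ[ℂ] (PX R true).R :=
    dsc R (k := false) (l := true) (al ψ φ ∘ₗ part (T.X j) {1})
  let IX : (PX R true).R →ₗ[ℂ] (T.X i).R := I R true
  let IY : (PX R false).R →ₗ[ℂ] (T.X j).R := I R false
  have If : ∀ x, IY (f x) = pj (C.S j) (al φ ψ (part (T.X i) {1} (IX x))) := fun x => rfl
  have Ig : ∀ x, IX (g x) = pj (C.S i) (al ψ φ (part (T.X j) {1} (IY x))) := fun x => rfl
  have hf : f ∈ PAg R true false := dsc_mem R (T.comp _ _ _ _ _ (T.part_mem _ _) hα)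
  have hg : g ∈ PAg R false true := dsc_mem R (T.comp _ _ _ _ _ (T.part_mem _ _) hα')
  have g1 : ∀ p q, ∀ x ∈ (PX R true).H (p, q), g (f x) = part (PX R true) {1} x := by
    intro p q x hx
    have hx' : IX x ∈ (T.X i).H (p, q) := hx
    have hxP : IX x ∈ PP (C.S i) := I_PP R x
    have : IX (g (f x)) = IX (part (PX R true) {1} x) := by
      by_cases hpq : p + q = 1
      · obtain ⟨t1, t2, t3⟩ := s1 p q hpq _ hx' hxP
        rw [Ig, If, part_in _ hx' (by simpa using hpq), pj_of _ t2,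
          part_in _ t1 (by simpa using hpq), t3, pj_of _ hxP, part_in _ hx (by simpa using hpq)]
      · rw [Ig, If, part_out _ hx' (by simpa using hpq), map_zero, map_zero, map_zero, map_zero,
          map_zero, part_out _ hx (by simpa using hpq), map_zero]
    exact I_inj R this
  have g2 : ∀ p q, ∀ x ∈ (PX R false).H (p, q), f (g x) = part (PX R false) {1} x := by
    intro p q x hx
    have hx' : IY x ∈ (T.X j).H (p, q) := hx
    have hxP : IY x ∈ PP (C.S j) := I_PP R x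
    have : IY (f (g x)) = IY (part (PX R false) {1} x) := by
      by_cases hpq : p + q = 1
      · obtain ⟨t1, t2, t3⟩ := s2 p q hpq _ hx' hxP
        rw [If, Ig, part_in _ hx' (by simpa using hpq), pj_of _ t2,
          part_in _ t1 (by simpa using hpq), t3, pj_of _ hxP, part_in _ hx (by simpa using hpq)]
      · rw [If, Ig, part_out _ hx' (by simpa using hpq), map_zero, map_zero, map_zero, map_zero,
          map_zero, part_out _ hx (by simpa using hpq), map_zero]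
    exact I_inj R this
  exact ⟨f, hf, g, hg, hom_ext' (PX R true) g1, hom_ext' (PX R false) g2⟩

/-- **The forms.** -/
theorem exists_b (h : C.Equiv i j) : ∃ b ∈ T.A i j, ∃ b' ∈ T.A j i,
    WI (C.S i) (C.S j) b ∧ WI (C.S j) (C.S i) b' ∧
    (∀ k, b' (b ((C.S i).form k)) = (C.S i).form k) ∧
    (∀ k, b' (b ((T.X i).bar ((C.S i).form k))) = (T.X i).bar ((C.S i).form k)) ∧
    (∀ k, b (b' ((C.S j).form k)) = (C.S j).form k) ∧
    (∀ k, b (b' ((T.X j).bar ((C.S j).form k))) = (T.X j).bar ((C.S j).form k)) := by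
  obtain ⟨φ, hφ, ψ, hψ, h1, h2, hi, hR, hR'⟩ := h
  have hψφ : ∀ x, ψ (φ x) = x := LinearMap.congr_fun h1
  have hφψ : ∀ x, φ (ψ x) = x := LinearMap.congr_fun h2
  have hwm : ∀ k, (T.X i).bar ((C.S i).form k) ∈ (T.X i).H (0, 1) := fun k =>
    (T.X i).bar_mem _ _ _ ((C.S i).form_mem k)
  choose β γ hγ hβ using fun k => hR _ (InV_mul (C.S i) (hwm k))
  obtain ⟨s, hs⟩ := exists_s (C.S i) (C.S j) hψφ hφψ (T.real _ _ _ hφ) (T.real _ _ _ hψ) hR β γ hγ
    hβ
  set E : Matrix (Fin a) (Fin a) ℂ := Matrix.of fun j' k => sc (T.X j) (ib (C.S j) k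
    (γ j' - (s : ℂ) • ic (C.S j) (β j') (T.X j).ω)) with hE
  set φs := LinearMap.mulLeft ℂ (ex (T.X j) s) ∘ₗ φ with hφs
  set ψs := ψ ∘ₗ LinearMap.mulLeft ℂ (ex (T.X j) (-s)) with hψs
  have mφs : φs ∈ T.A i j := T.comp _ _ _ _ _ hφ (ex_mem j s)
  have mψs : ψs ∈ T.A j i := T.comp _ _ _ _ _ (by
    have := ex_mem (T := T) j (-s)
    push_cast at this
    exact this) hψ
  have mα : al φs ψs ∈ T.A i j := T.comp _ _ _ _ _ (C.mul _ _ _ mψs) mφs
  have hc : ∀ x, ψs 1 * x = x * ψs 1 :=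
    diag_central (T.hodge _ _ _ mψs 0 0 1 (T.X j).one_mem)
  set v : Fin a → (T.X j).R := fun k => γ k - (s : ℂ) • ic (C.S j) (β k) (T.X j).ω with hv
  have hvm : ∀ k, v k ∈ (T.X j).H (0, 1) := fun k => Submodule.sub_mem _ (hγ k)
    (Submodule.smul_mem _ _ (ic_type (C.S j) (β k) _ _ _ (T.X j).ω_mem))
  have hαv : ∀ k, al φs ψs ((T.X i).bar ((C.S i).form k)) = v k := by
    intro k
    have e1 := ex_ic (C.S j) (β k) (-(s : ℂ))
    have e2 := ex_mul_comm (X := T.X j) (-(s : ℂ)) (γ k)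
    rw [neg_neg] at e1 e2
    have e3 : cg ψs φs (LinearMap.mulLeft ℂ ((T.X i).bar ((C.S i).form k))) =
        LinearMap.mulLeft ℂ (ex (T.X j) s) *
          cg ψ φ (LinearMap.mulLeft ℂ ((T.X i).bar ((C.S i).form k))) *
          LinearMap.mulLeft ℂ (ex (T.X j) (-s)) := rfl
    have e4 : cg ψ φ (LinearMap.mulLeft ℂ ((T.X i).bar ((C.S i).form k))) =
        ic (C.S j) (β k) + LinearMap.mulLeft ℂ (γ k) := hβ k
    have e5 : ic (C.S j) (β k) (1 : (T.X j).R) = 0 :=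
      zero_of_type (ic_type (C.S j) (β k) 0 0 1 (T.X j).one_mem) (Or.inl (by norm_num))
    rw [al_eq hc, e3, e4, mul_add, add_mul, e1, e2, LinearMap.add_apply, LinearMap.add_apply, e5,
      LinearMap.smul_apply, LinearMap.mulLeft_apply, LinearMap.mulLeft_apply, mul_one, mul_one,
      zero_add, neg_smul, neg_add_eq_sub]
  set b := Pi1 (C.S j) ∘ₗ al φs ψs ∘ₗ Pi1 (C.S i) with hb
  have mPi : ∀ w, Pi1 (C.S w) ∈ T.A w w := fun w =>
    T.comp _ _ _ _ _ (T.part_mem w _) ((T.A w w).sub_mem (T.one w) (C.pj_mem w))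
  have mb : b ∈ T.A i j := T.comp _ _ _ _ _ (T.comp _ _ _ _ _ (mPi i) mα) (mPi j)
  have bg : ∀ l, b ((T.X i).bar ((C.S i).form l)) =
      ∑ k, E l k • (T.X j).bar ((C.S j).form k) := by
    intro l
    rw [hb, LinearMap.comp_apply, LinearMap.comp_apply, Pi1_bform, hαv, Pi1_apply,
      part_in _ (hvm l) (by simp), pj_01 _ (hvm l)]
    rfl
  have bf : ∀ l, b ((C.S i).form l) = ∑ k, conj (E l k) • (C.S j).form k := by
    intro l
    have h3 := T.real _ _ _ mb ((T.X i).bar ((C.S i).form l))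
    rw [(T.X i).bar_bar, bg, map_sum] at h3
    rw [h3]
    refine Finset.sum_congr rfl fun k _ => ?_
    rw [LinearMap.map_smulₛₗ, (T.X j).bar_bar]
  obtain ⟨g, hg, hreg⟩ := T.regular mb
  set b' := Pi1 (C.S i) ∘ₗ g ∘ₗ Pi1 (C.S j) with hb'
  have mb' : b' ∈ T.A j i := T.comp _ _ _ _ _ (T.comp _ _ _ _ _ (mPi j) hg) (mPi i)
  have bPi : ∀ x, b (Pi1 (C.S i) x) = b x := by
    intro x
    rw [hb, LinearMap.comp_apply, LinearMap.comp_apply, Pi1_idem]
    rfl
  have Pib : ∀ x, Pi1 (C.S j) (b x) = b x := by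
    intro x
    rw [hb, LinearMap.comp_apply, Pi1_idem]
  have inv1 : ∀ w, Pi1 (C.S i) w = w → b' (b w) = w := by
    intro w hw
    rw [← sub_eq_zero]
    refine b_inj (C.S i) (C.S j) E hs bf bg ?_ ?_
    · rw [map_sub, hw, hb', LinearMap.comp_apply, Pi1_idem]
    · have e : b' (b w) = Pi1 (C.S i) (g (Pi1 (C.S j) (b w))) := rfl
      rw [map_sub, e, Pib, bPi, sub_eq_zero]
      exact LinearMap.congr_fun hreg w
  set wv : Fin a → (T.X i).R := fun k => ∑ l, (E⁻¹) k l • (T.X i).bar ((C.S i).form l) with hwv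
  have hEE : E⁻¹ * E = 1 := Matrix.nonsing_inv_mul _ (isUnit_iff_ne_zero.mpr hs)
  have bwv : ∀ k, b (wv k) = (T.X j).bar ((C.S j).form k) := by
    intro k
    have e : b (wv k) = ∑ l', (E⁻¹ * E) k l' • (T.X j).bar ((C.S j).form l') := by
      rw [hwv]
      simp only [map_sum, map_smul, bg, Finset.smul_sum, smul_smul]
      rw [Finset.sum_comm]
      refine Finset.sum_congr rfl fun l' _ => ?_
      rw [← Finset.sum_smul, Matrix.mul_apply]
    rw [e, hEE]
    simp [Matrix.one_apply]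
  have Piwv : ∀ k, Pi1 (C.S i) (wv k) = wv k := by
    intro k
    rw [hwv]
    simp only [map_sum, map_smul, Pi1_bform]
  have wspan : ∀ k, wv k ∈ Submodule.span ℂ
      (Set.range fun l => (T.X i).bar ((C.S i).form l)) := fun k =>
    Submodule.sum_mem _ fun l _ => Submodule.smul_mem _ _ (Submodule.subset_span ⟨l, rfl⟩)
  have b1 : ∀ k, b' ((T.X j).bar ((C.S j).form k)) = wv k := by
    intro k
    rw [← bwv, inv1 _ (Piwv k)]
  have b2 : ∀ k, b' ((C.S j).form k) = (T.X i).bar (wv k) := by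
    intro k
    have h3 := T.real _ _ _ mb' ((T.X j).bar ((C.S j).form k))
    rwa [(T.X j).bar_bar, b1] at h3
  refine ⟨b, mb, b', mb', ⟨fun k => ?_, fun k => ?_⟩, ⟨fun k => ?_, fun k => ?_⟩, fun k => ?_,
    fun k => ?_, fun k => ?_, fun k => ?_⟩
  · rw [bf]
    exact Submodule.sum_mem _ fun l _ => Submodule.smul_mem _ _ (Submodule.subset_span ⟨l, rfl⟩)
  · rw [bg]
    exact Submodule.sum_mem _ fun l _ => Submodule.smul_mem _ _ (Submodule.subset_span ⟨l, rfl⟩)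
  · rw [b2, hwv]
    simp only [map_sum, LinearMap.map_smulₛₗ, (T.X i).bar_bar]
    exact Submodule.sum_mem _ fun l _ => Submodule.smul_mem _ _ (Submodule.subset_span ⟨l, rfl⟩)
  · rw [b1]
    exact wspan k
  · exact inv1 _ (Pi1_form _ k)
  · exact inv1 _ (Pi1_bform _ k)
  · rw [b2, T.real _ _ _ mb, bwv, (T.X j).bar_bar]
  · rw [b1, bwv]

end Thy

end Pool.Agent.Helper86.Orl
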