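import Pool.Agent.Helper86.Orl.Muk

/-!
# The killed classes of derived equivalent varieties are derived equivalent
-/

set_option autoImplicit false

open scoped ComplexConjugate
open Module Pool.Agent.W539.DI Pool.Agent.Helper30.DI Pool.Agent.Q8.OM

namespace Pool.Agent.Helper86.Orl

variable {m a : ℕ} {ι : Type} {T : Theory (m + a) ι}

theorem pow_mem' {n : ℕ} {T : Theory n ι} (i : ι) (j : ℕ) :
    LinearMap.mulLeft ℂ ((T.X i).ω ^ j) ∈ T.A i i := by
  induction j with
  | zero =>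
    have : LinearMap.mulLeft ℂ ((T.X i).ω ^ 0) =
        (LinearMap.id : (T.X i).R →ₗ[ℂ] (T.X i).R) := by
      rw [pow_zero]
      exact mulLeft_one'
    rw [this]
    exact T.one _
  | succ j ih =>
    rw [pow_succ, mulLeft_mul']
    exact T.comp _ _ _ _ _ (T.lef _) ih

theorem ex_mem {n : ℕ} {T : Theory n ι} (i : ι) (t : ℚ) :
    LinearMap.mulLeft ℂ (ex (T.X i) t) ∈ T.A i i := by
  have e : LinearMap.mulLeft ℂ (ex (T.X i) t) = ∑ j ∈ Finset.range (n + 1),
      (((t ^ j / (j.factorial : ℚ) : ℚ)) : ℂ) • LinearMap.mulLeft ℂ ((T.X i).ω ^ j) := by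
    ext x
    rw [LinearMap.mulLeft_apply, LinearMap.sum_apply, ex, Finset.sum_mul]
    refine Finset.sum_congr rfl fun j _ => ?_
    rw [smul_mul_assoc, LinearMap.smul_apply, LinearMap.mulLeft_apply]
    push_cast
    rfl
  rw [e]
  exact (T.A i i).sum_mem fun j _ => T.rat _ _ _ _ (pow_mem' i j)

theorem tw_mem {n : ℕ} {T : Theory n ι} {i j : ι} {φ : (T.X i).R →ₗ[ℂ] (T.X j).R}
    (hφ : φ ∈ T.A i j) (t : ℚ) : tw φ t ∈ T.A i j := by
  have h1 := ex_mem (T := T) i (-t)
  have h2 := ex_mem (T := T) j (-t)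
  push_cast at h1 h2
  exact T.comp _ _ _ _ _ (T.comp _ _ _ _ _ h1 hφ) h2

theorem conj_rat (t : ℚ) : conj (t : ℂ) = (t : ℂ) := by
  rw [← Complex.ofReal_ratCast, Complex.conj_ofReal]

/-- the cohomological shape of an equivalence of derived categories -/
def Act.Equiv (C : Act T) (i j : ι) : Prop :=
  ∃ φ ∈ T.A i j, ∃ ψ ∈ T.A j i, ψ ∘ₗ φ = LinearMap.id ∧ φ ∘ₗ ψ = LinearMap.id ∧
    (∀ x y, (T.X j).mukai (φ x) (φ y) = (T.X i).mukai x y) ∧
    (∀ z : Module.End ℂ (T.X i).R, InV (C.S i) z → InV (C.S j) (φ ∘ₗ z ∘ₗ ψ)) ∧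
    (∀ z : Module.End ℂ (T.X j).R, InV (C.S j) z → InV (C.S i) (ψ ∘ₗ z ∘ₗ φ))

theorem tw_isom {n : ℕ} {X Y : KRing n} {φ : X.R →ₗ[ℂ] Y.R} {ψ : Y.R →ₗ[ℂ] X.R}
    (hφψ : ∀ y, φ (ψ y) = y) (hi : ∀ x y, Y.mukai (φ x) (φ y) = X.mukai x y) (t : ℂ)
    (x : X.R) (y : Y.R) : Y.mukai (tw φ t x) y = X.mukai x (tw ψ (-t) y) := by
  rw [tw_apply, mukai_ex, neg_neg, ← hφψ (ex Y t * y), hi, mukai_ex, neg_neg, tw_apply, neg_neg]

variable {C : Act T} {i j : ι}

/-- **The killed classes of derived equivalent varieties are derived equivalent** (after a change of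
the scale). -/
theorem Act.Equiv.killed (h : C.Equiv i j) :
    ∃ R : Scal C (fun b : Bool => cond b i j), (PT R).DerivedEquivalent true false := by
  obtain ⟨φ, hφ, ψ, hψ, h1, h2, hi, hR, hR'⟩ := h
  have hψφ : ∀ x, ψ (φ x) = x := LinearMap.congr_fun h1
  have hφψ : ∀ x, φ (ψ x) = x := LinearMap.congr_fun h2
  obtain ⟨t, M, hM, k1, k2⟩ := exists_tw (C.S i) (C.S j) hψφ hφψ (T.real _ _ _ hφ)
    (T.real _ _ _ hψ) hR'
  set F := tw φ (t : ℂ) with hFd
  set G := tw ψ (-(t : ℂ)) with hGd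
  have hFA : F ∈ T.A i j := tw_mem hφ t
  have hGA : G ∈ T.A j i := by
    have := tw_mem hψ (-t)
    push_cast at this
    exact this
  have hGF : ∀ x, G (F x) = x := tw_tw hψφ _
  have hFG : ∀ y, F (G y) = y := by
    intro y
    have := tw_tw hφψ (-(t : ℂ)) y
    rwa [neg_neg] at this
  have hFr : ∀ x, F ((T.X i).bar x) = (T.X j).bar (F x) :=
    tw_real (T.real _ _ _ hφ) _ (conj_rat t)
  have hGr : ∀ y, G ((T.X j).bar y) = (T.X i).bar (G y) :=
    tw_real (T.real _ _ _ hψ) _ (by rw [map_neg, conj_rat])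
  set lam : ℝ := Complex.normSq (Matrix.of M).det with hlam
  have hlam0 : 0 < lam := Complex.normSq_pos.mpr hM
  have hlamC : (Matrix.of M).det * conj (Matrix.of M).det = (lam : ℂ) := Complex.mul_conj _
  have c1 : ∀ x ∈ PP (C.S i), DD (C.S i) (G (DD (C.S j) (F x))) =
      ((-1) ^ a * (lam : ℂ)) • x := by
    intro x hx
    rw [← hlamC]
    exact comp_lemma (C.S i) (C.S j) hGF hFG hFr hGr M k1 k2 hM hx
  -- the other direction
  let M' : Fin a → Fin a → ℂ := fun k l => conj (M l k)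
  have hM' : (Matrix.of M').det = conj (Matrix.of M).det := by
    have : Matrix.of M' = (Matrix.of M).conjTranspose := by
      ext k l
      rfl
    rw [this, Matrix.det_conjTranspose]
    rfl
  have back : ∀ (z : Module.End ℂ (T.X i).R) (w : Module.End ℂ (T.X j).R),
      cg G F z * w + w * cg G F z = cg G F (z * cg F G w + cg F G w * z) := by
    intro z w
    have e : cg G F (cg F G w) = w := by
      ext y
      rw [cg_apply, cg_apply, hFG, hFG]
    rw [cg_add, cg_mul hGF, cg_mul hGF, e]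
  have c2 : ∀ y ∈ PP (C.S j), DD (C.S j) (F (DD (C.S i) (G y))) =
      ((-1) ^ a * (lam : ℂ)) • y := by
    intro y hy
    have := comp_lemma (C.S j) (C.S i) hFG hGF hGr hFr M' (fun k l => ?_) (fun k l => ?_) (by
      rw [hM']
      exact (map_ne_zero _).mpr hM) hy
    · rw [this, hM', Complex.conj_conj, mul_comm (conj _), hlamC]
    · rw [back]
      have e1 : io (C.S i) k * cg F G (ib (C.S j) l) + cg F G (ib (C.S j) l) * io (C.S i) k =
          conj (M l k) • 1 := by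
        have e2 := congrArg cj (k1 l k)
        rw [cj_add, cj_mul, cj_mul, cj_ib, cj_cg hFr hGr, cj_io, cj_smul, cj_one] at e2
        exact (add_comm _ _).trans e2
      rw [e1, cg_smul, cg_one hFG]
    · rw [eq_neg_iff_add_eq_zero, back]
      have e1 : io (C.S i) k * cg F G (io (C.S j) l) + cg F G (io (C.S j) l) * io (C.S i) k = 0 := by
        rw [k2 l k, add_neg_cancel]
      rw [e1, cg_zero]
  -- membership
  have s1 : ∀ {u v : ι} {f : (T.X u).R →ₗ[ℂ] (T.X v).R}, f ∈ T.A u v →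
      ((-1 : ℂ) ^ a) • f ∈ T.A u v := by
    intro u v f hf
    have := T.rat u v ((-1) ^ a) f hf
    push_cast at this
    exact this
  have sgn : (-1 : ℂ) ^ a * (-1 : ℂ) ^ a = 1 := by
    rw [← mul_pow, neg_one_mul, neg_neg, one_pow]
  have m1 : (lam : ℂ) • pj (C.S j) ∈ T.A j j := by
    have e : (lam : ℂ) • pj (C.S j) = ((-1 : ℂ) ^ a) •
        (DD (C.S j) ∘ₗ F ∘ₗ DD (C.S i) ∘ₗ G ∘ₗ pj (C.S j)) := by
      ext y
      rw [LinearMap.smul_apply, LinearMap.smul_apply]
      simp only [LinearMap.comp_apply]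
      rw [c2 _ (Pool.Agent.Helper86.Orl.pj_mem (C.S j) y), smul_smul, ← mul_assoc, sgn, one_mul]
    rw [e]
    exact s1 (T.comp _ _ _ _ _ (T.comp _ _ _ _ _ (T.comp _ _ _ _ _ (T.comp _ _ _ _ _
      (C.pj_mem j) hGA) (C.orbit i)) hFA) (C.orbit j))
  have hl0 : (lam : ℂ) ≠ 0 := Complex.ofReal_ne_zero.mpr hlam0.ne'
  have m2 : ((lam : ℂ)⁻¹) • pj (C.S j) ∈ T.A j j := by
    obtain ⟨g, hg, hreg⟩ := T.regular m1
    have e : ((lam : ℂ)⁻¹) • pj (C.S j) = pj (C.S j) ∘ₗ g ∘ₗ pj (C.S j) := by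
      ext y
      have h3 := LinearMap.congr_fun hreg y
      simp only [LinearMap.comp_apply, LinearMap.smul_apply, map_smul] at h3
      simp only [LinearMap.comp_apply, LinearMap.smul_apply]
      have h4 : (lam : ℂ) • (pj (C.S j)) (g ((pj (C.S j)) y)) = pj (C.S j) y := by
        have := congrArg (fun z => ((lam : ℂ)⁻¹) • z) h3
        simp only [smul_smul, inv_mul_cancel₀ hl0, one_smul] at this
        rw [← mul_assoc, inv_mul_cancel₀ hl0, one_mul] at this
        exact this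
      rw [← h4, smul_smul, inv_mul_cancel₀ hl0, one_smul, h4]
    rw [e]
    exact T.comp _ _ _ _ _ (T.comp _ _ _ _ _ (C.pj_mem j) hg) (C.pj_mem j)
  let R : Scal C (fun b : Bool => cond b i j) :=
    { ρ := fun b => cond b 1 lam⁻¹
      pos := fun b => by
        cases b
        · exact inv_pos.mpr hlam0
        · exact one_pos
      mem := fun b => by
        cases b
        · change ((lam⁻¹ : ℝ) : ℂ) • pj (C.S j) ∈ T.A j j
          push_cast
          exact m2
        · change ((1 : ℝ) : ℂ) • pj (C.S i) ∈ T.A i i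
          push_cast
          rw [one_smul]
          exact C.pj_mem i
      inv := fun b => by
        cases b
        · change (((lam⁻¹ : ℝ) : ℂ))⁻¹ • pj (C.S j) ∈ T.A j j
          push_cast
          rw [inv_inv]
          exact m1
        · change (((1 : ℝ) : ℂ))⁻¹ • pj (C.S i) ∈ T.A i i
          push_cast
          rw [inv_one, one_smul]
          exact C.pj_mem i }
  let φP : (PX R true).R →ₗ[ℂ] (PX R false).R :=
    dsc R (k := true) (l := false) (DD (C.S j) ∘ₗ F)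
  let ψP : (PX R false).R →ₗ[ℂ] (PX R true).R :=
    (R.ρ false : ℂ) • (((-1 : ℂ) ^ a) • dsc R (k := false) (l := true) (DD (C.S i) ∘ₗ G))
  let IX : (PX R true).R →ₗ[ℂ] (T.X i).R := I R true
  let IY : (PX R false).R →ₗ[ℂ] (T.X j).R := I R false
  have A1 : ∀ x, IY (φP x) = DD (C.S j) (F (IX x)) := fun x => pj_D _ _
  have hρ : ((R.ρ false : ℝ) : ℂ) = (lam : ℂ)⁻¹ := by
    change ((lam⁻¹ : ℝ) : ℂ) = _
    push_cast
    rfl
  have A2 : ∀ y, IX (ψP y) = ((lam : ℂ)⁻¹ * (-1 : ℂ) ^ a) • DD (C.S i) (G (IY y)) := by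
    intro y
    have e : IX (dsc R (k := false) (l := true) (DD (C.S i) ∘ₗ G) y) =
        DD (C.S i) (G (IY y)) := pj_D _ _
    change IX ((R.ρ false : ℂ) • (((-1 : ℂ) ^ a) •
      dsc R (k := false) (l := true) (DD (C.S i) ∘ₗ G) y)) = _
    rw [map_smul, map_smul, e, smul_smul, hρ]
  have hone : (lam : ℂ)⁻¹ * (-1) ^ a * ((-1) ^ a * lam) = 1 := by
    rw [mul_assoc, ← mul_assoc ((-1 : ℂ) ^ a), sgn, one_mul, inv_mul_cancel₀ hl0]
  have B1 : ∀ x, ψP (φP x) = x := by
    intro x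
    have : IX (ψP (φP x)) = IX x := by
      rw [A2, A1, c1 _ (I_PP R x), smul_smul, hone, one_smul]
    exact I_inj R this
  have B2 : ∀ y, φP (ψP y) = y := by
    intro y
    have : IY (φP (ψP y)) = IY y := by
      rw [A1, A2, map_smul, map_smul, c2 _ (I_PP R y), smul_smul, hone, one_smul]
    exact I_inj R this
  have P1 : ∀ u v, (PX R false).mukai u v = (lam⁻¹ * sa a : ℝ) *
    (T.X j).mukai (IY u) (vol (C.S j) * IY v) := fun u v => mukai_PR u v
  have P2 : ∀ u v, (PX R true).mukai u v = (1 * sa a : ℝ) *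
    (T.X i).mukai (IX u) (vol (C.S i) * IX v) := fun u v => mukai_PR u v
  have B3 : ∀ x y, (PX R false).mukai (φP x) (φP y) = (PX R true).mukai x y := by
    intro x y
    have hx : IX x ∈ PP (C.S i) := I_PP R x
    rw [P1, P2, A1, A1, mukai_D _ (C.chern j), ← MM_apply (C.S j), DMD,
      tw_isom hφψ hi, mukai_P (C.S i) (C.chern i) hx, ← hGd, c1 _ (I_PP R y),
      mul_smul_comm, KRing.mukai_smul_right]
    push_cast
    generalize (T.X i).mukai (IX x) (vol (C.S i) * IX y) = w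
    have : (lam : ℂ)⁻¹ * lam * ((-1) ^ a * (-1) ^ a) = 1 := by
      rw [sgn, mul_one, inv_mul_cancel₀ hl0]
    linear_combination ((sa a : ℂ) * w) * this
  refine ⟨R, φP, dsc_mem R (T.comp _ _ _ _ _ hFA (C.orbit j)), ψP, PAg_scal' R ?_,
    LinearMap.ext B1, LinearMap.ext B2, B3⟩
  have := PAg_rat R (k := false) (l := true) ((-1) ^ a)
    (dsc_mem R (k := false) (l := true) (T.comp _ _ _ _ _ hGA (C.orbit i)))
  push_cast at this
  exact this

end Pool.Agent.Helper86.Orl
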