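import Pool.Agent.Helper86.Orl.Tw

/-!
# The exponential of the Kähler class, and the composition lemma
-/

set_option autoImplicit false

open scoped ComplexConjugate
open Module Pool.Agent.W539.DI Pool.Agent.Helper30.DI Pool.Agent.Q8.OM

namespace Pool.Agent.Helper86.Orl

section Ex

variable {n a : ℕ} {X : KRing n} (S : AbelianSymmetry X a)

/-- the exponential of `t ω` -/
noncomputable def ex (X : KRing n) (t : ℂ) : X.R :=
  ∑ j ∈ Finset.range (n + 1), (t ^ j / (j.factorial : ℂ)) • X.ω ^ j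

theorem om_nil : X.ω ^ (n + 1) = 0 := by
  rw [pow_succ, om_top X.ω_mem (Or.inl one_pos)]

theorem ex_neg (t : ℂ) : ex X (-t) * ex X t = 1 := by
  letI : Module ℚ X.R := Module.compHom X.R (algebraMap ℚ ℂ)
  have ex_eq : ∀ t : ℂ, ex X t = IsNilpotent.exp (t • X.ω) := by
    intro t
    rw [IsNilpotent.exp_eq_sum (k := n + 1) (by rw [smul_pow, om_nil, smul_zero])]
    refine Finset.sum_congr rfl fun j _ => ?_
    rw [smul_pow, ← Rat.cast_smul_eq_qsmul ℂ, smul_smul]
    congr 1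
    push_cast
    rw [div_eq_inv_mul]
  rw [ex_eq, ex_eq, neg_smul]
  exact IsNilpotent.exp_neg_mul_exp_self ⟨n + 1, by rw [smul_pow, om_nil, smul_zero]⟩

theorem ex_neg' (t : ℂ) : ex X t * ex X (-t) = 1 := by
  have := ex_neg (X := X) (-t)
  rwa [neg_neg] at this

theorem ex_central (t : ℂ) (x : X.R) : ex X t * x = x * ex X t := by
  unfold ex
  rw [Finset.sum_mul, Finset.mul_sum]
  refine Finset.sum_congr rfl fun j _ => ?_
  rw [smul_mul_assoc, mul_smul_comm, even_central (X.pow_mem X.ω_mem j) ⟨_, rfl⟩]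

theorem ex_bar (t : ℂ) : X.bar (ex X t) = ex X (conj t) := by
  unfold ex
  rw [map_sum]
  refine Finset.sum_congr rfl fun j _ => ?_
  rw [LinearMap.map_smulₛₗ]
  congr 1
  · rw [map_div₀, map_pow, Complex.conj_natCast]
  · have := X.bar_pow j 1
    rwa [mul_one, bar_one, mul_one] at this

theorem ic_ex (b : Fin a → ℂ) (t : ℂ) (y : X.R) :
    ic S b (ex X t * y) = t • (ex X t * (ic S b X.ω * y)) + ex X t * ic S b y := by
  have h1 : ∀ j : ℕ, ic S b (X.ω ^ j * y) = ic S b (X.ω ^ j) * y + X.ω ^ j * ic S b y := fun j =>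
    ic_even S b (X.pow_mem X.ω_mem j) ⟨_, rfl⟩ y
  have h2 : ic S b (1 : X.R) = 0 :=
    zero_of_type (ic_type S b 0 0 1 X.one_mem) (Or.inl (by norm_num))
  have h3 : ic S b (ex X t * y) = ∑ j ∈ Finset.range (n + 1), (t ^ j / (j.factorial : ℂ)) •
      (ic S b (X.ω ^ j) * y) + ex X t * ic S b y := by
    unfold ex
    rw [Finset.sum_mul, map_sum, Finset.sum_mul, ← Finset.sum_add_distrib]
    refine Finset.sum_congr rfl fun j _ => ?_
    rw [smul_mul_assoc, map_smul, h1, smul_add, smul_mul_assoc]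
  rw [h3]
  congr 1
  rw [Finset.sum_range_succ']
  have h4 : X.ω ^ n * (ic S b X.ω * y) = 0 := by
    rw [← mul_assoc, om_top (ic_type S b _ _ _ X.ω_mem) (Or.inr one_pos), zero_mul]
  have h5 : ex X t * (ic S b X.ω * y) = ∑ j ∈ Finset.range n, (t ^ j / (j.factorial : ℂ)) •
      (X.ω ^ j * (ic S b X.ω * y)) := by
    unfold ex
    rw [Finset.sum_mul, Finset.sum_range_succ, smul_mul_assoc, h4, smul_zero, add_zero]
    exact Finset.sum_congr rfl fun j _ => by rw [smul_mul_assoc]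
  simp only [pow_zero, h2, zero_mul, smul_zero, add_zero]
  rw [h5, Finset.smul_sum]
  refine Finset.sum_congr rfl fun j _ => ?_
  rw [ic_pow, smul_mul_assoc, smul_smul, smul_smul, mul_assoc]
  congr 1
  rw [Nat.factorial_succ]
  push_cast
  have : ((j.factorial : ℂ)) ≠ 0 := Nat.cast_ne_zero.mpr (Nat.factorial_ne_zero j)
  have h6 : ((j : ℂ) + 1) ≠ 0 := Nat.cast_add_one_ne_zero j
  field_simp
  ring

/-- conjugation of a contraction by the exponential -/
theorem ex_ic (b : Fin a → ℂ) (t : ℂ) :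
    (LinearMap.mulLeft ℂ (ex X (-t)) * ic S b * LinearMap.mulLeft ℂ (ex X t) : Module.End ℂ X.R) =
      ic S b + t • LinearMap.mulLeft ℂ (ic S b X.ω) := by
  ext y
  change ex X (-t) * ic S b (ex X t * y) = ic S b y + t • (ic S b X.ω * y)
  rw [ic_ex, mul_add, mul_smul_comm, ← mul_assoc, ex_neg, one_mul, ← mul_assoc, ex_neg, one_mul,
    add_comm]

theorem ex_mul_comm (t : ℂ) (w : X.R) :
    (LinearMap.mulLeft ℂ (ex X (-t)) * LinearMap.mulLeft ℂ w * LinearMap.mulLeft ℂ (ex X t) :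
      Module.End ℂ X.R) = LinearMap.mulLeft ℂ w := by
  ext y
  change ex X (-t) * (w * (ex X t * y)) = w * y
  rw [← mul_assoc w, ← ex_central, mul_assoc (ex X t), ← mul_assoc, ex_neg, one_mul]

theorem dual_om_pow (j : ℕ) (x : X.R) : X.dual (X.ω ^ j * x) = (-1 : ℂ) ^ j • (X.ω ^ j * X.dual x) := by
  refine X.ind (P := fun x => X.dual (X.ω ^ j * x) = (-1 : ℂ) ^ j • (X.ω ^ j * X.dual x)) (by simp)
    (fun u v hu hv => by rw [mul_add, map_add, hu, hv, map_add, mul_add, smul_add])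
    (fun p q x hx => ?_) x
  rw [X.dual_of (X.pow_mul_mem X.ω_mem j hx), X.dual_of hx, mul_smul_comm, smul_smul]
  congr 1
  have : p + (j : ℤ) + (q + j) = (p + q) + 2 * j := by ring
  rw [this, zpow_add₀ Complex.I_ne_zero, mul_comm]
  congr 1
  rw [zpow_mul]
  have h2 : (Complex.I : ℂ) ^ (2 : ℤ) = -1 := by
    rw [show (2 : ℤ) = ((2 : ℕ) : ℤ) from rfl, zpow_natCast, Complex.I_sq]
  rw [h2, zpow_natCast]

theorem dual_ex (t : ℂ) (x : X.R) : X.dual (ex X t * x) = ex X (-t) * X.dual x := by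
  unfold ex
  rw [Finset.sum_mul, map_sum, Finset.sum_mul]
  refine Finset.sum_congr rfl fun j _ => ?_
  rw [smul_mul_assoc, map_smul, dual_om_pow, smul_smul, smul_mul_assoc]
  congr 1
  rw [neg_pow]
  ring

theorem mukai_ex (t : ℂ) (x y : X.R) : X.mukai (ex X t * x) y = X.mukai x (ex X (-t) * y) := by
  unfold KRing.mukai
  rw [dual_ex, ex_central, mul_assoc]

end Ex

end Pool.Agent.Helper86.Orl
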