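import Pool.Agent.Helper86.Orl.Eqv

/-!
# Extension of a map of the classes killed by the contractions
-/

set_option autoImplicit false

open scoped ComplexConjugate
open Module Pool.Agent.W539.DI Pool.Agent.Helper30.DI Pool.Agent.Q8.OM

namespace Pool.Agent.Helper86.Orl

section Gen

variable {n a : ℕ} {X : KRing n}

/-- one family -/
theorem gen_aux (N : Submodule ℂ X.R) (c l : Fin a → Module.End ℂ X.R) (p q : ℤ)
    (K : X.R → Prop) (hK : ∀ k z, K z → K (c k (l k z)))
    (hcc : ∀ i j, c i * c j = -(c j * c i)) (hc2 : ∀ i, c i * c i = 0)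
    (hcl : ∀ i j, c i * l j + l j * c i = if i = j then 1 else 0)
    (hcl' : ∀ i j, i ≠ j → l j * c i = -(c i * l j))
    (ht : ∀ k, ∀ z ∈ X.H (p, q), c k (l k z) ∈ X.H (p, q))
    (hN : ∀ k, ∀ z ∈ X.H (p, q), l k (c k z) ∈ N)
    (h0 : ∀ z ∈ X.H (p, q), K z → (∀ k, c k z = 0) → z ∈ N) :
    ∀ z ∈ X.H (p, q), K z → z ∈ N := by
  have key : ∀ s : ℕ, s ≤ a → ∀ z ∈ X.H (p, q), K z → (∀ k : Fin a, k.val < a - s → c k z = 0) →
      z ∈ N := by
    intro s
    induction s with
    | zero => exact fun _ z hz hKz h => h0 z hz hKz fun k => h k (by omega)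
    | succ s ih =>
      intro hs z hz hKz h
      let k : Fin a := ⟨a - (s + 1), by omega⟩
      have e : c k (l k z) + l k (c k z) = z := by
        have := LinearMap.congr_fun (hcl k k) z
        rw [if_pos rfl] at this
        exact this
      rw [← e]
      refine N.add_mem (ih (by omega) _ (ht k z hz) (hK k z hKz) fun j hj => ?_) (hN k z hz)
      by_cases hjk : j = k
      · rw [hjk]
        exact LinearMap.congr_fun (hc2 k) (l k z)
      · have h1 : c j z = 0 := h j (by
          have : j.val ≠ a - (s + 1) := fun h' => hjk (Fin.ext h')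
          omega)
        have h2 := LinearMap.congr_fun (hcc j k) (l k z)
        have h3 := LinearMap.congr_fun (hcl' j k hjk) z
        rw [LinearMap.neg_apply, Module.End.mul_apply, Module.End.mul_apply] at h2 h3
        rw [h1, map_zero] at h3
        rw [h2, neg_eq_zero.mp h3.symm, map_zero, neg_zero]
  intro z hz hKz
  exact key a le_rfl z hz hKz fun k hk => by omega

variable (S : AbelianSymmetry X a)

theorem tt_io_ne (i j : Fin a) (h : i ≠ j) : tt S j * io S i = -(io S i * tt S j) := by
  have := io_tt S i j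
  rw [if_neg h] at this
  exact eq_neg_of_add_eq_zero_right this

theorem tb_ib_ne (i j : Fin a) (h : i ≠ j) : tb S j * ib S i = -(ib S i * tb S j) := by
  have := ib_tb S i j
  rw [if_neg h] at this
  exact eq_neg_of_add_eq_zero_right this

/-- **Generation.** -/
theorem gen (N : Submodule ℂ X.R) (h0 : PP S ≤ N) (h1 : ∀ j, ∀ z ∈ N, S.form j * z ∈ N)
    (h2 : ∀ j, ∀ z ∈ N, X.bar (S.form j) * z ∈ N) : N = ⊤ := by
  have key : ∀ (d : ℕ) (p q : ℤ), p + q < d → ∀ z ∈ X.H (p, q), z ∈ N := by
    intro d
    induction d with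
    | zero =>
      intro p q hpq z hz
      rw [zero_of_type hz (by push_cast at hpq; omega)]
      exact N.zero_mem
    | succ d ih =>
      intro p q hpq
      have hio : ∀ k, ∀ z ∈ X.H (p, q), tt S k (io S k z) ∈ N := fun k z hz =>
        h1 k _ (ih _ _ (by push_cast at hpq; omega) _ (io_type S k p q z hz))
      have hib : ∀ k, ∀ z ∈ X.H (p, q), tb S k (ib S k z) ∈ N := fun k z hz =>
        h2 k _ (ih _ _ (by push_cast at hpq; omega) _ (ib_type S k p q z hz))
      have s1 : ∀ z ∈ X.H (p, q), (∀ k, io S k z = 0) → z ∈ N := by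
        refine gen_aux N (ib S) (tb S) p q (fun z => ∀ k, io S k z = 0) ?_ (ib_ib S) (ib_sq S)
          (ib_tb S) (tb_ib_ne S) (fun k z hz => ?_) hib (fun z hz hK h => h0 ?_)
        · intro k z hz j
          have e1 := LinearMap.congr_fun (io_ib S j k) (tb S k z)
          have e2 := LinearMap.congr_fun (io_tb S j k) z
          rw [LinearMap.neg_apply, Module.End.mul_apply, Module.End.mul_apply] at e1 e2
          rw [e1, e2, hz j, map_zero, neg_zero, map_zero, neg_zero]
        · have := ib_type S k _ _ _ (tb_type S k p q z hz)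
          simpa using this
        · rw [mem_PP]
          exact fun k => ⟨hK k, h k⟩
      have s2 : ∀ z ∈ X.H (p, q), True → z ∈ N := by
        refine gen_aux N (io S) (tt S) p q (fun _ => True) (fun _ _ _ => trivial) (io_io S)
          (io_sq S) (io_tt S) (tt_io_ne S) (fun k z hz => ?_) hio (fun z hz _ h => s1 z hz h)
        have := io_type S k _ _ _ (tt_type S k p q z hz)
        simpa using this
      exact fun z hz => s2 z hz trivial
  rw [eq_top_iff]
  intro z _
  refine X.ind (P := fun z => z ∈ N) N.zero_mem (fun x y hx hy => N.add_mem hx hy)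
    (fun p q x hx => ?_) z
  exact key ((p + q).toNat + 1) p q (by push_cast; omega) x hx

end Gen

section Ext

variable {n a : ℕ} {X Y : KRing n} (S : AbelianSymmetry X a)

theorem stepE_apply (b f : X.R →ₗ[ℂ] Y.R) (z : X.R) : stepE S b f z =
    ∑ j, (b (S.form j) * f (io S j z) + b (X.bar (S.form j)) * f (ib S j z)) := by
  rw [stepE, LinearMap.sum_apply]
  rfl

variable {S} {b u : X.R →ₗ[ℂ] Y.R}

/-- the terms of the extension -/
noncomputable def Gt (S : AbelianSymmetry X a) (b u : X.R →ₗ[ℂ] Y.R) : ℕ → X.R →ₗ[ℂ] Y.R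
  | 0 => u
  | k + 1 => (((k + 1 : ℚ)⁻¹ : ℚ) : ℂ) • stepE S b (Gt S b u k)

theorem Gt_succ (k : ℕ) : ((k : ℂ) + 1) • Gt S b u (k + 1) = stepE S b (Gt S b u k) := by
  rw [Gt, smul_smul]
  push_cast
  rw [mul_inv_cancel₀ (Nat.cast_add_one_ne_zero k), one_smul]

theorem Gt_mem {A : AddSubgroup (X.R →ₗ[ℂ] Y.R)} (hrat : ∀ (q : ℚ), ∀ f ∈ A, (q : ℂ) • f ∈ A)
    (hE : ∀ f ∈ A, stepE S b f ∈ A) (hu : u ∈ A) (k : ℕ) : Gt S b u k ∈ A := by
  induction k with
  | zero => exact hu
  | succ k ih => exact hrat _ _ (hE _ ih)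

theorem Gt_PP {z : X.R} (hz : z ∈ PP S) (k : ℕ) : Gt S b u (k + 1) z = 0 := by
  rw [Gt, LinearMap.smul_apply, stepE_apply, Finset.sum_eq_zero, smul_zero]
  intro j _
  rw [((mem_PP S).mp hz j).1, ((mem_PP S).mp hz j).2, map_zero, mul_zero, mul_zero, add_zero]

theorem Gt_deg (k : ℕ) {p q : ℤ} {z : X.R} (hz : z ∈ X.H (p, q)) (h : p + q < k) :
    Gt S b u k z = 0 := by
  induction k generalizing p q z with
  | zero => rw [zero_of_type hz (by push_cast at h; omega), map_zero]
  | succ k ih =>
    rw [Gt, LinearMap.smul_apply, stepE_apply, Finset.sum_eq_zero, smul_zero]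
    intro j _
    rw [ih (io_type S j p q z hz) (by push_cast at h; omega),
      ih (ib_type S j p q z hz) (by push_cast at h; omega), mul_zero, mul_zero, add_zero]

theorem Gt_top : Gt S b u (2 * n + 1) = 0 := by
  refine hom_ext' X fun p q z hz => ?_
  rw [LinearMap.zero_apply]
  by_cases h : p + q < ((2 * n + 1 : ℕ) : ℤ)
  · exact Gt_deg _ hz h
  · rw [zero_of_type hz (by push_cast at h; omega), map_zero]

theorem Gt_mul (hb1 : ∀ j, b (S.form j) ∈ Y.H (1, 0)) (hb2 : ∀ j, b (X.bar (S.form j)) ∈ Y.H (0, 1))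
    (hu1 : ∀ j z, u (S.form j * z) = 0) (hu2 : ∀ j z, u (X.bar (S.form j) * z) = 0) (k : ℕ) :
    (∀ j z, Gt S b u (k + 1) (S.form j * z) = b (S.form j) * Gt S b u k z) ∧
      ∀ j z, Gt S b u (k + 1) (X.bar (S.form j) * z) = b (X.bar (S.form j)) * Gt S b u k z := by
  have o11 : ∀ i j, b (S.form i) * b (S.form j) = -(b (S.form j) * b (S.form i)) := fun i j =>
    odd_anti (hb1 i) (hb1 j) (by decide) (by decide)
  have o12 : ∀ i j, b (S.form i) * b (X.bar (S.form j)) = -(b (X.bar (S.form j)) * b (S.form i)) :=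
    fun i j => odd_anti (hb1 i) (hb2 j) (by decide) (by decide)
  have o21 : ∀ i j, b (X.bar (S.form i)) * b (S.form j) = -(b (S.form j) * b (X.bar (S.form i))) :=
    fun i j => odd_anti (hb2 i) (hb1 j) (by decide) (by decide)
  have o22 : ∀ i j, b (X.bar (S.form i)) * b (X.bar (S.form j)) =
      -(b (X.bar (S.form j)) * b (X.bar (S.form i))) := fun i j =>
    odd_anti (hb2 i) (hb2 j) (by decide) (by decide)
  have c11 : ∀ i j z, io S i (S.form j * z) = (if i = j then z else 0) - S.form j * io S i z := by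
    intro i j z
    have := LinearMap.congr_fun (io_tt S i j) z
    rw [eq_sub_iff_add_eq]
    change io S i (S.form j * z) + S.form j * io S i z = _ at this
    rw [this]
    split_ifs <;> rfl
  have c12 : ∀ i j z, io S i (X.bar (S.form j) * z) = -(X.bar (S.form j) * io S i z) :=
    fun i j z => LinearMap.congr_fun (io_tb S i j) z
  have c21 : ∀ i j z, ib S i (S.form j * z) = -(S.form j * ib S i z) :=
    fun i j z => LinearMap.congr_fun (ib_tt S i j) z
  have c22 : ∀ i j z, ib S i (X.bar (S.form j) * z) =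
      (if i = j then z else 0) - X.bar (S.form j) * ib S i z := by
    intro i j z
    have := LinearMap.congr_fun (ib_tb S i j) z
    rw [eq_sub_iff_add_eq]
    change ib S i (X.bar (S.form j) * z) + X.bar (S.form j) * ib S i z = _ at this
    rw [this]
    split_ifs <;> rfl
  induction k with
  | zero =>
    have e1 : Gt S b u (0 + 1) = stepE S b u := by
      have := Gt_succ (S := S) (b := b) (u := u) 0
      rw [Nat.cast_zero, zero_add, one_smul] at this
      exact this
    constructor
    · intro j z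
      rw [e1, stepE_apply, Gt, Finset.sum_eq_single j]
      · rw [c11, c21, if_pos rfl, map_sub, map_neg, hu1, hu1, sub_zero, neg_zero, mul_zero,
          add_zero]
      · intro i _ hi
        rw [c11, c21, if_neg hi, zero_sub, map_neg, map_neg, hu1, hu1, neg_zero, mul_zero,
          mul_zero, add_zero]
      · intro h
        exact absurd (Finset.mem_univ j) h
    · intro j z
      rw [e1, stepE_apply, Gt, Finset.sum_eq_single j]
      · rw [c12, c22, if_pos rfl, map_sub, map_neg, hu2, hu2, sub_zero, neg_zero, mul_zero,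
          zero_add]
      · intro i _ hi
        rw [c12, c22, if_neg hi, zero_sub, map_neg, map_neg, hu2, hu2, neg_zero, mul_zero,
          mul_zero, add_zero]
      · intro h
        exact absurd (Finset.mem_univ j) h
  | succ k ih =>
    obtain ⟨i1, i2⟩ := ih
    have hk : ((k : ℂ) + 1 + 1) ≠ 0 := by
      have : ((k + 1 : ℕ) : ℂ) + 1 ≠ 0 := Nat.cast_add_one_ne_zero (k + 1)
      push_cast at this
      exact this
    have hs := Gt_succ (S := S) (b := b) (u := u) (k + 1)
    push_cast at hs
    constructor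
    · intro j z
      have h1 := LinearMap.congr_fun hs (S.form j * z)
      rw [LinearMap.smul_apply, stepE_apply] at h1
      have h2 : ∑ i, (b (S.form i) * Gt S b u (k + 1) (io S i (S.form j * z)) +
          b (X.bar (S.form i)) * Gt S b u (k + 1) (ib S i (S.form j * z))) =
          b (S.form j) * Gt S b u (k + 1) z + b (S.form j) * stepE S b (Gt S b u k) z := by
        rw [stepE_apply, Finset.mul_sum]
        have e : ∀ i, b (S.form i) * Gt S b u (k + 1) (io S i (S.form j * z)) +
            b (X.bar (S.form i)) * Gt S b u (k + 1) (ib S i (S.form j * z)) =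
            (if i = j then b (S.form j) * Gt S b u (k + 1) z else 0) +
              b (S.form j) * (b (S.form i) * Gt S b u k (io S i z) +
                b (X.bar (S.form i)) * Gt S b u k (ib S i z)) := by
          intro i
          rw [c11, c21, map_sub, map_neg, i1, i1, mul_sub, mul_neg, ← mul_assoc, o11 i j,
            ← mul_assoc (b (X.bar (S.form i))), o21 i j]
          split_ifs with h
          · rw [h]
            noncomm_ring
          · rw [map_zero]
            noncomm_ring
        rw [Finset.sum_congr rfl fun i _ => e i, Finset.sum_add_distrib, Finset.sum_ite_eq' ,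
          if_pos (Finset.mem_univ j)]
      rw [h2, ← Gt_succ, LinearMap.smul_apply, mul_smul_comm] at h1
      have h3 : ((k : ℂ) + 1 + 1) • Gt S b u (k + 1 + 1) (S.form j * z) =
          ((k : ℂ) + 1 + 1) • (b (S.form j) * Gt S b u (k + 1) z) := by
        rw [h1, add_smul ((k : ℂ) + 1) 1, one_smul, add_comm]
      have h4 := congrArg (fun w => ((k : ℂ) + 1 + 1)⁻¹ • w) h3
      simp only [smul_smul, inv_mul_cancel₀ hk, one_smul] at h4
      exact h4
    · intro j z
      have h1 := LinearMap.congr_fun hs (X.bar (S.form j) * z)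
      rw [LinearMap.smul_apply, stepE_apply] at h1
      have h2 : ∑ i, (b (S.form i) * Gt S b u (k + 1) (io S i (X.bar (S.form j) * z)) +
          b (X.bar (S.form i)) * Gt S b u (k + 1) (ib S i (X.bar (S.form j) * z))) =
          b (X.bar (S.form j)) * Gt S b u (k + 1) z +
            b (X.bar (S.form j)) * stepE S b (Gt S b u k) z := by
        rw [stepE_apply, Finset.mul_sum]
        have e : ∀ i, b (S.form i) * Gt S b u (k + 1) (io S i (X.bar (S.form j) * z)) +
            b (X.bar (S.form i)) * Gt S b u (k + 1) (ib S i (X.bar (S.form j) * z)) =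
            (if i = j then b (X.bar (S.form j)) * Gt S b u (k + 1) z else 0) +
              b (X.bar (S.form j)) * (b (S.form i) * Gt S b u k (io S i z) +
                b (X.bar (S.form i)) * Gt S b u k (ib S i z)) := by
          intro i
          rw [c12, c22, map_sub, map_neg, i2, i2, mul_sub, mul_neg, ← mul_assoc, o12 i j,
            ← mul_assoc (b (X.bar (S.form i))), o22 i j]
          split_ifs with h
          · rw [h]
            noncomm_ring
          · rw [map_zero]
            noncomm_ring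
        rw [Finset.sum_congr rfl fun i _ => e i, Finset.sum_add_distrib, Finset.sum_ite_eq',
          if_pos (Finset.mem_univ j)]
      rw [h2, ← Gt_succ, LinearMap.smul_apply, mul_smul_comm] at h1
      have h3 : ((k : ℂ) + 1 + 1) • Gt S b u (k + 1 + 1) (X.bar (S.form j) * z) =
          ((k : ℂ) + 1 + 1) • (b (X.bar (S.form j)) * Gt S b u (k + 1) z) := by
        rw [h1, add_smul ((k : ℂ) + 1) 1, one_smul, add_comm]
      have h4 := congrArg (fun w => ((k : ℂ) + 1 + 1)⁻¹ • w) h3
      simp only [smul_smul, inv_mul_cancel₀ hk, one_smul] at h4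
      exact h4

theorem part_shift {f : X.R →ₗ[ℂ] X.R} {r s e : ℤ} (hrs : r + s = e)
    (hf : ∀ (p q : ℤ) (x : X.R), x ∈ X.H (p, q) → f x ∈ X.H (p + r, q + s)) (d : ℤ) (z : X.R) :
    f (part X {d} z) = part X {d + e} (f z) := by
  have key : f ∘ₗ part X {d} = part X {d + e} ∘ₗ f := by
    refine hom_ext' X fun p q x hx => ?_
    rw [LinearMap.comp_apply, LinearMap.comp_apply]
    by_cases h : p + q = d
    · rw [part_in X hx (by simpa using h), part_in X (hf p q x hx) (by
        rw [Set.mem_singleton_iff]; omega)]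
    · rw [part_out X hx (by simpa using h), map_zero, part_out X (hf p q x hx) (by
        rw [Set.mem_singleton_iff]; omega)]
  exact LinearMap.congr_fun key z

theorem Gt_part (hb1 : ∀ j, b (S.form j) ∈ Y.H (1, 0)) (hb2 : ∀ j, b (X.bar (S.form j)) ∈ Y.H (0, 1))
    (hud : ∀ d z, u (part X {d} z) = part Y {d} (u z)) (k : ℕ) :
    ∀ (d : ℤ) (z : X.R), Gt S b u k (part X {d} z) = part Y {d} (Gt S b u k z) := by
  induction k with
  | zero => exact hud
  | succ k ih =>
    intro d z
    rw [Gt, LinearMap.smul_apply, LinearMap.smul_apply, map_smul, stepE_apply, stepE_apply, map_sum]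
    congr 1
    refine Finset.sum_congr rfl fun j _ => ?_
    have e1 := part_shift (e := -1) (by norm_num) (io_type S j) d z
    have e2 := part_shift (e := -1) (by norm_num) (ib_type S j) d z
    have e3 : ∀ (v : Y.R) (r s : ℤ) (w : Y.R), v ∈ Y.H (r, s) → r + s = 1 →
        v * part Y {d + -1} w = part Y {d} (v * w) := by
      intro v r s w hv hrs
      have := part_shift (X := Y) (f := LinearMap.mulLeft ℂ v) hrs (fun p q x hx => by
        have := Y.mul_mem hv hx
        rwa [add_comm r p, add_comm s q] at this) (d + -1) w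
      rw [neg_add_cancel_right] at this
      exact this
    rw [e1, e2, ih, ih, map_add, e3 _ 1 0 _ (hb1 j) (by norm_num), e3 _ 0 1 _ (hb2 j) (by norm_num)]

/-- **Extension.** -/
theorem exists_ext (A : AddSubgroup (X.R →ₗ[ℂ] Y.R))
    (hrat : ∀ (q : ℚ), ∀ f ∈ A, (q : ℂ) • f ∈ A)
    (hE : ∀ f ∈ A, stepE S b f ∈ A) (hu : u ∈ A)
    (hb1 : ∀ j, b (S.form j) ∈ Y.H (1, 0)) (hb2 : ∀ j, b (X.bar (S.form j)) ∈ Y.H (0, 1))
    (hu1 : ∀ j z, u (S.form j * z) = 0) (hu2 : ∀ j z, u (X.bar (S.form j) * z) = 0)
    (hud : ∀ d z, u (part X {d} z) = part Y {d} (u z)) :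
    ∃ G ∈ A, (∀ z ∈ PP S, G z = u z) ∧ (∀ j z, G (S.form j * z) = b (S.form j) * G z) ∧
      (∀ j z, G (X.bar (S.form j) * z) = b (X.bar (S.form j)) * G z) ∧
      ∀ d z, G (part X {d} z) = part Y {d} (G z) := by
  have hm := fun k => Gt_mul hb1 hb2 hu1 hu2 (S := S) (b := b) (u := u) k
  refine ⟨∑ k ∈ Finset.range (2 * n + 1), Gt S b u k,
    A.sum_mem fun k _ => Gt_mem hrat hE hu k, fun z hz => ?_, fun j z => ?_, fun j z => ?_,
    fun d z => ?_⟩
  · rw [LinearMap.sum_apply, Finset.sum_range_succ', Finset.sum_eq_zero, zero_add]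
    · rfl
    · exact fun k _ => Gt_PP hz k
  · have h0 : Gt S b u (2 * n + 1) z = 0 := by rw [Gt_top]; rfl
    have h1 : Gt S b u 0 (S.form j * z) = 0 := hu1 j z
    rw [LinearMap.sum_apply, LinearMap.sum_apply, Finset.sum_range_succ', h1, add_zero,
      Finset.mul_sum]
    have h2 : ∑ k ∈ Finset.range (2 * n), Gt S b u (k + 1) (S.form j * z) =
        ∑ k ∈ Finset.range (2 * n), b (S.form j) * Gt S b u k z :=
      Finset.sum_congr rfl fun k _ => (hm k).1 j z
    rw [h2, Finset.sum_range_succ, ← (hm (2 * n)).1, Gt_top, LinearMap.zero_apply, add_zero]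
  · have h1 : Gt S b u 0 (X.bar (S.form j) * z) = 0 := hu2 j z
    rw [LinearMap.sum_apply, LinearMap.sum_apply, Finset.sum_range_succ', h1, add_zero,
      Finset.mul_sum]
    have h2 : ∑ k ∈ Finset.range (2 * n), Gt S b u (k + 1) (X.bar (S.form j) * z) =
        ∑ k ∈ Finset.range (2 * n), b (X.bar (S.form j)) * Gt S b u k z :=
      Finset.sum_congr rfl fun k _ => (hm k).2 j z
    rw [h2, Finset.sum_range_succ, ← (hm (2 * n)).2, Gt_top, LinearMap.zero_apply, add_zero]
  · rw [LinearMap.sum_apply, LinearMap.sum_apply, map_sum]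
    exact Finset.sum_congr rfl fun k _ => Gt_part hb1 hb2 hud k d z

end Ext

end Pool.Agent.Helper86.Orl
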