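import Pool.Agent.Helper86.Orl.Deg1

/-!
# Motives of derived equivalent varieties with an action of an abelian variety
-/

set_option autoImplicit false

open scoped ComplexConjugate
open Module Pool.Agent.W539.DI Pool.Agent.Helper30.DI Pool.Agent.Q8.OM

namespace Pool.Agent.Helper86.Orl

section Gen

variable {n a : ℕ} {X Y : KRing n} (S : AbelianSymmetry X a) (S' : AbelianSymmetry Y a)

/-- two extensions are inverse to each other -/
theorem comp_id {b : X.R →ₗ[ℂ] Y.R} {b' : Y.R →ₗ[ℂ] X.R} (hb : WI S S' b)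
    (hbb : ∀ k, b' (b (S.form k)) = S.form k)
    (hbb' : ∀ k, b' (b (X.bar (S.form k))) = X.bar (S.form k))
    {G : X.R →ₗ[ℂ] Y.R} {G' : Y.R →ₗ[ℂ] X.R}
    (h1 : ∀ j z, G (S.form j * z) = b (S.form j) * G z)
    (h2 : ∀ j z, G (X.bar (S.form j) * z) = b (X.bar (S.form j)) * G z)
    (h1' : ∀ j z, G' (S'.form j * z) = b' (S'.form j) * G' z)
    (h2' : ∀ j z, G' (Y.bar (S'.form j) * z) = b' (Y.bar (S'.form j)) * G' z)
    (h0 : ∀ z ∈ PP S, G' (G z) = z) : G' ∘ₗ G = LinearMap.id := by
  have s1 : ∀ v ∈ Submodule.span ℂ (Set.range S'.form), ∀ z, G' (v * z) = b' v * G' z := by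
    intro v hv z
    induction hv using Submodule.span_induction with
    | mem x hx =>
      obtain ⟨k, rfl⟩ := hx
      exact h1' k z
    | zero => rw [zero_mul, map_zero, map_zero, zero_mul]
    | add x y _ _ hx hy => rw [add_mul, map_add, hx, hy, map_add, add_mul]
    | smul c x _ hx => rw [smul_mul_assoc, map_smul, hx, map_smul, smul_mul_assoc]
  have s2 : ∀ v ∈ Submodule.span ℂ (Set.range fun k => Y.bar (S'.form k)), ∀ z,
      G' (v * z) = b' v * G' z := by
    intro v hv z
    induction hv using Submodule.span_induction with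
    | mem x hx =>
      obtain ⟨k, rfl⟩ := hx
      exact h2' k z
    | zero => rw [zero_mul, map_zero, map_zero, zero_mul]
    | add x y _ _ hx hy => rw [add_mul, map_add, hx, hy, map_add, add_mul]
    | smul c x _ hx => rw [smul_mul_assoc, map_smul, hx, map_smul, smul_mul_assoc]
  have h := gen S (LinearMap.eqLocus (G' ∘ₗ G) LinearMap.id) (fun z hz => h0 z hz)
    (fun j z hz => by
      rw [LinearMap.mem_eqLocus] at hz ⊢
      change G' (G (S.form j * z)) = S.form j * z
      have hz' : G' (G z) = z := hz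
      rw [h1, s1 _ (hb.f j), hbb, hz'])
    (fun j z hz => by
      rw [LinearMap.mem_eqLocus] at hz ⊢
      change G' (G (X.bar (S.form j) * z)) = X.bar (S.form j) * z
      have hz' : G' (G z) = z := hz
      rw [h2, s2 _ (hb.g j), hbb', hz'])
  ext z
  have : z ∈ LinearMap.eqLocus (G' ∘ₗ G) LinearMap.id := by rw [h]; trivial
  exact this

theorem WI.mem1 {b : X.R →ₗ[ℂ] Y.R} (hb : WI S S' b) (k : Fin a) : b (S.form k) ∈ Y.H (1, 0) := by
  refine (Submodule.span_le.mpr ?_) (hb.f k)
  rintro _ ⟨l, rfl⟩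
  exact S'.form_mem l

theorem WI.mem2 {b : X.R →ₗ[ℂ] Y.R} (hb : WI S S' b) (k : Fin a) :
    b (X.bar (S.form k)) ∈ Y.H (0, 1) := by
  refine (Submodule.span_le.mpr ?_) (hb.g k)
  rintro _ ⟨l, rfl⟩
  exact Y.bar_mem _ _ _ (S'.form_mem l)

end Gen

section Thy

variable {m a : ℕ} {ι : Type} {T : Theory (m + a) ι} {C : Act T} {i j : ι}

theorem J_form {κ : Type} {e : κ → ι} (R : Scal C e) (k : κ) (l : Fin a) (z : (T.X (e k)).R) :
    J R k ((C.S (e k)).form l * z) = 0 := by
  apply I_inj R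
  rw [IJ_apply, map_zero, pj_tt]

theorem J_bform {κ : Type} {e : κ → ι} (R : Scal C e) (k : κ) (l : Fin a) (z : (T.X (e k)).R) :
    J R k ((T.X (e k)).bar ((C.S (e k)).form l) * z) = 0 := by
  apply I_inj R
  rw [IJ_apply, map_zero, pj_tb]

theorem lft_part {κ : Type} {e : κ → ι} (R : Scal C e) {k l : κ}
    {f : (PX R k).R →ₗ[ℂ] (PX R l).R}
    (hf : ∀ d : ℤ, f ∘ₗ part (PX R k) {d} = part (PX R l) {d} ∘ₗ f) (d : ℤ)
    (z : (T.X (e k)).R) :
    lft R f (part (T.X (e k)) {d} z) = part (T.X (e l)) {d} (lft R f z) := by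
  have e1 : J R k (part (T.X (e k)) {d} z) = part (PX R k) {d} (J R k z) := by
    apply I_inj R
    rw [IJ_apply, pj_part]
    exact (inc_part {d} (J R k z)).symm
  rw [lft_apply, e1]
  have e2 := LinearMap.congr_fun (hf d) (J R k z)
  rw [LinearMap.comp_apply, LinearMap.comp_apply] at e2
  rw [e2]
  exact inc_part {d} _

theorem isoMotives_aux (h : C.Equiv i j) (R : Scal C (fun b : Bool => cond b i j))
    (f : (PX R true).R →ₗ[ℂ] (PX R false).R) (hf : f ∈ PAg R true false)
    (g : (PX R false).R →ₗ[ℂ] (PX R true).R) (hg : g ∈ PAg R false true)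
    (k1 : ∀ x, g (f x) = x) (k2 : ∀ x, f (g x) = x)
    (k3 : ∀ d : ℤ, f ∘ₗ part (PX R true) {d} = part (PX R false) {d} ∘ₗ f)
    (k4 : ∀ d : ℤ, g ∘ₗ part (PX R false) {d} = part (PX R true) {d} ∘ₗ g) :
    T.IsoMotives i j := by
  obtain ⟨b, hb, b', hb', w1, w2, r1, r2, r3, r4⟩ := exists_b h
  let F : (T.X i).R →ₗ[ℂ] (T.X j).R := lft R (k := true) (l := false) f
  let F' : (T.X j).R →ₗ[ℂ] (T.X i).R := lft R (k := false) (l := true) g
  have hF : F ∈ T.A i j := hf
  have hF' : F' ∈ T.A j i := hg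
  obtain ⟨G, hG, G0, G1, G2, G3⟩ := exists_ext (S := C.S i) (b := b)
    (u := F) (T.A i j) (fun q f hf => T.rat _ _ q f hf)
    (fun f hf => C.act i j b hb f hf) hF (w1.mem1 (C.S i) (C.S j)) (w1.mem2 (C.S i) (C.S j))
    (fun l z => by
      have e : J R true ((C.S i).form l * z) = 0 := J_form R true l z
      change I R false (f (J R true ((C.S i).form l * z))) = 0
      rw [e, map_zero, map_zero])
    (fun l z => by
      have e : J R true ((T.X i).bar ((C.S i).form l) * z) = 0 := J_bform R true l z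
      change I R false (f (J R true ((T.X i).bar ((C.S i).form l) * z))) = 0
      rw [e, map_zero, map_zero])
    (fun d z => lft_part R (k := true) (l := false) k3 d z)
  obtain ⟨G', hG', G0', G1', G2', G3'⟩ := exists_ext (S := C.S j) (b := b')
    (u := F') (T.A j i) (fun q f hf => T.rat _ _ q f hf)
    (fun f hf => C.act j i b' hb' f hf) hF' (w2.mem1 (C.S j) (C.S i)) (w2.mem2 (C.S j) (C.S i))
    (fun l z => by
      have e : J R false ((C.S j).form l * z) = 0 := J_form R false l z
      change I R true (g (J R false ((C.S j).form l * z))) = 0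
      rw [e, map_zero, map_zero])
    (fun l z => by
      have e : J R false ((T.X j).bar ((C.S j).form l) * z) = 0 := J_bform R false l z
      change I R true (g (J R false ((T.X j).bar ((C.S j).form l) * z))) = 0
      rw [e, map_zero, map_zero])
    (fun d z => lft_part R (k := false) (l := true) k4 d z)
  have FF : ∀ z, F' (F z) = pj (C.S i) z := by
    intro z
    change I R true (g (J R false (I R false (f (J R true z))))) = pj (C.S i) z
    rw [JI_apply, k1]
    rfl
  have FF' : ∀ z, F (F' z) = pj (C.S j) z := by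
    intro z
    change I R false (f (J R true (I R true (g (J R false z))))) = pj (C.S j) z
    rw [JI_apply, k2]
    rfl
  have z1 : ∀ z ∈ PP (C.S i), G' (G z) = z := by
    intro z hz
    have e1 : G z ∈ PP (C.S j) := by
      rw [G0 z hz]
      exact I_PP R (k := false) _
    rw [G0' _ e1, G0 z hz, FF, pj_of _ hz]
  have z2 : ∀ z ∈ PP (C.S j), G (G' z) = z := by
    intro z hz
    have e1 : G' z ∈ PP (C.S i) := by
      rw [G0' z hz]
      exact I_PP R (k := true) _
    rw [G0 _ e1, G0' z hz, FF', pj_of _ hz]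
  exact ⟨G, hG, G', hG', comp_id (C.S i) (C.S j) w1 r1 r2 G1 G2 G1' G2' z1,
    comp_id (C.S j) (C.S i) w2 r3 r4 G1' G2' G1 G2 z2, fun d => LinearMap.ext (G3 d)⟩

/-- **From the killed classes to the whole motives.** -/
theorem Act.Equiv.isoMotives_of (h : C.Equiv i j) (R : Scal C (fun b : Bool => cond b i j))
    (hP : (PT R).IsoMotives true false) : T.IsoMotives i j := by
  obtain ⟨f, hf, g, hg, k1, k2, k3, k4⟩ := hP.both
  exact isoMotives_aux h R f hf g hg (LinearMap.congr_fun k1) (LinearMap.congr_fun k2) k3 k4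

/-- the killed parts in the degree `d` are isomorphic -/
def Act.IsoKilled (C : Act T) (i j : ι) (d : ℤ) : Prop :=
  ∃ f ∈ T.A i j, ∃ g ∈ T.A j i, g ∘ₗ f = part (T.X i) {d} ∘ₗ pj (C.S i) ∧
    f ∘ₗ g = part (T.X j) {d} ∘ₗ pj (C.S j)

theorem Act.IsoKilled.iso {d : ℤ} (h : C.IsoKilled i j d)
    (R : Scal C (fun b : Bool => cond b i j)) : (PT R).Iso true {d} false {d} := by
  obtain ⟨f, hf, g, hg, h1, h2⟩ := h
  let IX : (PX R true).R →ₗ[ℂ] (T.X i).R := I R true
  let IY : (PX R false).R →ₗ[ℂ] (T.X j).R := I R false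
  have h1' : ∀ x, g (f x) = part (T.X i) {d} (pj (C.S i) x) := LinearMap.congr_fun h1
  have h2' : ∀ x, f (g x) = part (T.X j) {d} (pj (C.S j) x) := LinearMap.congr_fun h2
  let ei : (T.X i).R →ₗ[ℂ] (T.X i).R := part (T.X i) {d} ∘ₗ pj (C.S i)
  let ej : (T.X j).R →ₗ[ℂ] (T.X j).R := part (T.X j) {d} ∘ₗ pj (C.S j)
  have mei : ei ∈ T.A i i := T.comp _ _ _ _ _ (C.pj_mem i) (T.part_mem _ _)
  have mej : ej ∈ T.A j j := T.comp _ _ _ _ _ (C.pj_mem j) (T.part_mem _ _)
  have pi : ∀ x, pj (C.S i) (ei x) = ei x := by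
    intro x
    change pj (C.S i) (part (T.X i) {d} (pj (C.S i) x)) = part (T.X i) {d} (pj (C.S i) x)
    rw [pj_part, pj_pj]
  have pj' : ∀ x, pj (C.S j) (ej x) = ej x := by
    intro x
    change pj (C.S j) (part (T.X j) {d} (pj (C.S j) x)) = part (T.X j) {d} (pj (C.S j) x)
    rw [pj_part, pj_pj]
  have ii : ∀ x, ei (ei x) = ei x := by
    intro x
    change part (T.X i) {d} (pj (C.S i) (ei x)) = ei x
    rw [pi]
    exact LinearMap.congr_fun (part_idem (T.X i) {d}) _
  have jj : ∀ x, ej (ej x) = ej x := by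
    intro x
    change part (T.X j) {d} (pj (C.S j) (ej x)) = ej x
    rw [pj']
    exact LinearMap.congr_fun (part_idem (T.X j) {d}) _
  have gf : ∀ x, g (f x) = ei x := h1'
  have fg : ∀ x, f (g x) = ej x := h2'
  have fei : ∀ x, f (ei x) = ej (f x) := fun x => by rw [← gf, fg]
  have gej : ∀ x, g (ej x) = ei (g x) := fun x => by rw [← fg, gf]
  let F : (PX R true).R →ₗ[ℂ] (PX R false).R := dsc R (k := true) (l := false) (ej ∘ₗ f)
  let G : (PX R false).R →ₗ[ℂ] (PX R true).R := dsc R (k := false) (l := true) (ei ∘ₗ g)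
  have IF : ∀ x, IY (F x) = pj (C.S j) (ej (f (IX x))) := fun x => rfl
  have IG : ∀ x, IX (G x) = pj (C.S i) (ei (g (IY x))) := fun x => rfl
  have q1 : ∀ x : (PX R true).R, G (F x) = part (PX R true) {d} x := by
    intro x
    have : IX (G (F x)) = IX (part (PX R true) {d} x) := by
      have e : IX (part (PX R true) {d} x) = part (T.X i) {d} (IX x) := inc_part {d} x
      have hxP : pj (C.S i) (IX x) = IX x := pj_of _ (I_PP R (k := true) x)
      rw [IG, IF, pj', pi, gej, ii, gf, ii, e]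
      change part (T.X i) {d} (pj (C.S i) (IX x)) = _
      rw [hxP]
    exact I_inj R this
  have q2 : ∀ x : (PX R false).R, F (G x) = part (PX R false) {d} x := by
    intro x
    have : IY (F (G x)) = IY (part (PX R false) {d} x) := by
      have e : IY (part (PX R false) {d} x) = part (T.X j) {d} (IY x) := inc_part {d} x
      have hxP : pj (C.S j) (IY x) = IY x := pj_of _ (I_PP R (k := false) x)
      rw [IF, IG, pi, pj', fei, jj, fg, jj, e]
      change part (T.X j) {d} (pj (C.S j) (IY x)) = _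
      rw [hxP]
    exact I_inj R this
  exact ⟨F, dsc_mem R (T.comp _ _ _ _ _ hf mej), G, dsc_mem R (T.comp _ _ _ _ _ hg mei),
    LinearMap.ext q1, LinearMap.ext q2⟩

/-- **Motives of derived equivalent varieties with an action of an abelian variety.** -/
theorem Act.Equiv.isoMotives (h : C.Equiv i j)
    (hl : ∀ d : ℤ, 2 ≤ d → d + 3 ≤ m → C.IsoKilled i j d) : T.IsoMotives i j := by
  obtain ⟨R, hR⟩ := h.killed
  refine h.isoMotives_of R (hR.isoMotives fun d h1 h2 => ?_)
  by_cases hd : d = 1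
  · rw [hd]
    exact P1_iso R h
  · exact (hl d (by omega) h2).iso R

end Thy

end Pool.Agent.Helper86.Orl
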