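import Pool.Agent.Helper86.Orl.Kl

/-!
# A generic twist
-/

set_option autoImplicit false

open scoped ComplexConjugate
open Module Pool.Agent.W539.DI Pool.Agent.Helper30.DI Pool.Agent.Q8.OM

namespace Pool.Agent.Helper86.Orl

/-- a polynomial matrix which is invertible at `i` is invertible at a rational number -/
theorem exists_rat {N : ℕ} (M0 M1 M2 : Matrix (Fin N) (Fin N) ℂ)
    (h : (M0 + Complex.I • M1 + (Complex.I ^ 2) • M2).det ≠ 0) :
    ∃ t : ℚ, (M0 + (t : ℂ) • M1 + ((t : ℂ) ^ 2) • M2).det ≠ 0 := by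
  let P : Matrix (Fin N) (Fin N) (Polynomial ℂ) :=
    M0.map Polynomial.C + (Polynomial.X : Polynomial ℂ) • M1.map Polynomial.C +
      ((Polynomial.X : Polynomial ℂ) ^ 2) • M2.map Polynomial.C
  have hP : ∀ t : ℂ, P.det.eval t = (M0 + t • M1 + (t ^ 2) • M2).det := by
    intro t
    have h1 := RingHom.map_det (Polynomial.evalRingHom t) P
    change P.det.eval t = _ at h1
    rw [h1]
    congr 1
    ext i j
    simp [P]
    ring
  have hP0 : P.det ≠ 0 := by
    intro h0
    apply h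
    rw [← hP, h0, Polynomial.eval_zero]
  by_contra hcon
  push Not at hcon
  refine hP0 (Polynomial.eq_zero_of_infinite_isRoot _ ?_)
  refine Set.Infinite.mono (s := Set.range fun q : ℚ => (q : ℂ)) ?_
    (Set.infinite_range_of_injective Rat.cast_injective)
  rintro _ ⟨q, rfl⟩
  change P.det.eval (q : ℂ) = 0
  rw [hP, hcon q]

variable {n a : ℕ} {X Y : KRing n}

/-- the operators `∑ b_k ι_k + β`, with `β` of type `(0, 1)` -/
def InV (S : AbelianSymmetry X a) (z : Module.End ℂ X.R) : Prop :=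
  ∃ (b : Fin a → ℂ) (β : X.R), β ∈ X.H (0, 1) ∧ z = ic S b + LinearMap.mulLeft ℂ β

theorem ic_single (S : AbelianSymmetry X a) (k : Fin a) : ic S (Pi.single k 1) = io S k := by
  unfold ic
  rw [Finset.sum_eq_single k]
  · rw [Pi.single_eq_same, one_smul]
  · intro j _ hj
    rw [Pi.single_eq_of_ne hj, zero_smul]
  · intro h
    exact absurd (Finset.mem_univ k) h

theorem ic_add (S : AbelianSymmetry X a) (b c : Fin a → ℂ) : ic S (b + c) = ic S b + ic S c := by
  unfold ic
  rw [← Finset.sum_add_distrib]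
  exact Finset.sum_congr rfl fun k _ => by rw [Pi.add_apply, add_smul]

theorem ic_smul (S : AbelianSymmetry X a) (t : ℂ) (b : Fin a → ℂ) : ic S (t • b) = t • ic S b := by
  unfold ic
  rw [Finset.smul_sum]
  exact Finset.sum_congr rfl fun k _ => by rw [Pi.smul_apply, smul_smul, smul_eq_mul]

theorem ic_zero (S : AbelianSymmetry X a) : ic S (0 : Fin a → ℂ) = 0 := by
  unfold ic
  exact Finset.sum_eq_zero fun k _ => by rw [Pi.zero_apply, zero_smul]

theorem mulLeft_add' (x y : X.R) : (LinearMap.mulLeft ℂ (x + y) : Module.End ℂ X.R) =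
    LinearMap.mulLeft ℂ x + LinearMap.mulLeft ℂ y := by
  ext z
  change (x + y) * z = x * z + y * z
  rw [add_mul]

theorem mulLeft_smul' (c : ℂ) (x : X.R) : (LinearMap.mulLeft ℂ (c • x) : Module.End ℂ X.R) =
    c • LinearMap.mulLeft ℂ x := by
  ext z
  change (c • x) * z = c • (x * z)
  rw [smul_mul_assoc]

theorem mulLeft_zero' : (LinearMap.mulLeft ℂ (0 : X.R) : Module.End ℂ X.R) = 0 := by
  ext z
  change (0 : X.R) * z = 0
  rw [zero_mul]

theorem InV.add {S : AbelianSymmetry X a} {z w : Module.End ℂ X.R} (hz : InV S z) (hw : InV S w) :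
    InV S (z + w) := by
  obtain ⟨b, β, hβ, rfl⟩ := hz
  obtain ⟨c, γ, hγ, rfl⟩ := hw
  refine ⟨b + c, β + γ, Submodule.add_mem _ hβ hγ, ?_⟩
  rw [ic_add, mulLeft_add']
  abel

theorem InV.smul {S : AbelianSymmetry X a} {z : Module.End ℂ X.R} (t : ℂ) (hz : InV S z) :
    InV S (t • z) := by
  obtain ⟨b, β, hβ, rfl⟩ := hz
  exact ⟨t • b, t • β, Submodule.smul_mem _ _ hβ, by rw [ic_smul, mulLeft_smul', smul_add]⟩

theorem InV_ic (S : AbelianSymmetry X a) (b : Fin a → ℂ) : InV S (ic S b) :=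
  ⟨b, 0, Submodule.zero_mem _, by rw [mulLeft_zero', add_zero]⟩

theorem InV_io (S : AbelianSymmetry X a) (k : Fin a) : InV S (io S k) := by
  rw [← ic_single]
  exact InV_ic S _

theorem InV_mul (S : AbelianSymmetry X a) {β : X.R} (hβ : β ∈ X.H (0, 1)) :
    InV S (LinearMap.mulLeft ℂ β) := ⟨0, β, hβ, by rw [ic_zero, zero_add]⟩

/-- the hermitian form of an operator -/
theorem herm_form (S : AbelianSymmetry X a) (b : Fin a → ℂ) {β : X.R} (hβ : β ∈ X.H (0, 1)) :
    (ic S b + LinearMap.mulLeft ℂ β) * cj (ic S b + LinearMap.mulLeft ℂ β) +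
      cj (ic S b + LinearMap.mulLeft ℂ β) * (ic S b + LinearMap.mulLeft ℂ β) =
      LinearMap.mulLeft ℂ (ic S b (X.bar β) + cj (ic S b) β) := by
  have h1 := ic_odd S b (X.bar_mem _ _ _ hβ) (by decide)
  have h2 := icb_odd S b hβ (by decide)
  have h3 := ic_icb S b b
  have h4 : (LinearMap.mulLeft ℂ β * LinearMap.mulLeft ℂ (X.bar β) : Module.End ℂ X.R) =
      -(LinearMap.mulLeft ℂ (X.bar β) * LinearMap.mulLeft ℂ β) := by
    rw [← mulLeft_mul', odd_anti hβ (X.bar_mem _ _ _ hβ) (by decide) (by decide), ← mulLeft_mul']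
    ext x
    simp [mul_assoc]
  rw [cj_add, cj_mulLeft, mulLeft_add', ← h1, ← h2]
  simp only [add_mul, mul_add]
  rw [h3, h4]
  abel

theorem sc_zero {x : X.R} (hx : x ∈ X.H (0, 0)) (h : sc X x = 0) : x = 0 := by
  rw [← sc_spec hx, h, zero_smul]

/-- the twist -/
noncomputable def tw (φ : X.R →ₗ[ℂ] Y.R) (t : ℂ) : X.R →ₗ[ℂ] Y.R :=
  LinearMap.mulLeft ℂ (ex Y (-t)) ∘ₗ φ ∘ₗ LinearMap.mulLeft ℂ (ex X (-t))

theorem tw_apply (φ : X.R →ₗ[ℂ] Y.R) (t : ℂ) (x : X.R) :
    tw φ t x = ex Y (-t) * φ (ex X (-t) * x) := rfl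

variable {φ : X.R →ₗ[ℂ] Y.R} {ψ : Y.R →ₗ[ℂ] X.R}

theorem tw_tw (h : ∀ x, ψ (φ x) = x) (t : ℂ) (x : X.R) : tw ψ (-t) (tw φ t x) = x := by
  rw [tw_apply, tw_apply, neg_neg, ← mul_assoc, ex_neg', one_mul, h, ← mul_assoc, ex_neg', one_mul]

theorem tw_real (h : ∀ x, φ (X.bar x) = Y.bar (φ x)) (t : ℂ) (ht : conj t = t) (x : X.R) :
    tw φ t (X.bar x) = Y.bar (tw φ t x) := by
  rw [tw_apply, tw_apply, Y.bar_mul, ex_bar, map_neg, ht, ← h, X.bar_mul, ex_bar, map_neg, ht]

variable (S : AbelianSymmetry X a) (S' : AbelianSymmetry Y a)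

/-- conjugation of a contraction by the twist -/
theorem cg_tw {k : Fin a} {b b' : Fin a → ℂ} {β β' : X.R} (t : ℂ)
    (h1 : cg φ ψ (io S' k) = ic S b + LinearMap.mulLeft ℂ β)
    (h2 : cg φ ψ (LinearMap.mulLeft ℂ (io S' k Y.ω)) = ic S b' + LinearMap.mulLeft ℂ β') :
    cg (tw φ t) (tw ψ (-t)) (io S' k) = ic S (b - t • b') +
      LinearMap.mulLeft ℂ (β - t • β' - t • ic S (b - t • b') X.ω) := by
  have e1 : (LinearMap.mulLeft ℂ (ex Y t) * io S' k * LinearMap.mulLeft ℂ (ex Y (-t)) :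
      Module.End ℂ Y.R) = io S' k + (-t) • LinearMap.mulLeft ℂ (io S' k Y.ω) := by
    have := ex_ic S' (Pi.single k 1) (-t)
    rwa [ic_single, neg_neg] at this
  have e2 : cg (tw φ t) (tw ψ (-t)) (io S' k) = LinearMap.mulLeft ℂ (ex X t) *
      cg φ ψ (LinearMap.mulLeft ℂ (ex Y t) * io S' k * LinearMap.mulLeft ℂ (ex Y (-t))) *
        LinearMap.mulLeft ℂ (ex X (-t)) := by
    ext x
    rw [cg_apply, tw_apply, tw_apply, neg_neg]
    rfl
  have e3 : cg φ ψ (io S' k + (-t) • LinearMap.mulLeft ℂ (io S' k Y.ω)) =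
      ic S (b - t • b') + LinearMap.mulLeft ℂ (β - t • β') := by
    rw [cg_add, cg_smul, h1, h2, sub_eq_add_neg b, ← neg_smul, ic_add, ic_smul, sub_eq_add_neg β,
      ← neg_smul, mulLeft_add', mulLeft_smul', smul_add]
    abel
  have e4 := ex_ic S (b - t • b') (-t)
  have e5 := ex_mul_comm (X := X) (-t) (β - t • β')
  rw [neg_neg] at e4 e5
  rw [e2, e1, e3, mul_add, add_mul, e4, e5, sub_eq_add_neg _ (t • ic S (b - t • b') X.ω),
    ← neg_smul, mulLeft_add', mulLeft_smul']
  abel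

/-- **A generic twist.** -/
theorem exists_tw (hψφ : ∀ x, ψ (φ x) = x) (hφψ : ∀ y, φ (ψ y) = y)
    (hφ : ∀ x, φ (X.bar x) = Y.bar (φ x)) (hψ : ∀ y, ψ (Y.bar y) = X.bar (ψ y))
    (hR : ∀ z, InV S' z → InV S (cg φ ψ z)) :
    ∃ (t : ℚ) (C : Fin a → Fin a → ℂ), (Matrix.of C).det ≠ 0 ∧
      (∀ k l, cg (tw φ t) (tw ψ (-t)) (io S' k) * ib S l +
        ib S l * cg (tw φ t) (tw ψ (-t)) (io S' k) = C k l • 1) ∧
      ∀ k l, cg (tw φ t) (tw ψ (-t)) (io S' k) * io S l =
        -(io S l * cg (tw φ t) (tw ψ (-t)) (io S' k)) := by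
  choose B β hβ hB using fun k => hR _ (InV_io S' k)
  have hwm : ∀ k, io S' k Y.ω ∈ Y.H (0, 1) := fun k => io_type S' k _ _ _ Y.ω_mem
  choose B' β' hβ' hB' using fun k => hR _ (InV_mul S' (hwm k))
  have hγ : ∀ (b : Fin a → ℂ), ic S b X.ω ∈ X.H (0, 1) := fun b => ic_type S b _ _ _ X.ω_mem
  have hw : ∀ (t : ℂ) k, β k - t • β' k - t • ic S (B k - t • B' k) X.ω ∈ X.H (0, 1) := fun t k =>
    Submodule.sub_mem _ (Submodule.sub_mem _ (hβ k) (Submodule.smul_mem _ _ (hβ' k)))
      (Submodule.smul_mem _ _ (hγ _))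
  let M0 : Matrix (Fin a) (Fin a) ℂ := Matrix.of fun k l => sc X (ib S l (β k))
  let M1 : Matrix (Fin a) (Fin a) ℂ :=
    Matrix.of fun k l => -sc X (ib S l (β' k + ic S (B k) X.ω))
  let M2 : Matrix (Fin a) (Fin a) ℂ := Matrix.of fun k l => sc X (ib S l (ic S (B' k) X.ω))
  have hM : ∀ (t : ℂ) k l, (M0 + t • M1 + (t ^ 2) • M2) k l =
      sc X (ib S l (β k - t • β' k - t • ic S (B k - t • B' k) X.ω)) := by
    intro t k l
    have e : ic S (B k - t • B' k) X.ω = ic S (B k) X.ω - t • ic S (B' k) X.ω := by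
      rw [sub_eq_add_neg, ← neg_smul, ic_add, ic_smul, LinearMap.add_apply, LinearMap.smul_apply,
        neg_smul, ← sub_eq_add_neg]
    simp only [M0, M1, M2, Matrix.add_apply, Matrix.smul_apply, Matrix.of_apply, e, map_sub,
      map_add, map_smul, smul_eq_mul, smul_sub]
    ring
  have hI : (M0 + Complex.I • M1 + (Complex.I ^ 2) • M2).det ≠ 0 := by
    intro h0
    obtain ⟨c, hc0, hc⟩ := Matrix.exists_vecMul_eq_zero_iff.mpr h0
    set b : Fin a → ℂ := ∑ k, c k • (B k - Complex.I • B' k) with hb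
    set γ : X.R := ∑ k, c k • (β k - Complex.I • β' k) with hγd
    have hγm : γ ∈ X.H (0, 1) := Submodule.sum_mem _ fun k _ => Submodule.smul_mem _ _
      (Submodule.sub_mem _ (hβ k) (Submodule.smul_mem _ _ (hβ' k)))
    have icsum : ∀ (f : Fin a → Fin a → ℂ), ic S (∑ k, c k • f k) = ∑ k, c k • ic S (f k) := by
      intro f
      have : ∀ s : Finset (Fin a), ic S (∑ k ∈ s, c k • f k) = ∑ k ∈ s, c k • ic S (f k) := by
        intro s
        induction s using Finset.cons_induction with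
        | empty => rw [Finset.sum_empty, Finset.sum_empty, ic_zero]
        | cons j s hj ih => rw [Finset.sum_cons, Finset.sum_cons, ic_add, ic_smul, ih]
      exact this _
    have mlsum : ∀ (f : Fin a → X.R), (LinearMap.mulLeft ℂ (∑ k, c k • f k) : Module.End ℂ X.R) =
        ∑ k, c k • LinearMap.mulLeft ℂ (f k) := by
      intro f
      ext x
      rw [LinearMap.mulLeft_apply, Finset.sum_mul, LinearMap.sum_apply]
      exact Finset.sum_congr rfl fun k _ => by
        rw [smul_mul_assoc, LinearMap.smul_apply, LinearMap.mulLeft_apply]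
    have hl : ∀ l, ib S l γ = Complex.I • ib S l (ic S b X.ω) := by
      intro l
      have h1 : ∑ k, c k * (M0 + Complex.I • M1 + (Complex.I ^ 2) • M2) k l = 0 := congrFun hc l
      have h2 : sc X (ib S l (γ - Complex.I • ic S b X.ω)) = 0 := by
        rw [← h1, hγd, hb, icsum, LinearMap.sum_apply, Finset.smul_sum, ← Finset.sum_sub_distrib,
          map_sum, map_sum]
        refine Finset.sum_congr rfl fun k _ => ?_
        rw [hM, LinearMap.smul_apply, smul_comm, ← smul_sub, map_smul, map_smul, smul_eq_mul]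
      have h3 : ib S l (γ - Complex.I • ic S b X.ω) ∈ X.H (0, 0) :=
        ib_type S l _ _ _ (Submodule.sub_mem _ hγm (Submodule.smul_mem _ _ (hγ b)))
      have h4 := sc_zero h3 h2
      rw [map_sub, map_smul, sub_eq_zero] at h4
      exact h4
    -- the operator and its source
    set z : Module.End ℂ Y.R := ic S' c + LinearMap.mulLeft ℂ ((-Complex.I) • ic S' c Y.ω) with hz
    have hzm : (-Complex.I) • ic S' c Y.ω ∈ Y.H (0, 1) :=
      Submodule.smul_mem _ _ (ic_type S' c _ _ _ Y.ω_mem)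
    have hu : cg φ ψ z = ic S b + LinearMap.mulLeft ℂ γ := by
      have e1 : z = ∑ k, c k • (io S' k + (-Complex.I) • LinearMap.mulLeft ℂ (io S' k Y.ω)) := by
        rw [hz, mulLeft_smul', ic_apply]
        have : (LinearMap.mulLeft ℂ (∑ k, c k • io S' k Y.ω) : Module.End ℂ Y.R) =
            ∑ k, c k • LinearMap.mulLeft ℂ (io S' k Y.ω) := by
          ext x
          rw [LinearMap.mulLeft_apply, Finset.sum_mul, LinearMap.sum_apply]
          exact Finset.sum_congr rfl fun k _ => by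
            rw [smul_mul_assoc, LinearMap.smul_apply, LinearMap.mulLeft_apply]
        rw [this, ic, Finset.smul_sum, ← Finset.sum_add_distrib]
        exact Finset.sum_congr rfl fun k _ => by rw [smul_add, smul_comm (-Complex.I)]
      have e2 : ∀ s : Finset (Fin a), cg φ ψ (∑ k ∈ s, c k • (io S' k +
          (-Complex.I) • LinearMap.mulLeft ℂ (io S' k Y.ω))) = ∑ k ∈ s, c k • cg φ ψ (io S' k +
          (-Complex.I) • LinearMap.mulLeft ℂ (io S' k Y.ω)) := by
        intro s
        induction s using Finset.cons_induction with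
        | empty => rw [Finset.sum_empty, Finset.sum_empty, cg_zero]
        | cons j s hj ih => rw [Finset.sum_cons, Finset.sum_cons, cg_add, cg_smul, ih]
      rw [e1, e2, hb, hγd, icsum, mlsum, ← Finset.sum_add_distrib]
      refine Finset.sum_congr rfl fun k _ => ?_
      rw [← smul_add, cg_add, cg_smul, hB, hB', sub_eq_add_neg (B k), ← neg_smul, ic_add, ic_smul,
        sub_eq_add_neg (β k), ← neg_smul, mulLeft_add', mulLeft_smul']
      simp only [smul_add]
      abel
    obtain ⟨r, hr0, hr1, hr⟩ := pos S b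
    obtain ⟨r', hr0', hr1', hr'⟩ := pos S' c
    have f1 := herm_form S b hγm
    have f2 := herm_form S' c hzm
    have g1 : cj (ic S b) γ = (-(r : ℂ)) • 1 := by
      have e1 : cj (ic S b) γ = Complex.I • cj (ic S b) (ic S b X.ω) := by
        rw [icb_apply, icb_apply, Finset.smul_sum]
        refine Finset.sum_congr rfl fun l _ => ?_
        rw [hl, smul_comm]
      have e2 : cj (ic S b) (ic S b X.ω) = -ic S b (cj (ic S b) X.ω) := by
        have := LinearMap.congr_fun (ic_icb S b b) X.ω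
        rw [LinearMap.neg_apply, Module.End.mul_apply, Module.End.mul_apply] at this
        rw [this, neg_neg]
      rw [e1, e2, hr, ← neg_smul, smul_smul]
      congr 1
      linear_combination (r : ℂ) * Complex.I_mul_I
    have g2 : ic S b (X.bar γ) = (-(r : ℂ)) • 1 := by
      have e1 : ic S b (X.bar γ) = X.bar (cj (ic S b) γ) := by
        rw [cj_apply, X.bar_bar]
      rw [e1, g1, LinearMap.map_smulₛₗ, bar_one, map_neg, Complex.conj_ofReal]
    have g3 : ic S' c (Y.bar ((-Complex.I) • ic S' c Y.ω)) = (r' : ℂ) • 1 := by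
      have e1 : Y.bar ((-Complex.I) • ic S' c Y.ω) = Complex.I • cj (ic S' c) Y.ω := by
        rw [LinearMap.map_smulₛₗ, map_neg, Complex.conj_I, neg_neg, cj_apply, Y.ω_bar]
      rw [e1, map_smul, hr', smul_smul]
      congr 1
      linear_combination (-(r' : ℂ)) * Complex.I_mul_I
    have g4 : cj (ic S' c) ((-Complex.I) • ic S' c Y.ω) = (r' : ℂ) • 1 := by
      have e2 : cj (ic S' c) (ic S' c Y.ω) = -ic S' c (cj (ic S' c) Y.ω) := by
        have := LinearMap.congr_fun (ic_icb S' c c) Y.ω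
        rw [LinearMap.neg_apply, Module.End.mul_apply, Module.End.mul_apply] at this
        rw [this, neg_neg]
      rw [map_smul, e2, hr', ← neg_smul, smul_smul]
      congr 1
      linear_combination (-(r' : ℂ)) * Complex.I_mul_I
    have f3 : cg φ ψ (z * cj z + cj z * z) = cg φ ψ z * cj (cg φ ψ z) + cj (cg φ ψ z) * cg φ ψ z := by
      rw [cg_add, cg_mul hφψ, cg_mul hφψ, cj_cg hφ hψ]
    rw [hu, f1, hz, f2, g1, g2, g3, g4, ← add_smul, ← add_smul, mulLeft_smul', mulLeft_smul',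
      mulLeft_one', mulLeft_one', cg_smul, cg_one hψφ] at f3
    have f4 := LinearMap.congr_fun f3 1
    rw [LinearMap.smul_apply, LinearMap.smul_apply, Module.End.one_apply] at f4
    have f5 := smul_one_inj f4
    have f6 : r' + r' = -r + -r := by exact_mod_cast f5
    exact hc0 (hr1' (by linarith))
  obtain ⟨t, ht⟩ := exists_rat M0 M1 M2 hI
  refine ⟨t, (M0 + (t : ℂ) • M1 + ((t : ℂ) ^ 2) • M2), ht, fun k l => ?_, fun k l => ?_⟩
  · rw [cg_tw S S' t (hB k) (hB' k), hM, add_mul, mul_add]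
    have e1 := ic_ib S (B k - (t : ℂ) • B' k) l
    have e2 := icb_odd S (Pi.single l 1) (hw t k) (by decide)
    rw [ic_single, cj_io] at e2
    have e3 : ib S l (β k - (t : ℂ) • β' k - (t : ℂ) • ic S (B k - (t : ℂ) • B' k) X.ω) ∈
        X.H (0, 0) := ib_type S l _ _ _ (hw t k)
    rw [← sc_spec e3, mulLeft_smul', mulLeft_one'] at e2
    rw [e1, ← e2]
    abel
  · rw [cg_tw S S' t (hB k) (hB' k), add_mul, mul_add]
    have e1 := ic_io S (B k - (t : ℂ) • B' k) l
    have e2 := ic_odd S (Pi.single l 1) (hw t k) (by decide)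
    rw [ic_single] at e2
    have e3 : io S l (β k - (t : ℂ) • β' k - (t : ℂ) • ic S (B k - (t : ℂ) • B' k) X.ω) = 0 :=
      zero_of_type (io_type S l _ _ _ (hw t k)) (Or.inl (by norm_num))
    rw [e3, mulLeft_zero'] at e2
    rw [e1, neg_add, eq_neg_of_add_eq_zero_right e2]

end Pool.Agent.Helper86.Orl
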