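import Pool.Agent.Helper86.Orl.PRing
import Pool.Agent.Helper86.Orl.Adj

/-!
# Inclusion of and projection on the killed classes
-/

set_option autoImplicit false

open scoped ComplexConjugate
open Module Pool.Agent.W539.DI Pool.Agent.Helper30.DI Pool.Agent.Q8.OM

namespace Pool.Agent.Helper86.Orl

section Gen

variable {n : ℕ} {X : KRing n}

theorem cp_ext {z : X.R} (h : ∀ p q, cp X (p, q) z = 0) : z = 0 := by
  have : DirectSum.decompose X.H z = 0 := by
    ext pq
    exact h pq.1 pq.2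
  exact (DirectSum.decompose X.H).injective (by rw [this, DirectSum.decompose_zero])

/-- the Lefschetz operator is injective on the classes of degree `n - k` -/
theorem lef_inj {k : ℕ} {z : X.R} (hz : part X {(n : ℤ) - k} z = z) (h : X.ω ^ k * z = 0) :
    z = 0 := by
  refine cp_ext fun p q => ?_
  by_cases hpq : p + q = n - k
  · refine X.hl_inj p q k (by omega) _ (cp_mem _ _) ?_
    have h1 := cp_comm (X := X) (LinearMap.mulLeft ℂ (X.ω ^ k)) k k
      (fun p q x hx => X.pow_mul_mem X.ω_mem k hx) p q z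
    rw [LinearMap.mulLeft_apply, LinearMap.mulLeft_apply, h, cp_zero] at h1
    exact h1
  · rw [← hz]
    have h1 := cp_comm (X := X) (part X {(n : ℤ) - k}) 0 0 (fun p q x hx => by
      rw [add_zero, add_zero]
      by_cases h : p + q ∈ ({(n : ℤ) - k} : Set ℤ)
      · rw [part_in X hx h]
        exact hx
      · rw [part_out X hx h]
        exact Submodule.zero_mem _) p q z
    rw [add_zero, add_zero, part_out X (cp_mem _ _) (by simpa using hpq)] at h1
    exact h1.symm

end Gen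

section P

variable {m a : ℕ} {X : KRing (m + a)} {S : AbelianSymmetry X a} {hA : Adapted S}
  {hc : ∀ k, io S k X.c = 0} {ρ : ℝ} {hρ : 0 < ρ}

variable (hA hc hρ) in
/-- the inclusion -/
noncomputable def inc : (PR S hA hc ρ hρ).R →ₗ[ℂ] X.R :=
  show PA S →ₗ[ℂ] X.R from (PA S).val.toLinearMap

variable (hA hc hρ) in
/-- the projection -/
noncomputable def prj : X.R →ₗ[ℂ] (PR S hA hc ρ hρ).R :=
  show X.R →ₗ[ℂ] PA S from LinearMap.codRestrict (Subalgebra.toSubmodule (PA S)) (pj S) (pj_mem S)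

theorem inc_PP (x : (PR S hA hc ρ hρ).R) : inc hA hc hρ x ∈ PP S := (show PA S from x).2

theorem inc_inj {x y : (PR S hA hc ρ hρ).R} (h : inc hA hc hρ x = inc hA hc hρ y) : x = y :=
  Subtype.ext h

theorem inc_mul (x y : (PR S hA hc ρ hρ).R) :
    inc hA hc hρ (x * y) = inc hA hc hρ x * inc hA hc hρ y := rfl

theorem inc_one : inc hA hc hρ (1 : (PR S hA hc ρ hρ).R) = 1 := rfl

theorem inc_bar (x : (PR S hA hc ρ hρ).R) :
    inc hA hc hρ ((PR S hA hc ρ hρ).bar x) = X.bar (inc hA hc hρ x) := rfl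

theorem inc_om : inc hA hc hρ (PR S hA hc ρ hρ).ω = om S := rfl

theorem inc_c : inc hA hc hρ (PR S hA hc ρ hρ).c = X.c := rfl

theorem inc_pow (x : (PR S hA hc ρ hρ).R) (k : ℕ) :
    inc hA hc hρ (x ^ k) = inc hA hc hρ x ^ k := by
  induction k with
  | zero => rw [pow_zero, pow_zero, inc_one]
  | succ k ih => rw [pow_succ, pow_succ, inc_mul, ih]

theorem mem_iff {pq : ℤ × ℤ} {x : (PR S hA hc ρ hρ).R} :
    x ∈ (PR S hA hc ρ hρ).H pq ↔ inc hA hc hρ x ∈ X.H pq := Iff.rfl

theorem inc_prj (x : X.R) : inc hA hc hρ (prj hA hc hρ x) = pj S x := rfl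

theorem prj_inc (x : (PR S hA hc ρ hρ).R) : prj hA hc hρ (inc hA hc hρ x) = x :=
  inc_inj (by rw [inc_prj, pj_of S (inc_PP x)])

theorem tr_P (x : (PR S hA hc ρ hρ).R) :
    (PR S hA hc ρ hρ).tr x = (ρ * sa a : ℝ) * X.tr (vol S * inc hA hc hρ x) := rfl

theorem prj_mem {pq : ℤ × ℤ} {x : X.R} (hx : x ∈ X.H pq) :
    prj hA hc hρ x ∈ (PR S hA hc ρ hρ).H pq := pj_type S pq.1 pq.2 x hx

theorem prj_bar (x : X.R) :
    prj hA hc hρ (X.bar x) = (PR S hA hc ρ hρ).bar (prj hA hc hρ x) :=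
  inc_inj (by rw [inc_prj, inc_bar, inc_prj, pj_bar])

theorem inc_part (P : Set ℤ) (x : (PR S hA hc ρ hρ).R) :
    inc hA hc hρ (part (PR S hA hc ρ hρ) P x) = part X P (inc hA hc hρ x) := by
  have h : inc hA hc hρ ∘ₗ part (PR S hA hc ρ hρ) P = part X P ∘ₗ inc hA hc hρ := by
    refine hom_ext' _ fun p q x hx => ?_
    rw [LinearMap.comp_apply, LinearMap.comp_apply]
    by_cases h : p + q ∈ P
    · rw [part_in _ hx h, part_in _ (mem_iff.mp hx) h]
    · rw [part_out _ hx h, part_out _ (mem_iff.mp hx) h, map_zero]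
  exact LinearMap.congr_fun h x

theorem pj_part (P : Set ℤ) (x : X.R) : pj S (part X P x) = part X P (pj S x) := by
  have h : pj S ∘ₗ part X P = part X P ∘ₗ pj S := by
    refine hom_ext' _ fun p q x hx => ?_
    rw [LinearMap.comp_apply, LinearMap.comp_apply]
    by_cases h : p + q ∈ P
    · rw [part_in _ hx h, part_in _ (pj_type S _ _ _ hx) h]
    · rw [part_out _ hx h, part_out _ (pj_type S _ _ _ hx) h, map_zero]
  exact LinearMap.congr_fun h x

theorem pj_om {x : X.R} (hx : x ∈ PP S) : pj S (X.ω * x) = om S * x := by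
  have h : MM S (X.ω * x) = MM S (om S * x) := by
    rw [MM_apply, MM_apply, ← mul_assoc, ← mul_assoc, vol_om]
  rw [pj_apply, h, ← pj_apply, pj_of S (mul_mem_PP S (om_PP S) hx)]

end P

end Pool.Agent.Helper86.Orl
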