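import Pool.Agent.Helper86.Orl.Ex

/-!
# The composition of the two comparison maps
-/

set_option autoImplicit false

open scoped ComplexConjugate
open Module Pool.Agent.W539.DI Pool.Agent.Helper30.DI Pool.Agent.Q8.OM

namespace Pool.Agent.Helper86.Orl

variable {n a : ℕ} {X Y : KRing n}

/-- conjugation of an operator by an isomorphism -/
noncomputable def cg (F : X.R →ₗ[ℂ] Y.R) (G : Y.R →ₗ[ℂ] X.R) (z : Module.End ℂ Y.R) :
    Module.End ℂ X.R := G ∘ₗ z ∘ₗ F

variable {F : X.R →ₗ[ℂ] Y.R} {G : Y.R →ₗ[ℂ] X.R}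

theorem cg_apply (z : Module.End ℂ Y.R) (x : X.R) : cg F G z x = G (z (F x)) := rfl

theorem cg_mul (hFG : ∀ y, F (G y) = y) (z w : Module.End ℂ Y.R) :
    cg F G (z * w) = cg F G z * cg F G w := by
  ext x
  rw [Module.End.mul_apply, cg_apply, cg_apply, cg_apply, hFG]
  rfl

theorem cg_one (hGF : ∀ x, G (F x) = x) : cg F G 1 = 1 := by
  ext x
  rw [cg_apply]
  exact hGF x

theorem cg_add (z w : Module.End ℂ Y.R) : cg F G (z + w) = cg F G z + cg F G w := by
  ext x
  simp only [cg_apply, LinearMap.add_apply, map_add]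

theorem cg_neg (z : Module.End ℂ Y.R) : cg F G (-z) = -cg F G z := by
  ext x
  simp only [cg_apply, LinearMap.neg_apply, map_neg]

theorem cg_smul (c : ℂ) (z : Module.End ℂ Y.R) : cg F G (c • z) = c • cg F G z := by
  ext x
  simp only [cg_apply, LinearMap.smul_apply, map_smul]

theorem cg_zero : cg F G 0 = 0 := by
  ext x
  simp only [cg_apply, LinearMap.zero_apply, map_zero]

theorem cg_pr (hGF : ∀ x, G (F x) = x) (hFG : ∀ y, F (G y) = y) {N : ℕ}
    (c : Fin N → Module.End ℂ Y.R) : cg F G (pr c) = pr fun k => cg F G (c k) := by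
  induction N with
  | zero => rw [pr_zero, pr_zero, cg_one hGF]
  | succ N ih => rw [pr_succ, pr_succ, cg_mul hFG, ih]

theorem cj_cg (hF : ∀ x, F (X.bar x) = Y.bar (F x)) (hG : ∀ y, G (Y.bar y) = X.bar (G y))
    (z : Module.End ℂ Y.R) : cj (cg F G z) = cg F G (cj z) := by
  ext x
  rw [cj_apply, cg_apply, cg_apply, cj_apply, hF, hG]

theorem lin_anti {B : Type*} [Ring B] [Algebra ℂ B] {N : ℕ} (σ : Fin N → B) (w : B)
    (h : ∀ j, σ j * w = -(w * σ j)) (c : Fin N → ℂ) :
    (∑ j, c j • σ j) * w = -(w * ∑ j, c j • σ j) := by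
  rw [Finset.sum_mul, Finset.mul_sum, ← Finset.sum_neg_distrib]
  refine Finset.sum_congr rfl fun j _ => ?_
  rw [smul_mul_assoc, mul_smul_comm, h, smul_neg]

theorem lin_anti2 {B : Type*} [Ring B] [Algebra ℂ B] {N : ℕ} (σ : Fin N → B)
    (h : ∀ i j, σ i * σ j = -(σ j * σ i)) (c d : Fin N → ℂ) :
    (∑ j, c j • σ j) * (∑ j, d j • σ j) = -((∑ j, d j • σ j) * ∑ j, c j • σ j) := by
  refine lin_anti σ _ (fun j => ?_) c
  have := lin_anti σ (σ j) (fun i => h i j) d
  rw [this, neg_neg]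

variable (S : AbelianSymmetry X a) (S' : AbelianSymmetry Y a)

/-- **The composition of the two comparison maps is a scalar.** -/
theorem comp_lemma (hGF : ∀ x, G (F x) = x) (hFG : ∀ y, F (G y) = y)
    (hF : ∀ x, F (X.bar x) = Y.bar (F x)) (hG : ∀ y, G (Y.bar y) = X.bar (G y))
    (C : Fin a → Fin a → ℂ)
    (h1 : ∀ k l, cg F G (io S' k) * ib S l + ib S l * cg F G (io S' k) = C k l • 1)
    (h2 : ∀ k l, cg F G (io S' k) * io S l = -(io S l * cg F G (io S' k)))
    (hC : (Matrix.of C).det ≠ 0) {y : X.R} (hy : y ∈ PP S) :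
    DD S (G (DD S' (F y))) =
      ((-1) ^ a * ((Matrix.of C).det * conj (Matrix.of C).det)) • y := by
  set σ : Fin a → Module.End ℂ X.R := fun k => cg F G (io S' k) with hσ
  set D : Matrix (Fin a) (Fin a) ℂ := (Matrix.of C)⁻¹ with hD
  have hCD : Matrix.of C * D = 1 := Matrix.mul_nonsing_inv _ (isUnit_iff_ne_zero.mpr hC)
  have hDC : D * Matrix.of C = 1 := Matrix.nonsing_inv_mul _ (isUnit_iff_ne_zero.mpr hC)
  set τ : Fin a → Module.End ℂ X.R := fun k => ∑ j, D k j • σ j with hτ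
  have hσσ : ∀ i j, σ i * σ j = -(σ j * σ i) := by
    intro i j
    simp only [hσ]
    rw [← cg_mul hFG, io_io, cg_neg, cg_mul hFG]
  have hττ : ∀ i j, τ i * τ j = -(τ j * τ i) := fun i j => lin_anti2 σ hσσ _ _
  have hτ2 : ∀ k l, τ k * io S l = -(io S l * τ k) := fun k l => lin_anti σ _ (fun j => h2 j l) _
  have hτ1 : ∀ k l, τ k * ib S l + ib S l * τ k = if k = l then 1 else 0 := by
    intro k l
    simp only [hτ]
    rw [Finset.sum_mul, Finset.mul_sum, ← Finset.sum_add_distrib]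
    have e : ∀ j, D k j • σ j * ib S l + ib S l * D k j • σ j = (D k j * C j l) • 1 := by
      intro j
      rw [smul_mul_assoc, mul_smul_comm, ← smul_add, h1, smul_smul]
    rw [Finset.sum_congr rfl fun j _ => e j, ← Finset.sum_smul]
    have e2 : ∑ j, D k j * C j l = (D * Matrix.of C) k l := rfl
    rw [e2, hDC, Matrix.one_apply]
    split_ifs
    · rw [one_smul]
    · rw [zero_smul]
  have hστ : σ = fun k => ∑ j, C k j • τ j := by
    funext k
    simp only [hτ]
    have e : ∀ j, C k j • ∑ i, D j i • σ i = ∑ i, (C k j * D j i) • σ i := by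
      intro j
      rw [Finset.smul_sum]
      exact Finset.sum_congr rfl fun i _ => smul_smul _ _ _
    rw [Finset.sum_congr rfl fun j _ => e j, Finset.sum_comm,
      Finset.sum_congr rfl fun i _ => (Finset.sum_smul (f := fun j => C k j * D j i)).symm]
    have e2 : ∀ i, ∑ j, C k j * D j i = (Matrix.of C * D) k i := fun i => rfl
    simp only [e2, hCD, Matrix.one_apply, ite_smul, one_smul, zero_smul, Finset.sum_ite_eq,
      Finset.mem_univ, if_true]
  have hpr : pr σ = (Matrix.of C).det • pr τ := by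
    rw [hστ]
    exact pr_det τ hττ C
  have hprb : pr (fun k => cj (σ k)) = conj (Matrix.of C).det • pr fun k => cj (τ k) := by
    rw [← cj_pr, hpr, cj_smul, cj_pr]
  have hD' : cg F G (DD S') = (Complex.I ^ a) • (pr σ * pr fun k => cj (σ k)) := by
    rw [DD, cg_smul, D0, cg_mul hFG, cg_pr hGF hFG, cg_pr hGF hFG]
    congr 2
    congr 1
    funext k
    rw [hσ, cj_cg hF hG]
    rfl
  have hττb : ∀ i j, cj (τ i) * cj (τ j) = -(cj (τ j) * cj (τ i)) := by
    intro i j
    rw [← cj_mul, hττ, cj_neg, cj_mul]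
  have h3 : pr (ib S) (rp τ (rp (fun k => cj (τ k)) y)) = rp (fun k => cj (τ k)) y := by
    refine pr_rp_smul (ib S) τ _ (fun i j => ?_) fun i => ?_
    · rw [add_comm, hτ1]
      by_cases h : i = j
      · rw [if_pos h, if_pos h.symm]
      · rw [if_neg h, if_neg (Ne.symm h)]
    · refine anti_smul_zero (fun k => cj (τ k)) y (fun j => ?_) ((mem_PP S).mp hy i).2
      rw [← cj_io, ← cj_mul, eq_neg_iff_add_eq_zero, ← cj_mul, ← cj_add]
      have := hτ2 j i
      rw [this, add_neg_cancel, cj_zero]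
  have h4 : pr (io S) (rp (fun k => cj (τ k)) y) = y := by
    refine pr_rp_smul (io S) (fun k => cj (τ k)) y (fun i j => ?_) fun i => ((mem_PP S).mp hy i).1
    rw [← cj_ib, ← cj_mul, ← cj_mul, ← cj_add, add_comm, hτ1]
    by_cases h : i = j
    · rw [if_pos h, if_pos h.symm, cj_one]
    · rw [if_neg h, if_neg (Ne.symm h), cj_zero]
  have h5 : pr τ (pr (fun k => cj (τ k)) y) = rp τ (rp (fun k => cj (τ k)) y) := by
    have e : pr τ * pr (fun k => cj (τ k)) = rp τ * rp fun k => cj (τ k) := by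
      rw [rp_eq _ hττ, rp_eq _ hττb, neg_pow_smul, neg_pow_smul, smul_mul_smul_comm, ← mul_pow,
        neg_one_mul, neg_neg, one_pow, one_smul]
    exact LinearMap.congr_fun e y
  change DD S (cg F G (DD S') y) = _
  rw [hD', hpr, hprb, smul_mul_smul_comm, smul_smul, LinearMap.smul_apply, map_smul,
    Module.End.mul_apply, h5, DD, LinearMap.smul_apply, D0, Module.End.mul_apply, h3, h4, smul_smul]
  congr 1
  have e3 : Complex.I ^ a * Complex.I ^ a = (-1 : ℂ) ^ a := by
    rw [← mul_pow, Complex.I_mul_I]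
  rw [← e3]
  ring

end Pool.Agent.Helper86.Orl
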