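import Pool.Agent.Helper86.Orl.Fin

/-!
# From the degrees of the whole motives to the killed classes
-/

set_option autoImplicit false

open scoped ComplexConjugate
open Module Pool.Agent.W539.DI Pool.Agent.Helper30.DI Pool.Agent.Q8.OM

namespace Pool.Agent.Helper86.Orl

section Asm

variable {n : ℕ} {ι : Type} {T : Theory n ι}

/-- gluing of the low degrees -/
theorem asm {i j : ι} (d : ℕ) (h : ∀ c : ℕ, c < d → T.Iso i {(c : ℤ)} j {(c : ℤ)}) :
    ∃ a ∈ T.A i j, ∃ b ∈ T.A j i, b ∘ₗ a = part (T.X i) (Set.Iio (d : ℤ)) ∧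
      a ∘ₗ b = part (T.X j) (Set.Iio (d : ℤ)) ∧
      part (T.X j) (Set.Iio (d : ℤ)) ∘ₗ a = a ∧ a ∘ₗ part (T.X i) (Set.Iio (d : ℤ)) = a ∧
      part (T.X i) (Set.Iio (d : ℤ)) ∘ₗ b = b ∧ b ∘ₗ part (T.X j) (Set.Iio (d : ℤ)) = b ∧
      (∀ c : ℤ, a ∘ₗ part (T.X i) {c} = part (T.X j) {c} ∘ₗ a) ∧
      ∀ c : ℤ, b ∘ₗ part (T.X j) {c} = part (T.X i) {c} ∘ₗ b := by
  induction d with
  | zero =>
    have e : ∀ w, part (T.X w) (Set.Iio ((0 : ℕ) : ℤ)) = 0 := by
      intro w
      rw [← part_empty]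
      refine part_congr _ fun d' h0 h1 => ?_
      simp only [Set.mem_Iio, Set.mem_empty_iff_false, iff_false]
      push_cast
      omega
    refine ⟨0, T.zero_mem i j, 0, T.zero_mem j i, ?_⟩
    simp only [e]
    simp
  | succ s ih =>
    obtain ⟨a, ha, b, hb, h1, h2, h3, h4, h5, h6, h7, h8⟩ := ih fun c hc => h c (by omega)
    obtain ⟨a', ha', b', hb', k1, k2, k3, k4, k5, k6⟩ := (h s (by omega)).strong
    have hd : Disjoint ({(s : ℤ)} : Set ℤ) (Set.Iio (s : ℤ)) := by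
      rw [Set.disjoint_singleton_left]
      simp
    have z1 : ∀ w, part (T.X w) {(s : ℤ)} ∘ₗ part (T.X w) (Set.Iio (s : ℤ)) = 0 := by
      intro w
      rw [part_comp, hd.inter_eq, part_empty]
    have z2 : ∀ w, part (T.X w) (Set.Iio (s : ℤ)) ∘ₗ part (T.X w) {(s : ℤ)} = 0 := by
      intro w
      rw [part_comp, hd.symm.inter_eq, part_empty]
    have c1 : b ∘ₗ a' = 0 := by
      have : b ∘ₗ a' = (b ∘ₗ part (T.X j) (Set.Iio (s : ℤ))) ∘ₗ (part (T.X j) {(s : ℤ)} ∘ₗ a') := by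
        rw [h6, k3]
      rw [this, LinearMap.comp_assoc, ← LinearMap.comp_assoc a', z2, LinearMap.zero_comp,
        LinearMap.comp_zero]
    have c2 : b' ∘ₗ a = 0 := by
      have : b' ∘ₗ a = (b' ∘ₗ part (T.X j) {(s : ℤ)}) ∘ₗ (part (T.X j) (Set.Iio (s : ℤ)) ∘ₗ a) := by
        rw [k6, h3]
      rw [this, LinearMap.comp_assoc, ← LinearMap.comp_assoc a, z1, LinearMap.zero_comp,
        LinearMap.comp_zero]
    have c3 : a ∘ₗ b' = 0 := by
      have : a ∘ₗ b' = (a ∘ₗ part (T.X i) (Set.Iio (s : ℤ))) ∘ₗ (part (T.X i) {(s : ℤ)} ∘ₗ b') := by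
        rw [h4, k5]
      rw [this, LinearMap.comp_assoc, ← LinearMap.comp_assoc b', z2, LinearMap.zero_comp,
        LinearMap.comp_zero]
    have c4 : a' ∘ₗ b = 0 := by
      have : a' ∘ₗ b = (a' ∘ₗ part (T.X i) {(s : ℤ)}) ∘ₗ (part (T.X i) (Set.Iio (s : ℤ)) ∘ₗ b) := by
        rw [k4, h5]
      rw [this, LinearMap.comp_assoc, ← LinearMap.comp_assoc b, z1, LinearMap.zero_comp,
        LinearMap.comp_zero]
    have e : ∀ w, part (T.X w) (Set.Iio ((s + 1 : ℕ) : ℤ)) =
        part (T.X w) {(s : ℤ)} + part (T.X w) (Set.Iio (s : ℤ)) := by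
      intro w
      rw [← part_add _ hd]
      congr 1
      ext c
      simp only [Set.mem_Iio, Set.mem_union, Set.mem_singleton_iff]
      push_cast
      omega
    have single : ∀ (u w : ι) (f : (T.X u).R →ₗ[ℂ] (T.X w).R), part (T.X w) {(s : ℤ)} ∘ₗ f = f →
        f ∘ₗ part (T.X u) {(s : ℤ)} = f →
          ∀ d : ℤ, f ∘ₗ part (T.X u) {d} = part (T.X w) {d} ∘ₗ f := by
      intro u w f hf1 hf2 d
      by_cases hdm : d = s
      · rw [hdm, hf1, hf2]
      · have e1 : f ∘ₗ part (T.X u) {d} = (f ∘ₗ part (T.X u) {(s : ℤ)}) ∘ₗ part (T.X u) {d} := by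
          rw [hf2]
        have e2 : part (T.X w) {d} ∘ₗ f = part (T.X w) {d} ∘ₗ (part (T.X w) {(s : ℤ)} ∘ₗ f) := by
          rw [hf1]
        have e3 : ({(s : ℤ)} ∩ {d} : Set ℤ) = ∅ := by
          rw [← Set.disjoint_iff_inter_eq_empty, Set.disjoint_singleton]
          exact fun h => hdm h.symm
        have e4 : ({d} ∩ {(s : ℤ)} : Set ℤ) = ∅ := by
          rw [← Set.disjoint_iff_inter_eq_empty, Set.disjoint_singleton]
          exact hdm
        rw [e1, e2, LinearMap.comp_assoc, part_comp, e3, part_empty, LinearMap.comp_zero,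
          ← LinearMap.comp_assoc, part_comp, e4, part_empty, LinearMap.zero_comp]
    have x1 : part (T.X j) {(s : ℤ)} ∘ₗ a = 0 := by
      rw [← h3, ← LinearMap.comp_assoc, z1, LinearMap.zero_comp]
    have x2 : part (T.X j) (Set.Iio (s : ℤ)) ∘ₗ a' = 0 := by
      rw [← k3, ← LinearMap.comp_assoc, z2, LinearMap.zero_comp]
    have x3 : a ∘ₗ part (T.X i) {(s : ℤ)} = 0 := by
      rw [← h4, LinearMap.comp_assoc, z2, LinearMap.comp_zero]
    have x4 : a' ∘ₗ part (T.X i) (Set.Iio (s : ℤ)) = 0 := by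
      rw [← k4, LinearMap.comp_assoc, z1, LinearMap.comp_zero]
    have x5 : part (T.X i) {(s : ℤ)} ∘ₗ b = 0 := by
      rw [← h5, ← LinearMap.comp_assoc, z1, LinearMap.zero_comp]
    have x6 : part (T.X i) (Set.Iio (s : ℤ)) ∘ₗ b' = 0 := by
      rw [← k5, ← LinearMap.comp_assoc, z2, LinearMap.zero_comp]
    have x7 : b ∘ₗ part (T.X j) {(s : ℤ)} = 0 := by
      rw [← h6, LinearMap.comp_assoc, z2, LinearMap.comp_zero]
    have x8 : b' ∘ₗ part (T.X j) (Set.Iio (s : ℤ)) = 0 := by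
      rw [← k6, LinearMap.comp_assoc, z1, LinearMap.comp_zero]
    refine ⟨a' + a, (T.A i j).add_mem ha' ha, b' + b, (T.A j i).add_mem hb' hb, ?_, ?_, ?_, ?_,
      ?_, ?_, ?_, ?_⟩
    · rw [e, LinearMap.add_comp, LinearMap.comp_add, LinearMap.comp_add, k1, h1, c1, c2, add_zero,
        zero_add]
    · rw [e, LinearMap.add_comp, LinearMap.comp_add, LinearMap.comp_add, k2, h2, c3, c4,
        add_zero, zero_add]
    · rw [e, LinearMap.add_comp, LinearMap.comp_add, LinearMap.comp_add, k3, h3, x1, x2, add_zero,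
        zero_add]
    · rw [e, LinearMap.add_comp, LinearMap.comp_add, LinearMap.comp_add, k4, h4, x3, x4, add_zero,
        zero_add]
    · rw [e, LinearMap.add_comp, LinearMap.comp_add, LinearMap.comp_add, k5, h5, x5, x6, add_zero,
        zero_add]
    · rw [e, LinearMap.add_comp, LinearMap.comp_add, LinearMap.comp_add, k6, h6, x7, x8, add_zero,
        zero_add]
    · intro d
      rw [LinearMap.add_comp, LinearMap.comp_add, h7, single i j a' k3 k4 d]
    · intro d
      rw [LinearMap.add_comp, LinearMap.comp_add, h8, single j i b' k5 k6 d]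

/-- **Cancellation.** -/
theorem cancel {i j : ι} {p e : (T.X i).R →ₗ[ℂ] (T.X i).R} {p' e' : (T.X j).R →ₗ[ℂ] (T.X j).R}
    (hp : p ∈ T.A i i) (he : e ∈ T.A i i) (hp' : p' ∈ T.A j j) (he' : e' ∈ T.A j j)
    (pp : p ∘ₗ p = p) (ee : e ∘ₗ e = e) (pe : p ∘ₗ e = 0) (ep : e ∘ₗ p = 0)
    (pp' : p' ∘ₗ p' = p') (ee' : e' ∘ₗ e' = e') (pe' : p' ∘ₗ e' = 0) (ep' : e' ∘ₗ p' = 0)
    (h1 : ∃ a ∈ T.A i j, ∃ b ∈ T.A j i, b ∘ₗ a = p + e ∧ a ∘ₗ b = p' + e')
    (h2 : ∃ a ∈ T.A i j, ∃ b ∈ T.A j i, b ∘ₗ a = e ∧ a ∘ₗ b = e') :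
    ∃ a ∈ T.A i j, ∃ b ∈ T.A j i, b ∘ₗ a = p ∧ a ∘ₗ b = p' := by
  have key : ∀ (v : ι) (t : (T.X v).R →ₗ[ℂ] (T.X v).R), T.D v i t p = T.D v j t p' := by
    intro v t
    obtain ⟨a, ha, b, hb, q1, q2⟩ := h1
    obtain ⟨c, hc, d, hd, q3, q4⟩ := h2
    have r1 := T.D_eq (v := v) (t := t) ha hb q1 q2
    have r2 := T.D_eq (v := v) (t := t) hc hd q3 q4
    rw [T.D_add hp he pp ee pe ep, T.D_add hp' he' pp' ee' pe' ep'] at r1
    omega
  obtain ⟨a, ha, b, hb, q1, q2, -⟩ := T.iso_of 0 0 hp hp' pp pp' (LinearMap.comp_zero _)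
    (LinearMap.comp_zero _) (fun t _ _ _ => (key i t).le) (fun t _ _ _ => (key j t).ge)
  exact ⟨a, ha, b, hb, q1, q2⟩

end Asm

section Thy

variable {m a : ℕ} {ι : Type} {T : Theory (m + a) ι} {C : Act T} {i j : ι}

theorem part_form {n : ℕ} {X : KRing n} {v : X.R} {r s : ℤ} (hv : v ∈ X.H (r, s)) (hrs : r + s = 1)
    (d : ℤ) (w : X.R) : part X {d} (v * w) = v * part X {d - 1} w := by
  have := part_shift (X := X) (f := LinearMap.mulLeft ℂ v) hrs (fun p q x hx => by
    have := X.mul_mem hv hx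
    rwa [add_comm r p, add_comm s q] at this) (d - 1) w
  rw [sub_add_cancel] at this
  exact this.symm

theorem pj_part' {n b : ℕ} {X : KRing n} (S : AbelianSymmetry X b) (P : Set ℤ) (x : X.R) :
    pj S (part X P x) = part X P (pj S x) := by
  have h : pj S ∘ₗ part X P = part X P ∘ₗ pj S := by
    refine hom_ext' _ fun p q x hx => ?_
    rw [LinearMap.comp_apply, LinearMap.comp_apply]
    by_cases h : p + q ∈ P
    · rw [part_in _ hx h, part_in _ (pj_type S _ _ _ hx) h]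
    · rw [part_out _ hx h, part_out _ (pj_type S _ _ _ hx) h, map_zero]
  exact LinearMap.congr_fun h x

/-- the composition of the extensions in the next degree -/
theorem next_deg {n b : ℕ} {X : KRing n} (S : AbelianSymmetry X b) (Q : X.R →ₗ[ℂ] X.R) (d : ℤ)
    (h1 : ∀ l z, Q (S.form l * z) = S.form l * Q z)
    (h2 : ∀ l z, Q (X.bar (S.form l) * z) = X.bar (S.form l) * Q z)
    (h0 : ∀ z ∈ PP S, Q z = part X (Set.Iio d) z) (z : X.R) :
    Q (part X {d} z) + pj S (part X {d} z) = part X {d} z := by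
  let N : Submodule ℂ X.R := (⨅ c : {c : ℤ // c < d}, LinearMap.eqLocus (Q ∘ₗ part X {c.1})
    (part X {c.1})) ⊓ LinearMap.eqLocus ((Q + pj S) ∘ₗ part X {d}) (part X {d})
  have hN : ∀ z, z ∈ N ↔ (∀ c : ℤ, c < d → Q (part X {c} z) = part X {c} z) ∧
      Q (part X {d} z) + pj S (part X {d} z) = part X {d} z := by
    intro z
    simp only [N, Submodule.mem_inf, Submodule.mem_iInf, LinearMap.mem_eqLocus, Subtype.forall]
    rfl
  have key : N = ⊤ := by
    refine gen S N (fun z hz => ?_) (fun l z hz => ?_) (fun l z hz => ?_)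
    · rw [hN]
      have hp : ∀ c : ℤ, part X {c} z ∈ PP S := by
        intro c
        rw [← pj_of S hz, ← pj_part']
        exact pj_mem S _
      constructor
      · intro c hc
        rw [h0 _ (hp c), ← LinearMap.comp_apply, part_comp]
        congr 2
        ext x
        simp only [Set.mem_inter_iff, Set.mem_Iio, Set.mem_singleton_iff]
        omega
      · rw [h0 _ (hp d), ← LinearMap.comp_apply, part_comp, pj_of S (hp d)]
        have : (Set.Iio d ∩ {d} : Set ℤ) = ∅ := by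
          refine Set.eq_empty_iff_forall_notMem.mpr ?_
          rintro x ⟨g1, g2⟩
          rw [Set.mem_singleton_iff] at g2
          rw [Set.mem_Iio] at g1
          omega
        rw [this, part_empty, LinearMap.zero_apply, zero_add]
    · rw [hN] at hz ⊢
      constructor
      · intro c hc
        rw [part_form (S.form_mem l) (by norm_num), h1, hz.1 _ (by omega)]
      · rw [part_form (S.form_mem l) (by norm_num), h1, hz.1 _ (by omega), pj_tt, add_zero]
    · rw [hN] at hz ⊢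
      have hm := X.bar_mem _ _ _ (S.form_mem l)
      constructor
      · intro c hc
        rw [part_form hm (by norm_num), h2, hz.1 _ (by omega)]
      · rw [part_form hm (by norm_num), h2, hz.1 _ (by omega), pj_tb, add_zero]
  have : z ∈ N := by rw [key]; trivial
  exact ((hN z).mp this).2

end Thy

end Pool.Agent.Helper86.Orl
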