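import Pool.Agent.Helper86.Orl.Low

/-!
# Reduction to the degrees at most `n - a - 3`
-/

set_option autoImplicit false

open scoped ComplexConjugate
open Module Pool.Agent.W539.DI Pool.Agent.Helper30.DI Pool.Agent.Q8.OM

namespace Pool.Agent.Helper86.Orl

section Gen

variable {n a : ℕ} {X Y : KRing n} (S : AbelianSymmetry X a) (S' : AbelianSymmetry Y a)

theorem span_mul {b' G' : Y.R →ₗ[ℂ] X.R} {f : Fin a → Y.R}
    (h : ∀ k z, G' (f k * z) = b' (f k) * G' z) :
    ∀ v ∈ Submodule.span ℂ (Set.range f), ∀ z, G' (v * z) = b' v * G' z := by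
  intro v hv z
  induction hv using Submodule.span_induction with
  | mem x hx =>
    obtain ⟨k, rfl⟩ := hx
    exact h k z
  | zero => rw [zero_mul, map_zero, map_zero, zero_mul]
  | add x y _ _ hx hy => rw [add_mul, map_add, hx, hy, map_add, add_mul]
  | smul c x _ hx => rw [smul_mul_assoc, map_smul, hx, map_smul, smul_mul_assoc]

theorem pj_span {v : X.R} (hv : v ∈ Submodule.span ℂ (Set.range S.form)) (z : X.R) :
    pj S (v * z) = 0 := by
  induction hv using Submodule.span_induction with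
  | mem x hx =>
    obtain ⟨k, rfl⟩ := hx
    exact pj_tt S k z
  | zero => rw [zero_mul, map_zero]
  | add x y _ _ hx hy => rw [add_mul, map_add, hx, hy, add_zero]
  | smul c x _ hx => rw [smul_mul_assoc, map_smul, hx, smul_zero]

theorem pj_bspan {v : X.R} (hv : v ∈ Submodule.span ℂ (Set.range fun k => X.bar (S.form k)))
    (z : X.R) : pj S (v * z) = 0 := by
  induction hv using Submodule.span_induction with
  | mem x hx =>
    obtain ⟨k, rfl⟩ := hx
    exact pj_tb S k z
  | zero => rw [zero_mul, map_zero]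
  | add x y _ _ hx hy => rw [add_mul, map_add, hx, hy, add_zero]
  | smul c x _ hx => rw [smul_mul_assoc, map_smul, hx, smul_zero]

/-- the extension commutes with the projections -/
theorem pj_G {b G : X.R →ₗ[ℂ] Y.R} (hb : WI S S' b)
    (h1 : ∀ j z, G (S.form j * z) = b (S.form j) * G z)
    (h2 : ∀ j z, G (X.bar (S.form j) * z) = b (X.bar (S.form j)) * G z)
    (h0 : ∀ z ∈ PP S, G z ∈ PP S') (z : X.R) : pj S' (G z) = G (pj S z) := by
  have key : LinearMap.eqLocus (pj S' ∘ₗ G) (G ∘ₗ pj S) = ⊤ := by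
    refine gen S _ (fun z hz => ?_) (fun l z _ => ?_) (fun l z _ => ?_)
    · rw [LinearMap.mem_eqLocus, LinearMap.comp_apply, LinearMap.comp_apply, pj_of S hz,
        pj_of S' (h0 z hz)]
    · rw [LinearMap.mem_eqLocus, LinearMap.comp_apply, LinearMap.comp_apply, h1, pj_tt,
        pj_span S' (hb.f l), map_zero]
    · rw [LinearMap.mem_eqLocus, LinearMap.comp_apply, LinearMap.comp_apply, h2, pj_tb,
        pj_bspan S' (hb.g l), map_zero]
  have : z ∈ LinearMap.eqLocus (pj S' ∘ₗ G) (G ∘ₗ pj S) := by rw [key]; trivial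
  exact this

end Gen

section Thy

variable {m a : ℕ} {ι : Type} {T : Theory (m + a) ι} {C : Act T} {i j : ι}

/-- **The extensions of a pair of maps of the killed classes.** -/
theorem ext_pair (h : C.Equiv i j) (R : Scal C (fun b : Bool => cond b i j))
    (f : (PX R true).R →ₗ[ℂ] (PX R false).R) (hf : f ∈ PAg R true false)
    (g : (PX R false).R →ₗ[ℂ] (PX R true).R) (hg : g ∈ PAg R false true)
    (k3 : ∀ d : ℤ, f ∘ₗ part (PX R true) {d} = part (PX R false) {d} ∘ₗ f)
    (k4 : ∀ d : ℤ, g ∘ₗ part (PX R false) {d} = part (PX R true) {d} ∘ₗ g) :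
    ∃ G ∈ T.A i j, ∃ G' ∈ T.A j i,
      (∀ z ∈ PP (C.S i), G z = lft R (k := true) (l := false) f z) ∧
      (∀ z ∈ PP (C.S j), G' z = lft R (k := false) (l := true) g z) ∧
      (∀ l z, G' (G ((C.S i).form l * z)) = (C.S i).form l * G' (G z)) ∧
      (∀ l z, G' (G ((T.X i).bar ((C.S i).form l) * z)) =
        (T.X i).bar ((C.S i).form l) * G' (G z)) ∧
      (∀ l z, G (G' ((C.S j).form l * z)) = (C.S j).form l * G (G' z)) ∧
      (∀ l z, G (G' ((T.X j).bar ((C.S j).form l) * z)) =
        (T.X j).bar ((C.S j).form l) * G (G' z)) ∧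
      (∀ d z, G (part (T.X i) {d} z) = part (T.X j) {d} (G z)) ∧
      (∀ d z, G' (part (T.X j) {d} z) = part (T.X i) {d} (G' z)) ∧
      (∀ z, pj (C.S j) (G z) = G (pj (C.S i) z)) ∧
      ∀ z, pj (C.S i) (G' z) = G' (pj (C.S j) z) := by
  obtain ⟨b, hb, b', hb', w1, w2, r1, r2, r3, r4⟩ := exists_b h
  let F : (T.X i).R →ₗ[ℂ] (T.X j).R := lft R (k := true) (l := false) f
  let F' : (T.X j).R →ₗ[ℂ] (T.X i).R := lft R (k := false) (l := true) g
  have hF : F ∈ T.A i j := hf
  have hF' : F' ∈ T.A j i := hg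
  obtain ⟨G, hG, G0, G1, G2, G3⟩ := exists_ext (S := C.S i) (b := b)
    (u := F) (T.A i j) (fun q f hf => T.rat _ _ q f hf)
    (fun f hf => C.act i j b hb f hf) hF (w1.mem1 (C.S i) (C.S j)) (w1.mem2 (C.S i) (C.S j))
    (fun l z => by
      have e : J R true ((C.S i).form l * z) = 0 := J_form R true l z
      change I R false (f (J R true ((C.S i).form l * z))) = 0
      rw [e, map_zero, map_zero])
    (fun l z => by
      have e : J R true ((T.X i).bar ((C.S i).form l) * z) = 0 := J_bform R true l z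
      change I R false (f (J R true ((T.X i).bar ((C.S i).form l) * z))) = 0
      rw [e, map_zero, map_zero])
    (fun d z => lft_part R (k := true) (l := false) k3 d z)
  obtain ⟨G', hG', G0', G1', G2', G3'⟩ := exists_ext (S := C.S j) (b := b')
    (u := F') (T.A j i) (fun q f hf => T.rat _ _ q f hf)
    (fun f hf => C.act j i b' hb' f hf) hF' (w2.mem1 (C.S j) (C.S i)) (w2.mem2 (C.S j) (C.S i))
    (fun l z => by
      have e : J R false ((C.S j).form l * z) = 0 := J_form R false l z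
      change I R true (g (J R false ((C.S j).form l * z))) = 0
      rw [e, map_zero, map_zero])
    (fun l z => by
      have e : J R false ((T.X j).bar ((C.S j).form l) * z) = 0 := J_bform R false l z
      change I R true (g (J R false ((T.X j).bar ((C.S j).form l) * z))) = 0
      rw [e, map_zero, map_zero])
    (fun d z => lft_part R (k := false) (l := true) k4 d z)
  have p1 : ∀ z ∈ PP (C.S i), G z ∈ PP (C.S j) := by
    intro z hz
    rw [G0 z hz]
    exact I_PP R (k := false) _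
  have p2 : ∀ z ∈ PP (C.S j), G' z ∈ PP (C.S i) := by
    intro z hz
    rw [G0' z hz]
    exact I_PP R (k := true) _
  refine ⟨G, hG, G', hG', G0, G0', fun l z => ?_, fun l z => ?_, fun l z => ?_, fun l z => ?_,
    G3, G3', pj_G (C.S i) (C.S j) w1 G1 G2 p1, pj_G (C.S j) (C.S i) w2 G1' G2' p2⟩
  · rw [G1, span_mul G1' _ (w1.f l), r1]
  · rw [G2, span_mul G2' _ (w1.g l), r2]
  · rw [G1', span_mul G1 _ (w2.f l), r3]
  · rw [G2', span_mul G2 _ (w2.g l), r4]

/-- the induction step -/
theorem killed_aux (h : C.Equiv i j) (R : Scal C (fun b : Bool => cond b i j)) (d : ℕ)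
    (f : (PX R true).R →ₗ[ℂ] (PX R false).R) (hf : f ∈ PAg R true false)
    (g : (PX R false).R →ₗ[ℂ] (PX R true).R) (hg : g ∈ PAg R false true)
    (q1 : ∀ x, g (f x) = part (PX R true) (Set.Iio (d : ℤ)) x)
    (q2 : ∀ x, f (g x) = part (PX R false) (Set.Iio (d : ℤ)) x)
    (q7 : ∀ d : ℤ, f ∘ₗ part (PX R true) {d} = part (PX R false) {d} ∘ₗ f)
    (q8 : ∀ d : ℤ, g ∘ₗ part (PX R false) {d} = part (PX R true) {d} ∘ₗ g)
    (hd : T.Iso i {(d : ℤ)} j {(d : ℤ)}) : C.IsoKilled i j d := by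
  obtain ⟨G, hG, G', hG', z1, z2, e1, e2, e3, e4, d1, d2, p1, p2⟩ := ext_pair h R f hf g hg q7 q8
  have Q0 : ∀ z ∈ PP (C.S i), G' (G z) = part (T.X i) (Set.Iio (d : ℤ)) z := by
    intro z hz
    have t1 : G z ∈ PP (C.S j) := by
      rw [z1 z hz]
      exact I_PP R (k := false) _
    rw [z2 _ t1, z1 z hz]
    change I R true (g (J R false (I R false (f (J R true z))))) = _
    rw [JI_apply, q1]
    have t3 : I R true (part (PX R true) (Set.Iio (d : ℤ)) (J R true z)) =
        part (T.X i) (Set.Iio (d : ℤ)) (I R true (J R true z)) := inc_part _ _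
    rw [t3, IJ_apply]
    exact congrArg _ (pj_of (C.S i) hz)
  have Q0' : ∀ z ∈ PP (C.S j), G (G' z) = part (T.X j) (Set.Iio (d : ℤ)) z := by
    intro z hz
    have t1 : G' z ∈ PP (C.S i) := by
      rw [z2 z hz]
      exact I_PP R (k := true) _
    rw [z1 _ t1, z2 z hz]
    change I R false (f (J R true (I R true (g (J R false z))))) = _
    rw [JI_apply, q2]
    have t3 : I R false (part (PX R false) (Set.Iio (d : ℤ)) (J R false z)) =
        part (T.X j) (Set.Iio (d : ℤ)) (I R false (J R false z)) := inc_part _ _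
    rw [t3, IJ_apply]
    exact congrArg _ (pj_of (C.S j) hz)
  have N1 : ∀ z, G' (G (part (T.X i) {(d : ℤ)} z)) + pj (C.S i) (part (T.X i) {(d : ℤ)} z) =
      part (T.X i) {(d : ℤ)} z := next_deg (C.S i) (G' ∘ₗ G) d e1 e2 Q0
  have N2 : ∀ z, G (G' (part (T.X j) {(d : ℤ)} z)) + pj (C.S j) (part (T.X j) {(d : ℤ)} z) =
      part (T.X j) {(d : ℤ)} z := next_deg (C.S j) (G ∘ₗ G') d e3 e4 Q0'
  -- the projectors
  let pi : (T.X i).R →ₗ[ℂ] (T.X i).R := part (T.X i) {(d : ℤ)} ∘ₗ pj (C.S i)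
  let ei : (T.X i).R →ₗ[ℂ] (T.X i).R :=
    part (T.X i) {(d : ℤ)} ∘ₗ (LinearMap.id - pj (C.S i))
  let pj' : (T.X j).R →ₗ[ℂ] (T.X j).R := part (T.X j) {(d : ℤ)} ∘ₗ pj (C.S j)
  let ej : (T.X j).R →ₗ[ℂ] (T.X j).R :=
    part (T.X j) {(d : ℤ)} ∘ₗ (LinearMap.id - pj (C.S j))
  have part_id : ∀ (w : ι) (x : (T.X w).R), part (T.X w) {(d : ℤ)} (part (T.X w) {(d : ℤ)} x) =
      part (T.X w) {(d : ℤ)} x := fun w x => LinearMap.congr_fun (part_idem (T.X w) _) x
  have ei_apply : ∀ x, ei x = part (T.X i) {(d : ℤ)} x - part (T.X i) {(d : ℤ)}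
      (pj (C.S i) x) := fun x => by
    change part (T.X i) {(d : ℤ)} (x - pj (C.S i) x) = _
    rw [map_sub]
  have ej_apply : ∀ x, ej x = part (T.X j) {(d : ℤ)} x - part (T.X j) {(d : ℤ)}
      (pj (C.S j) x) := fun x => by
    change part (T.X j) {(d : ℤ)} (x - pj (C.S j) x) = _
    rw [map_sub]
  have pi_apply : ∀ x, pi x = part (T.X i) {(d : ℤ)} (pj (C.S i) x) := fun x => rfl
  have pj_apply' : ∀ x, pj' x = part (T.X j) {(d : ℤ)} (pj (C.S j) x) := fun x => rfl
  refine cancel (p := pi) (e := ei) (p' := pj') (e' := ej)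
    (T.comp _ _ _ _ _ (C.pj_mem i) (T.part_mem _ _))
    (T.comp _ _ _ _ _ ((T.A i i).sub_mem (T.one i) (C.pj_mem i)) (T.part_mem _ _))
    (T.comp _ _ _ _ _ (C.pj_mem j) (T.part_mem _ _))
    (T.comp _ _ _ _ _ ((T.A j j).sub_mem (T.one j) (C.pj_mem j)) (T.part_mem _ _))
    ?_ ?_ ?_ ?_ ?_ ?_ ?_ ?_ ?_ ?_
  · ext x
    rw [LinearMap.comp_apply, pi_apply, pi_apply, pj_part', part_id, pj_pj]
  · ext x
    rw [LinearMap.comp_apply, ei_apply (ei x), ei_apply, map_sub, map_sub, map_sub, pj_part',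
      pj_part', pj_pj, part_id, part_id]
    abel
  · ext x
    rw [LinearMap.comp_apply, pi_apply, ei_apply, map_sub, pj_part', pj_part', pj_pj, sub_self,
      map_zero, LinearMap.zero_apply]
  · ext x
    rw [LinearMap.comp_apply, ei_apply, pi_apply, pj_part', pj_pj, sub_self, LinearMap.zero_apply]
  · ext x
    rw [LinearMap.comp_apply, pj_apply', pj_apply', pj_part', part_id, pj_pj]
  · ext x
    rw [LinearMap.comp_apply, ej_apply (ej x), ej_apply, map_sub, map_sub, map_sub, pj_part',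
      pj_part', pj_pj, part_id, part_id]
    abel
  · ext x
    rw [LinearMap.comp_apply, pj_apply', ej_apply, map_sub, pj_part', pj_part', pj_pj, sub_self,
      map_zero, LinearMap.zero_apply]
  · ext x
    rw [LinearMap.comp_apply, ej_apply, pj_apply', pj_part', pj_pj, sub_self, LinearMap.zero_apply]
  · obtain ⟨a1, ha1, b1, hb1, s1, s2⟩ := hd
    refine ⟨a1, ha1, b1, hb1, ?_, ?_⟩
    · rw [s1]
      ext x
      rw [LinearMap.add_apply, ei_apply, pi_apply]
      abel
    · rw [s2]
      ext x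
      rw [LinearMap.add_apply, ej_apply, pj_apply']
      abel
  · refine ⟨G ∘ₗ ei, T.comp _ _ _ _ _ (T.comp _ _ _ _ _ ((T.A i i).sub_mem (T.one i)
      (C.pj_mem i)) (T.part_mem _ _)) hG, G' ∘ₗ ej, T.comp _ _ _ _ _ (T.comp _ _ _ _ _
      ((T.A j j).sub_mem (T.one j) (C.pj_mem j)) (T.part_mem _ _)) hG', ?_, ?_⟩
    · ext x
      change G' (ej (G (ei x))) = ei x
      have t1 : ej (G (ei x)) = G (part (T.X i) {(d : ℤ)} (ei x)) := by
        rw [ej_apply, p1, ← d1, ← d1]
        have : pj (C.S i) (ei x) = 0 := by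
          rw [ei_apply, map_sub, pj_part', pj_part', pj_pj, sub_self]
        rw [this, map_zero, map_zero, sub_zero]
      rw [t1]
      have t2 := N1 (ei x)
      have t3 : part (T.X i) {(d : ℤ)} (ei x) = ei x := by
        rw [ei_apply, map_sub, part_id, part_id]
      have t4 : pj (C.S i) (ei x) = 0 := by
        rw [ei_apply, map_sub, pj_part', pj_part', pj_pj, sub_self]
      rw [t3, t4, add_zero] at t2
      rw [t3, t2]
    · ext x
      change G (ei (G' (ej x))) = ej x
      have t1 : ei (G' (ej x)) = G' (part (T.X j) {(d : ℤ)} (ej x)) := by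
        rw [ei_apply, p2, ← d2, ← d2]
        have : pj (C.S j) (ej x) = 0 := by
          rw [ej_apply, map_sub, pj_part', pj_part', pj_pj, sub_self]
        rw [this, map_zero, map_zero, sub_zero]
      rw [t1]
      have t2 := N2 (ej x)
      have t3 : part (T.X j) {(d : ℤ)} (ej x) = ej x := by
        rw [ej_apply, map_sub, part_id, part_id]
      have t4 : pj (C.S j) (ej x) = 0 := by
        rw [ej_apply, map_sub, pj_part', pj_part', pj_pj, sub_self]
      rw [t3, t4, add_zero] at t2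
      rw [t3, t2]

theorem killed_of (h : C.Equiv i j) (R : Scal C (fun b : Bool => cond b i j)) (d : ℕ)
    (hc : ∀ c : ℕ, c < d → (PT R).Iso true {(c : ℤ)} false {(c : ℤ)})
    (hd : T.Iso i {(d : ℤ)} j {(d : ℤ)}) : C.IsoKilled i j d := by
  obtain ⟨f, hf, g, hg, q1, q2, -, -, -, -, q7, q8⟩ := asm (T := PT R) d hc
  exact killed_aux h R d f hf g hg (LinearMap.congr_fun q1) (LinearMap.congr_fun q2) q7 q8 hd

/-- **Reduction to the degrees at most `n - a - 3`.** -/
theorem Act.Equiv.isoMotives_low (h : C.Equiv i j)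
    (hl : ∀ d : ℤ, 2 ≤ d → d + 3 ≤ m → T.Iso i {d} j {d}) : T.IsoMotives i j := by
  obtain ⟨R, hR⟩ := h.killed
  have key : ∀ N d : ℕ, d < N → (d : ℤ) + 3 ≤ m → (PT R).Iso true {(d : ℤ)} false {(d : ℤ)} := by
    intro N
    induction N with
    | zero => intro d hd; omega
    | succ N ih =>
      intro d hd hm
      by_cases h0 : d = 0
      · subst h0
        exact (PT R).iso_nonpos true false (by simp)
      · by_cases h1 : d = 1
        · subst h1
          exact_mod_cast P1_iso R h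
        · exact (killed_of h R d (fun c hc => ih c (by omega) (by omega))
            (hl d (by omega) hm)).iso R
  refine h.isoMotives_of R (hR.isoMotives fun d h1 h2 => ?_)
  obtain ⟨e, he⟩ := Int.eq_ofNat_of_zero_le (show 0 ≤ d by omega)
  rw [he] at h2 ⊢
  exact key (e + 1) e (by omega) h2

end Thy

end Pool.Agent.Helper86.Orl
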