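import Pool.Agent.Helper86.Orl.PTh
import Pool.Agent.Helper86.Orl.Gn

/-!
# Mukai pairings and the contraction with the abelian variety
-/

set_option autoImplicit false

open scoped ComplexConjugate
open Module Pool.Agent.W539.DI Pool.Agent.Helper30.DI Pool.Agent.Q8.OM

namespace Pool.Agent.Helper86.Orl

section Gen

variable {n a : ℕ} {X : KRing n} (S : AbelianSymmetry X a)

theorem dual_D (x : X.R) : X.dual (DD S x) = (-1 : ℂ) ^ a • DD S (X.dual x) := by
  refine X.ind (P := fun x => X.dual (DD S x) = (-1 : ℂ) ^ a • DD S (X.dual x)) (by simp)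
    (fun u v hu hv => by rw [map_add, map_add, hu, hv, map_add, map_add, smul_add])
    (fun p q x hx => ?_) x
  rw [X.dual_of (D_type S p q x hx), X.dual_of hx, map_smul, smul_smul]
  congr 1
  have : p - (a : ℤ) + (q - a) = (p + q) + 2 * (-(a : ℤ)) := by ring
  rw [this, zpow_add₀ Complex.I_ne_zero, mul_comm]
  congr 1
  rw [zpow_mul]
  have h2 : (Complex.I : ℂ) ^ (2 : ℤ) = -1 := by
    rw [show (2 : ℤ) = ((2 : ℕ) : ℤ) from rfl, zpow_natCast, Complex.I_sq]
  rw [h2, zpow_neg, zpow_natCast, ← inv_pow]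
  norm_num

/-- multiplication with an even killed class commutes with the contraction -/
theorem D_mul {w : X.R} (hw : w ∈ PP S) (hs : sg X w = w) (x : X.R) :
    DD S (w * x) = w * DD S x := by
  have h1 : ∀ k y, io S k (w * y) = w * io S k y := fun k y => by
    rw [io_mul, ((mem_PP S).mp hw k).1, zero_mul, zero_add, hs]
  have h2 : ∀ k y, ib S k (w * y) = w * ib S k y := fun k y => by
    rw [ib_mul, ((mem_PP S).mp hw k).2, zero_mul, zero_add, hs]
  have h3 : ∀ {N : ℕ} (c : Fin N → Module.End ℂ X.R), (∀ k y, c k (w * y) = w * c k y) →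
      ∀ y, pr c (w * y) = w * pr c y := by
    intro N c hc
    induction N with
    | zero => intro y; rw [pr_zero]; rfl
    | succ N ih =>
      intro y
      rw [pr_succ, Module.End.mul_apply, Module.End.mul_apply, ih _ (fun k => hc _), hc]
  rw [DD, LinearMap.smul_apply, LinearMap.smul_apply, D0, Module.End.mul_apply,
    Module.End.mul_apply, h3 _ h2, h3 _ h1, mul_smul_comm]

theorem c_PP (hc : ∀ k, io S k X.c = 0) : X.c ∈ PP S := by
  rw [mem_PP]
  refine fun k => ⟨hc k, ?_⟩
  change X.bar (io S k (X.bar X.c)) = 0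
  rw [X.c_bar, hc, map_zero]

theorem c_pow_PP (hc : ∀ k, io S k X.c = 0) (j : ℕ) : X.c ^ j ∈ PP S := by
  induction j with
  | zero => rw [pow_zero]; exact one_mem_PP S
  | succ j ih => rw [pow_succ]; exact mul_mem_PP S ih (c_PP S hc)

theorem expc_PP (hc : ∀ k, io S k X.c = 0) : X.expc ∈ PP S :=
  Submodule.sum_mem _ fun j _ => Submodule.smul_mem _ _ (c_pow_PP S hc j)

theorem sg_expc : sg X X.expc = X.expc := by
  unfold KRing.expc
  rw [map_sum]
  refine Finset.sum_congr rfl fun j _ => ?_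
  rw [map_smul, sg_of (X.pow_mem X.c_mem j), Even.neg_one_zpow ⟨_, rfl⟩, one_smul]

theorem expc_central (x : X.R) : X.expc * x = x * X.expc := by
  unfold KRing.expc
  rw [Finset.sum_mul, Finset.mul_sum]
  refine Finset.sum_congr rfl fun j _ => ?_
  rw [smul_mul_assoc, mul_smul_comm, even_central (X.pow_mem X.c_mem j) ⟨_, rfl⟩]

theorem mukai_D (hc : ∀ k, io S k X.c = 0) (u v : X.R) :
    X.mukai (DD S u) v = (-1 : ℂ) ^ a * X.mukai u (DD S v) := by
  unfold KRing.mukai
  rw [dual_D, smul_mul_assoc, mul_smul_comm, map_smul, smul_eq_mul]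
  congr 1
  rw [← mul_assoc, expc_central, mul_assoc, D_adj, D_mul S (expc_PP S hc) sg_expc, ← mul_assoc,
    ← expc_central, mul_assoc]

theorem dual_PP {x : X.R} (hx : x ∈ PP S) : X.dual x ∈ PP S := by
  have h : pj S (X.dual x) = X.dual (pj S x) := by
    refine X.ind (P := fun x => pj S (X.dual x) = X.dual (pj S x)) (by simp)
      (fun u v hu hv => by rw [map_add, map_add, hu, hv, map_add, map_add]) (fun p q x hx => ?_) x
    rw [X.dual_of hx, X.dual_of (pj_type S p q x hx), map_smul]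
  rw [pj_of S hx] at h
  rw [← h]
  exact pj_mem S _

theorem mukai_P (hc : ∀ k, io S k X.c = 0) {x : X.R} (hx : x ∈ PP S) (z : X.R) :
    X.mukai x z = X.mukai x (vol S * DD S z) := by
  unfold KRing.mukai
  have h1 : X.expc * X.dual x ∈ PP S := mul_mem_PP S (expc_PP S hc) (dual_PP S hx)
  rw [← mul_assoc, ← mul_assoc]
  have h2 : X.expc * X.dual x = DD S (MM S (X.expc * X.dual x)) := (DM S _ h1).symm
  nth_rewrite 1 [h2]
  rw [D_adj, MM_apply, vol_central, mul_assoc]

end Gen

section P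

variable {m a : ℕ} {X : KRing (m + a)} {S : AbelianSymmetry X a} {hA : Adapted S}
  {hc : ∀ k, io S k X.c = 0} {ρ : ℝ} {hρ : 0 < ρ}

theorem inc_expc : inc hA hc hρ (PR S hA hc ρ hρ).expc = X.expc := by
  unfold KRing.expc
  rw [map_sum]
  have h1 : ∀ j, m < j → X.c ^ j = 0 := by
    intro j hj
    have h2 : (PR S hA hc ρ hρ).c ^ j = 0 :=
      zero_of_type ((PR S hA hc ρ hρ).pow_mem (PR S hA hc ρ hρ).c_mem j)
        (Or.inr (Or.inr (Or.inl (by exact_mod_cast hj))))
    have h3 := congrArg (inc hA hc hρ) h2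
    rw [inc_pow, inc_c, map_zero] at h3
    exact h3
  rw [← Finset.sum_subset (Finset.range_mono (show m + 1 ≤ m + a + 1 by omega))]
  · refine Finset.sum_congr rfl fun j _ => ?_
    rw [map_smul, inc_pow, inc_c]
  · intro j _ hj
    rw [h1 j (by simpa using hj), smul_zero]

theorem inc_dual (x : (PR S hA hc ρ hρ).R) :
    inc hA hc hρ ((PR S hA hc ρ hρ).dual x) = X.dual (inc hA hc hρ x) := by
  refine (PR S hA hc ρ hρ).ind (P := fun x => inc hA hc hρ ((PR S hA hc ρ hρ).dual x) =
    X.dual (inc hA hc hρ x)) (by simp) (fun u v hu hv => by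
      rw [map_add, map_add, hu, hv, map_add, map_add]) (fun p q x hx => ?_) x
  rw [(PR S hA hc ρ hρ).dual_of hx, X.dual_of (mem_iff.mp hx), map_smul]

theorem mukai_PR (x y : (PR S hA hc ρ hρ).R) : (PR S hA hc ρ hρ).mukai x y =
    (ρ * sa a : ℝ) * X.mukai (inc hA hc hρ x) (vol S * inc hA hc hρ y) := by
  unfold KRing.mukai
  rw [tr_P, inc_mul, inc_mul, inc_expc, inc_dual]
  congr 2
  rw [vol_central, mul_assoc, mul_assoc, ← vol_central]

end P

end Pool.Agent.Helper86.Orl
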