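import Pool.Agent.Helper86.Orl.Cliff
import Pool.Agent.Helper30.DI.Sym

/-!
# The operators of an abelian variety of automorphisms
-/

set_option autoImplicit false

open scoped ComplexConjugate
open Module Pool.Agent.W539.DI Pool.Agent.Helper30.DI

namespace Pool.Agent.Helper86.Orl

section CJ

variable {n : ℕ} {X : KRing n}

/-- complex conjugation of operators -/
noncomputable def cj (f : Module.End ℂ X.R) : Module.End ℂ X.R := conjMap X f

theorem cj_apply (f : Module.End ℂ X.R) (x : X.R) : cj f x = X.bar (f (X.bar x)) := rfl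

theorem cj_cj (f : Module.End ℂ X.R) : cj (cj f) = f := by
  ext x
  rw [cj_apply, cj_apply, X.bar_bar, X.bar_bar]

theorem cj_mul (f g : Module.End ℂ X.R) : cj (f * g) = cj f * cj g := by
  ext x
  rw [Module.End.mul_apply, cj_apply, cj_apply, cj_apply, X.bar_bar, Module.End.mul_apply]

theorem cj_one : cj (1 : Module.End ℂ X.R) = 1 := by
  ext x
  rw [cj_apply, Module.End.one_apply, X.bar_bar, Module.End.one_apply]

theorem cj_zero : cj (0 : Module.End ℂ X.R) = 0 := by
  ext x
  rw [cj_apply, LinearMap.zero_apply, map_zero, LinearMap.zero_apply]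

theorem cj_add (f g : Module.End ℂ X.R) : cj (f + g) = cj f + cj g := by
  ext x
  rw [LinearMap.add_apply, cj_apply, cj_apply, cj_apply, LinearMap.add_apply, map_add]

theorem cj_neg (f : Module.End ℂ X.R) : cj (-f) = -cj f := by
  ext x
  rw [LinearMap.neg_apply, cj_apply, cj_apply, LinearMap.neg_apply, map_neg]

theorem cj_smul (z : ℂ) (f : Module.End ℂ X.R) : cj (z • f) = conj z • cj f := by
  ext x
  rw [LinearMap.smul_apply, cj_apply, cj_apply, LinearMap.smul_apply, LinearMap.map_smulₛₗ]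

theorem cj_pr {N : ℕ} (c : Fin N → Module.End ℂ X.R) : cj (pr c) = pr fun i => cj (c i) := by
  induction N with
  | zero => rw [pr_zero, pr_zero, cj_one]
  | succ N ih => rw [pr_succ, pr_succ, cj_mul, ih]

theorem cj_rp {N : ℕ} (c : Fin N → Module.End ℂ X.R) : cj (rp c) = rp fun i => cj (c i) := by
  induction N with
  | zero => rw [rp_zero, rp_zero, cj_one]
  | succ N ih => rw [rp_succ, rp_succ, cj_mul, ih]

theorem cj_mulLeft (z : X.R) : cj (LinearMap.mulLeft ℂ z) = LinearMap.mulLeft ℂ (X.bar z) := by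
  ext x
  rw [cj_apply, LinearMap.mulLeft_apply, LinearMap.mulLeft_apply, X.bar_mul, X.bar_bar]

theorem bar_one : X.bar 1 = 1 := by
  have h := X.bar_mul 1 (X.bar 1)
  rw [one_mul, X.bar_bar, mul_one] at h
  exact h.symm

theorem bar_inj {x y : X.R} (h : X.bar x = X.bar y) : x = y := by
  rw [← X.bar_bar x, h, X.bar_bar]

/-- multiplication operators -/
theorem mulLeft_mul' (x y : X.R) :
    (LinearMap.mulLeft ℂ (x * y) : Module.End ℂ X.R) = LinearMap.mulLeft ℂ x * LinearMap.mulLeft ℂ y := by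
  ext z
  rw [Module.End.mul_apply, LinearMap.mulLeft_apply, LinearMap.mulLeft_apply,
    LinearMap.mulLeft_apply, mul_assoc]

theorem mulLeft_one' : (LinearMap.mulLeft ℂ (1 : X.R) : Module.End ℂ X.R) = 1 := by
  ext z
  rw [LinearMap.mulLeft_apply, one_mul, Module.End.one_apply]

theorem mulLeft_rp {N : ℕ} (c : Fin N → X.R) :
    (LinearMap.mulLeft ℂ (rp c) : Module.End ℂ X.R) = rp fun i => LinearMap.mulLeft ℂ (c i) := by
  induction N with
  | zero => rw [rp_zero, rp_zero, mulLeft_one']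
  | succ N ih => rw [rp_succ, rp_succ, mulLeft_mul', ih]

theorem mulLeft_pr {N : ℕ} (c : Fin N → X.R) :
    (LinearMap.mulLeft ℂ (pr c) : Module.End ℂ X.R) = pr fun i => LinearMap.mulLeft ℂ (c i) := by
  induction N with
  | zero => rw [pr_zero, pr_zero, mulLeft_one']
  | succ N ih => rw [pr_succ, pr_succ, mulLeft_mul', ih]

/-- a product of homogeneous operators is homogeneous -/
theorem pr_mem_type {N : ℕ} (c : Fin N → Module.End ℂ X.R) (d e : ℤ)
    (h : ∀ i, ∀ (p q : ℤ) (x : X.R), x ∈ X.H (p, q) → c i x ∈ X.H (p + d, q + e)) (p q : ℤ)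
    (x : X.R) (hx : x ∈ X.H (p, q)) : pr c x ∈ X.H (p + N * d, q + N * e) := by
  induction N with
  | zero => rw [pr_zero, Module.End.one_apply]; simpa using hx
  | succ N ih =>
    rw [pr_succ, Module.End.mul_apply]
    have h1 := h 0 _ _ _ (ih (fun i => c i.succ) fun i => h _)
    convert h1 using 3 <;> (push_cast; ring)

theorem rp_mem_type {N : ℕ} (c : Fin N → Module.End ℂ X.R) (d e : ℤ)
    (h : ∀ i, ∀ (p q : ℤ) (x : X.R), x ∈ X.H (p, q) → c i x ∈ X.H (p + d, q + e)) (p q : ℤ)
    (x : X.R) (hx : x ∈ X.H (p, q)) : rp c x ∈ X.H (p + N * d, q + N * e) := by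
  induction N generalizing p q x with
  | zero => rw [rp_zero, Module.End.one_apply]; simpa using hx
  | succ N ih =>
    rw [rp_succ, Module.End.mul_apply]
    have h1 := ih (fun i => c i.succ) (fun i => h _) _ _ _ (h 0 _ _ _ hx)
    convert h1 using 3 <;> (push_cast; ring)

/-- the sign operator -/
noncomputable def sg (X : KRing n) : Module.End ℂ X.R :=
  DirectSum.toModule ℂ (ℤ × ℤ) X.R
      (fun pq => ((-1 : ℂ) ^ (pq.1 + pq.2)) • (X.H pq).subtype) ∘ₗ
    (DirectSum.decomposeLinearEquiv X.H).toLinearMap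

theorem sg_of {p q : ℤ} {x : X.R} (hx : x ∈ X.H (p, q)) : sg X x = (-1 : ℂ) ^ (p + q) • x := by
  unfold sg
  have e : DirectSum.decompose X.H x = DirectSum.of (fun i => X.H i) (p, q) ⟨x, hx⟩ :=
    DirectSum.decompose_of_mem X.H hx
  simp only [LinearMap.comp_apply, LinearEquiv.coe_coe, DirectSum.decomposeLinearEquiv_apply, e]
  have := DirectSum.toModule_lof ℂ (ι := ℤ × ℤ) (M := fun i => X.H i)
    (φ := fun pq : ℤ × ℤ => ((-1 : ℂ) ^ (pq.1 + pq.2)) • (X.H pq).subtype) (p, q)
    (⟨x, hx⟩ : X.H (p, q))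
  rw [DirectSum.lof_eq_of] at this
  rw [this]
  simp

theorem op_ext {f g : Module.End ℂ X.R} (h : ∀ p q x, x ∈ X.H (p, q) → f x = g x) : f = g := by
  ext x
  refine X.ind (P := fun x => f x = g x) (by simp) ?_ h x
  intro x y hx hy
  rw [map_add, map_add, hx, hy]

theorem sg_sg : sg X * sg X = 1 := by
  refine op_ext fun p q x hx => ?_
  rw [Module.End.mul_apply, sg_of hx, map_smul, sg_of hx, smul_smul, ← zpow_add₀ (by norm_num),
    Even.neg_one_zpow ⟨p + q, rfl⟩, one_smul, Module.End.one_apply]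

/-- odd operators anticommute with the sign -/
theorem sg_anti {f : Module.End ℂ X.R} (d e : ℤ) (hde : Odd (d + e))
    (h : ∀ (p q : ℤ) (x : X.R), x ∈ X.H (p, q) → f x ∈ X.H (p + d, q + e)) :
    sg X * f = -(f * sg X) := by
  refine op_ext fun p q x hx => ?_
  rw [Module.End.mul_apply, LinearMap.neg_apply, Module.End.mul_apply, sg_of hx, map_smul,
    sg_of (h p q x hx), ← neg_smul]
  congr 1
  rw [show p + d + (q + e) = p + q + (d + e) by ring, zpow_add₀ (by norm_num), hde.neg_one_zpow]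
  ring

end CJ

end Pool.Agent.Helper86.Orl
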