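import Pool.Agent.Helper86.Orl.Ring2

/-!
# The classes killed by the contractions form the cohomology of a manifold of smaller dimension
-/

set_option autoImplicit false

open scoped ComplexConjugate
open Module Pool.Agent.W539.DI Pool.Agent.Helper30.DI Pool.Agent.Q8.OM

namespace Pool.Agent.Helper86.Orl

variable {m a : ℕ} {X : KRing (m + a)} (S : AbelianSymmetry X a)

/-- the algebra of the classes killed by the contractions -/
noncomputable def PA : Subalgebra ℂ X.R where
  carrier := PP S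
  mul_mem' := mul_mem_PP S
  one_mem' := one_mem_PP S
  add_mem' := (PP S).add_mem
  zero_mem' := (PP S).zero_mem
  algebraMap_mem' r := by
    rw [Algebra.algebraMap_eq_smul_one]
    exact (PP S).smul_mem _ (one_mem_PP S)

theorem mem_PA {x : X.R} : x ∈ PA S ↔ x ∈ PP S := Iff.rfl

/-- the Hodge decomposition -/
noncomputable def PH (pq : ℤ × ℤ) : Submodule ℂ (PA S) :=
  (X.H pq).comap (PA S).val.toLinearMap

theorem mem_PH {pq : ℤ × ℤ} {x : PA S} : x ∈ PH S pq ↔ (x : X.R) ∈ X.H pq := Iff.rfl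

theorem PH_iSup : ⨆ pq, PH S pq = ⊤ := by
  classical
  rw [eq_top_iff]
  intro x _
  have h : x = ∑ i ∈ DFinsupp.support (DirectSum.decompose X.H (x : X.R)),
      (⟨cp X i x, cp_PP S x.2 i⟩ : PA S) := by
    apply Subtype.ext
    rw [AddSubmonoidClass.coe_finsetSum]
    exact (DirectSum.sum_support_decompose X.H (x : X.R)).symm
  rw [h]
  refine Submodule.sum_mem _ fun i _ => Submodule.mem_iSup_of_mem i ?_
  exact cp_mem i _

theorem PH_indep : iSupIndep (PH S) := by
  have h := (DirectSum.Decomposition.isInternal X.H).submodule_iSupIndep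
  intro i
  rw [Submodule.disjoint_def]
  intro x hx hx2
  have h1 := (Submodule.disjoint_def.mp (h i)) (x : X.R) hx
  apply Subtype.ext
  refine h1 ?_
  have h2 : (PA S).val.toLinearMap x ∈ (⨆ j, ⨆ (_ : j ≠ i), PH S j).map (PA S).val.toLinearMap :=
    Submodule.mem_map_of_mem hx2
  rw [Submodule.map_iSup] at h2
  have h3 : (⨆ j, Submodule.map (PA S).val.toLinearMap (⨆ (_ : j ≠ i), PH S j)) ≤
      ⨆ j, ⨆ (_ : j ≠ i), X.H j := iSup_mono fun j => by
    rw [Submodule.map_iSup]
    exact iSup_mono fun _ => Submodule.map_comap_le _ _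
  exact h3 h2

noncomputable instance PH_gr : GradedRing (PH S) where
  one_mem := X.one_mem
  mul_mem {i j} x y hx hy := by
    have := X.mul_mem (show (x : X.R) ∈ X.H (i.1, i.2) from hx) (show (y : X.R) ∈ X.H (j.1, j.2) from hy)
    exact this
  toDecomposition := (DirectSum.isInternal_submodule_of_iSupIndep_of_iSup_eq_top (PH_indep S)
    (PH_iSup S)).chooseDecomposition

theorem finrank_PH (pq : ℤ × ℤ) : finrank ℂ (PH S pq) = kd S pq.1 pq.2 := by
  have h : (PH S pq).map (PA S).val.toLinearMap = PP S ⊓ X.H pq := by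
    ext x
    constructor
    · rintro ⟨y, hy, rfl⟩
      exact ⟨y.2, hy⟩
    · rintro ⟨h1, h2⟩
      exact ⟨⟨x, h1⟩, h2, rfl⟩
  unfold kd
  rw [← h]
  exact (LinearEquiv.finrank_eq (Submodule.equivMapOfInjective _ Subtype.val_injective _))

/-- complex conjugation -/
noncomputable def Pbar : PA S →ₛₗ[starRingEnd ℂ] PA S where
  toFun x := ⟨X.bar x, bar_mem_PP S x.2⟩
  map_add' x y := Subtype.ext (map_add X.bar (x : X.R) y)
  map_smul' c x := Subtype.ext (LinearMap.map_smulₛₗ X.bar c (x : X.R))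

/-- the class `ω` -/
noncomputable def Pom : PA S := ⟨om S, om_PP S⟩

theorem coe_Pom_pow (k : ℕ) (x : PA S) : ((Pom S ^ k * x : PA S) : X.R) = om S ^ k * x := rfl

/-- **The cohomology ring of the quotient by the abelian variety.** -/
noncomputable def PR (hA : Adapted S) (hc : ∀ k, io S k X.c = 0) (ρ : ℝ) (hρ : 0 < ρ) :
    KRing m where
  R := PA S
  fin := FiniteDimensional.finiteDimensional_submodule (Subalgebra.toSubmodule (PA S))
  H := PH S
  van p q h := by
    rw [eq_bot_iff]
    intro x hx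
    rw [mem_PH, X.van p q h, Submodule.mem_bot] at hx
    rw [Submodule.mem_bot]
    exact Subtype.ext hx
  conn := by
    rw [finrank_PH]
    have : PP S ⊓ X.H (0, 0) = X.H (0, 0) := by
      refine inf_eq_right.mpr fun x hx => ?_
      rw [mem_PP]
      exact fun k => ⟨zero_of_type (io_type S k _ _ _ hx) (Or.inl (by norm_num)),
        zero_of_type (ib_type S k _ _ _ hx) (Or.inr (Or.inl (by norm_num)))⟩
    change finrank ℂ (PP S ⊓ X.H (0, 0) : Submodule ℂ X.R) = 1
    rw [this, X.conn]
  comm p q p' q' x y hx hy := Subtype.ext (X.comm p q p' q' x y hx hy)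
  bar := Pbar S
  bar_bar x := Subtype.ext (X.bar_bar x)
  bar_mul x y := Subtype.ext (X.bar_mul x y)
  bar_mem p q x hx := X.bar_mem p q x hx
  tr := ((ρ * sa a : ℝ) : ℂ) • (X.tr ∘ₗ (LinearMap.mulLeft ℂ (vol S)) ∘ₗ (PA S).val.toLinearMap)
  tr_van p q x hx h := by
    have h1 := X.mul_mem (vol_mem S) (show (x : X.R) ∈ X.H (p, q) from hx)
    have h2 : X.tr (vol S * x) = 0 := X.tr_van _ _ _ h1 (by push_cast; omega)
    change ((ρ * sa a : ℝ) : ℂ) * X.tr (vol S * x) = 0
    rw [h2, mul_zero]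
  tr_bar x := by
    change ((ρ * sa a : ℝ) : ℂ) * X.tr (vol S * X.bar x) =
      conj (((ρ * sa a : ℝ) : ℂ) * X.tr (vol S * x))
    rw [RingHom.map_mul, Complex.conj_ofReal, ← X.tr_bar, X.bar_mul, bar_vol]
  pd p q x hx h := by
    refine Subtype.ext (pd0 S hx x.2 fun y hy hyP => ?_)
    have h1 := h ⟨y, hyP⟩ (by
      rw [mem_PH]
      convert hy using 3 <;> (push_cast; ring))
    change ((ρ * sa a : ℝ) : ℂ) * X.tr (vol S * (x * y)) = 0 at h1
    refine (mul_eq_zero.mp h1).resolve_left ?_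
    refine Complex.ofReal_ne_zero.mpr (mul_ne_zero hρ.ne' fun h0 => ?_)
    have := sa_sq a
    rw [h0, mul_zero] at this
    exact zero_ne_one this
  ω := Pom S
  ω_mem := om_mem S
  ω_bar := Subtype.ext (om_bar S)
  hl_inj p q k h x hx h0 :=
    Subtype.ext (hl0 S hA h hx x.2 (congrArg Subtype.val h0))
  hl_surj p q k h y hy := by
    let f : PH S (p, q) →ₗ[ℂ] PH S (p + k, q + k) :=
      { toFun := fun x => ⟨Pom S ^ k * (x : PA S), by
          rw [mem_PH]
          exact X.pow_mul_mem (om_mem S) k x.2⟩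
        map_add' := fun x y => by ext; simp [mul_add]
        map_smul' := fun c x => by ext; simp }
    have hf : Function.Injective f := by
      rw [injective_iff_map_eq_zero]
      intro x hx
      have h1 : Pom S ^ k * (x : PA S) = 0 := congrArg Subtype.val hx
      exact Subtype.ext (Subtype.ext (hl0 S hA h x.2 x.1.2 (congrArg Subtype.val h1)))
    have hd : finrank ℂ (PH S (p, q)) = finrank ℂ (PH S (p + k, q + k)) := by
      rw [finrank_PH, finrank_PH]
      change kd S p q = kd S (p + k) (q + k)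
      rw [kd_swap, kd_dual]
      congr 1 <;> (push_cast; omega)
    have : FiniteDimensional ℂ (PA S) :=
      FiniteDimensional.finiteDimensional_submodule (Subalgebra.toSubmodule (PA S))
    obtain ⟨x, hx⟩ := (LinearMap.injective_iff_surjective_of_finrank_eq_finrank hd).mp hf ⟨y, hy⟩
    exact ⟨x, x.2, congrArg Subtype.val hx⟩
  hr p q k h x hx hx0 h0 := by
    obtain ⟨r, hr, h1⟩ := hr0 S hA h (x := (x : X.R)) hx x.2 (fun h2 => hx0 (Subtype.ext h2))
      (congrArg Subtype.val h0)
    refine ⟨ρ * r, mul_pos hρ hr, ?_⟩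
    change Complex.I ^ (p - q) * (-1 : ℂ) ^ ((p + q) * (p + q - 1) / 2) *
      (((ρ * sa a : ℝ) : ℂ) * X.tr (vol S * (om S ^ k * (x * X.bar x)))) = _
    push_cast
    rw [← h1]
    ring
  c := ⟨X.c, (mem_PP S).mpr fun k => ⟨hc k, by
    change X.bar (io S k (X.bar X.c)) = 0
    rw [X.c_bar, hc, map_zero]⟩⟩
  c_mem := X.c_mem
  c_bar := Subtype.ext X.c_bar

end Pool.Agent.Helper86.Orl
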