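import Pool.Agent.Helper86.Orl.Inc

/-!
# The class of correspondences between the killed classes
-/

set_option autoImplicit false

open scoped ComplexConjugate
open Module Pool.Agent.W539.DI Pool.Agent.Helper30.DI Pool.Agent.Q8.OM

namespace Pool.Agent.Helper86.Orl

/-- one step of the extension: `x ↦ ∑ b(w) f(ι_w x)` over the basis `form j`, `bar (form j)` -/
noncomputable def stepE {n a : ℕ} {X Y : KRing n} (S : AbelianSymmetry X a)
    (b f : X.R →ₗ[ℂ] Y.R) : X.R →ₗ[ℂ] Y.R :=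
  ∑ j, (LinearMap.mulLeft ℂ (b (S.form j)) ∘ₗ f ∘ₗ io S j +
    LinearMap.mulLeft ℂ (b (X.bar (S.form j))) ∘ₗ f ∘ₗ ib S j)

variable {m a : ℕ} {ι : Type}

structure Act (T : Theory (m + a) ι) where
  S : ∀ i, AbelianSymmetry (T.X i) a
  adapted : ∀ i, Adapted (S i)
  chern : ∀ i k, io (S i) k (T.X i).c = 0
  orbit : ∀ i, DD (S i) ∈ T.A i i
  fibre : ∀ i, MM (S i) ∈ T.A i i
  mul : ∀ i j, ∀ f ∈ T.A i j, LinearMap.mulLeft ℂ (f 1) ∈ T.A j j
  act : ∀ i j, ∀ b ∈ T.A i j, ∀ f ∈ T.A i j, stepE (S i) b f ∈ T.A i j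

variable {T : Theory (m + a) ι} (C : Act T)

theorem Act.pj_mem (i : ι) : pj (C.S i) ∈ T.A i i := T.comp _ _ _ _ _ (C.fibre i) (C.orbit i)

/-- a scaling of the killed classes -/
structure Scal {κ : Type} (C : Act T) (e : κ → ι) where
  ρ : κ → ℝ
  pos : ∀ k, 0 < ρ k
  mem : ∀ k, (ρ k : ℂ) • pj (C.S (e k)) ∈ T.A (e k) (e k)
  inv : ∀ k, ((ρ k)⁻¹ : ℂ) • pj (C.S (e k)) ∈ T.A (e k) (e k)

variable {C} {κ : Type} {e : κ → ι} (R : Scal C e)

/-- the ring -/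
noncomputable def PX (k : κ) : KRing m :=
  PR (C.S (e k)) (C.adapted (e k)) (C.chern (e k)) (R.ρ k) (R.pos k)

/-- the inclusion -/
noncomputable def I (k : κ) : (PX R k).R →ₗ[ℂ] (T.X (e k)).R :=
  inc (C.adapted (e k)) (C.chern (e k)) (R.pos k)

/-- the projection -/
noncomputable def J (k : κ) : (T.X (e k)).R →ₗ[ℂ] (PX R k).R :=
  prj (C.adapted (e k)) (C.chern (e k)) (R.pos k)

theorem IJ (k : κ) : I R k ∘ₗ J R k = pj (C.S (e k)) := rfl

theorem IJ_apply (k : κ) (x : (T.X (e k)).R) : I R k (J R k x) = pj (C.S (e k)) x := rfl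

theorem JI (k : κ) : J R k ∘ₗ I R k = LinearMap.id := by
  ext x
  exact prj_inc x

theorem JI_apply (k : κ) (x : (PX R k).R) : J R k (I R k x) = x := prj_inc x

theorem I_inj {k : κ} {x y : (PX R k).R} (h : I R k x = I R k y) : x = y := inc_inj h

theorem I_PP {k : κ} (x : (PX R k).R) : I R k x ∈ PP (C.S (e k)) := inc_PP x

/-- the correspondence on the whole cohomology -/
noncomputable def lft {k l : κ} (f : (PX R k).R →ₗ[ℂ] (PX R l).R) :
    (T.X (e k)).R →ₗ[ℂ] (T.X (e l)).R := I R l ∘ₗ f ∘ₗ J R k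

theorem lft_apply {k l : κ} (f : (PX R k).R →ₗ[ℂ] (PX R l).R) (x : (T.X (e k)).R) :
    lft R f x = I R l (f (J R k x)) := rfl

theorem lft_I {k l : κ} (f : (PX R k).R →ₗ[ℂ] (PX R l).R) (x : (PX R k).R) :
    lft R f (I R k x) = I R l (f x) := by rw [lft_apply, JI_apply]

theorem lft_add {k l : κ} (f g : (PX R k).R →ₗ[ℂ] (PX R l).R) :
    lft R (f + g) = lft R f + lft R g := by
  ext x
  simp only [lft_apply, LinearMap.add_apply, map_add]

theorem lft_smul {k l : κ} (c : ℂ) (f : (PX R k).R →ₗ[ℂ] (PX R l).R) :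
    lft R (c • f) = c • lft R f := by
  ext x
  simp only [lft_apply, LinearMap.smul_apply, map_smul]

theorem lft_zero {k l : κ} : lft R (0 : (PX R k).R →ₗ[ℂ] (PX R l).R) = 0 := by
  ext x
  simp only [lft_apply, LinearMap.zero_apply, map_zero]

theorem lft_comp {k l j : κ} (f : (PX R k).R →ₗ[ℂ] (PX R l).R) (g : (PX R l).R →ₗ[ℂ] (PX R j).R) :
    lft R (g ∘ₗ f) = lft R g ∘ₗ lft R f := by
  ext x
  rw [LinearMap.comp_apply, lft_apply R f, lft_I]
  rfl

theorem lft_pj {k l : κ} (f : (PX R k).R →ₗ[ℂ] (PX R l).R) (x : (T.X (e k)).R) :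
    lft R f (pj (C.S (e k)) x) = lft R f x := by
  rw [lft_apply, lft_apply, ← IJ_apply R, JI_apply]

theorem pj_lft {k l : κ} (f : (PX R k).R →ₗ[ℂ] (PX R l).R) (x : (T.X (e k)).R) :
    pj (C.S (e l)) (lft R f x) = lft R f x := pj_of _ (I_PP R _)

/-- a correspondence is the lift of its restriction -/
noncomputable def dsc {k l : κ} (F : (T.X (e k)).R →ₗ[ℂ] (T.X (e l)).R) :
    (PX R k).R →ₗ[ℂ] (PX R l).R := J R l ∘ₗ F ∘ₗ I R k

theorem lft_dsc {k l : κ} (F : (T.X (e k)).R →ₗ[ℂ] (T.X (e l)).R) :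
    lft R (dsc R F) = pj (C.S (e l)) ∘ₗ F ∘ₗ pj (C.S (e k)) := rfl

theorem dsc_lft {k l : κ} (f : (PX R k).R →ₗ[ℂ] (PX R l).R) : dsc R (lft R f) = f := by
  ext x
  change J R l (lft R f (I R k x)) = f x
  rw [lft_I, JI_apply]

/-- the correspondences between the killed classes -/
noncomputable def PAg (k l : κ) : AddSubgroup ((PX R k).R →ₗ[ℂ] (PX R l).R) :=
  (T.A (e k) (e l)).comap (AddMonoidHom.mk' (lft R) (lft_add R))

theorem mem_PAg {k l : κ} {f : (PX R k).R →ₗ[ℂ] (PX R l).R} :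
    f ∈ PAg R k l ↔ lft R f ∈ T.A (e k) (e l) := Iff.rfl

theorem dsc_mem {k l : κ} {F : (T.X (e k)).R →ₗ[ℂ] (T.X (e l)).R} (h : F ∈ T.A (e k) (e l)) :
    dsc R F ∈ PAg R k l := by
  rw [mem_PAg, lft_dsc]
  exact T.comp _ _ _ _ _ (T.comp _ _ _ _ _ (C.pj_mem _) h) (C.pj_mem _)

theorem PAg_comp {k l j : κ} {f : (PX R k).R →ₗ[ℂ] (PX R l).R} {g : (PX R l).R →ₗ[ℂ] (PX R j).R}
    (hf : f ∈ PAg R k l) (hg : g ∈ PAg R l j) : g ∘ₗ f ∈ PAg R k j := by
  rw [mem_PAg, lft_comp]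
  exact T.comp _ _ _ _ _ hf hg

theorem PAg_part (k : κ) (P : Set ℤ) : part (PX R k) P ∈ PAg R k k := by
  rw [mem_PAg]
  have h : lft R (part (PX R k) P) = part (T.X (e k)) P ∘ₗ pj (C.S (e k)) := by
    ext x
    rw [lft_apply]
    exact inc_part P (J R k x)
  rw [h]
  exact T.comp _ _ _ _ _ (C.pj_mem _) (T.part_mem _ _)

theorem PAg_lef (k : κ) : LinearMap.mulLeft ℂ (PX R k).ω ∈ PAg R k k := by
  rw [mem_PAg]
  have h : lft R (LinearMap.mulLeft ℂ (PX R k).ω) =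
      pj (C.S (e k)) ∘ₗ LinearMap.mulLeft ℂ (T.X (e k)).ω ∘ₗ pj (C.S (e k)) := by
    ext x
    rw [lft_apply]
    change om (C.S (e k)) * pj (C.S (e k)) x = pj (C.S (e k)) ((T.X (e k)).ω * pj (C.S (e k)) x)
    rw [pj_om (Pool.Agent.Helper86.Orl.pj_mem _ _)]
  rw [h]
  exact T.comp _ _ _ _ _ (T.comp _ _ _ _ _ (C.pj_mem _) (T.lef _)) (C.pj_mem _)

theorem PAg_rat {k l : κ} (q : ℚ) {f : (PX R k).R →ₗ[ℂ] (PX R l).R} (hf : f ∈ PAg R k l) :
    (q : ℂ) • f ∈ PAg R k l := by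
  rw [mem_PAg, lft_smul]
  exact T.rat _ _ _ _ hf

theorem PAg_one (k : κ) : LinearMap.id ∈ PAg R k k := by
  rw [mem_PAg]
  exact C.pj_mem _

theorem PAg_pow (k : κ) (j : ℕ) : LinearMap.mulLeft ℂ ((PX R k).ω ^ j) ∈ PAg R k k := by
  induction j with
  | zero =>
    have : LinearMap.mulLeft ℂ ((PX R k).ω ^ 0) = (LinearMap.id : (PX R k).R →ₗ[ℂ] (PX R k).R) := by
      rw [pow_zero]
      exact mulLeft_one'
    rw [this]
    exact PAg_one R k
  | succ j ih =>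
    rw [pow_succ, mulLeft_mul']
    exact PAg_comp R (PAg_lef R k) ih

theorem PAg_inv (k : κ) (j : ℕ) : ∃ θ ∈ PAg R k k, ∀ (p q : ℤ) (x : (PX R k).R),
    p + q + j = m → x ∈ (PX R k).H (p, q) → θ ((PX R k).ω ^ j * x) = x := by
  set f : (PX R k).R →ₗ[ℂ] (PX R k).R :=
    LinearMap.mulLeft ℂ ((PX R k).ω ^ j) ∘ₗ part (PX R k) {(m : ℤ) - j} with hf
  have hfA : f ∈ PAg R k k := PAg_comp R (PAg_part R k _) (PAg_pow R k j)
  obtain ⟨g, hg, hreg⟩ := T.regular hfA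
  refine ⟨part (PX R k) {(m : ℤ) - j} ∘ₗ dsc R g, PAg_comp R (dsc_mem R hg) (PAg_part R k _),
    fun p q x hpq hx => ?_⟩
  have hd : p + q ∈ ({(m : ℤ) - j} : Set ℤ) := by
    rw [Set.mem_singleton_iff]
    omega
  have hfx : f x = (PX R k).ω ^ j * x := by
    rw [hf, LinearMap.comp_apply, part_in _ hx hd, LinearMap.mulLeft_apply]
  set y := (part (PX R k) {(m : ℤ) - j} ∘ₗ dsc R g) ((PX R k).ω ^ j * x) with hy
  have hpy : part (PX R k) {(m : ℤ) - j} y = y := by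
    rw [hy, LinearMap.comp_apply]
    exact LinearMap.congr_fun (part_idem (PX R k) {(m : ℤ) - j}) _
  have hfp : ∀ z, f (part (PX R k) {(m : ℤ) - j} z) = f z := by
    intro z
    rw [hf, LinearMap.comp_apply, LinearMap.comp_apply]
    congr 1
    exact LinearMap.congr_fun (part_idem (PX R k) {(m : ℤ) - j}) _
  have hfy : f y = f x := by
    have hy' : y = part (PX R k) {(m : ℤ) - j} (dsc R g ((PX R k).ω ^ j * x)) := rfl
    rw [hy', hfp, ← hfx]
    change f (J R k (g (I R k (f x)))) = f x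
    apply I_inj
    have h1 := LinearMap.congr_fun hreg (I R k x)
    change lft R f (g (lft R f (I R k x))) = lft R f (I R k x) at h1
    rw [lft_I, lft_apply] at h1
    exact h1
  have h2 : (PX R k).ω ^ j * (y - x) = 0 := by
    have h3 : f (y - x) = 0 := by rw [map_sub, hfy, sub_self]
    rw [hf, LinearMap.comp_apply, map_sub, hpy, part_in _ hx hd, LinearMap.mulLeft_apply] at h3
    exact h3
  have h4 := lef_inj (X := PX R k) (k := j) (z := y - x) (by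
    rw [map_sub, hpy, part_in _ hx hd]) h2
  exact sub_eq_zero.mp h4

theorem PAg_scal {k l : κ} {f : (PX R k).R →ₗ[ℂ] (PX R l).R} (hf : f ∈ PAg R k l) :
    (R.ρ l : ℂ) • f ∈ PAg R k l := by
  rw [mem_PAg, lft_smul]
  have h : (R.ρ l : ℂ) • lft R f = ((R.ρ l : ℂ) • pj (C.S (e l))) ∘ₗ lft R f := by
    ext x
    rw [LinearMap.smul_apply, LinearMap.comp_apply, LinearMap.smul_apply, pj_lft]
  rw [h]
  exact T.comp _ _ _ _ _ hf (R.mem l)

theorem PAg_scal' {k l : κ} {f : (PX R k).R →ₗ[ℂ] (PX R l).R} (hf : f ∈ PAg R k l) :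
    (R.ρ k : ℂ) • f ∈ PAg R k l := by
  rw [mem_PAg, lft_smul]
  have h : (R.ρ k : ℂ) • lft R f = lft R f ∘ₗ ((R.ρ k : ℂ) • pj (C.S (e k))) := by
    ext x
    rw [LinearMap.smul_apply, LinearMap.comp_apply, LinearMap.smul_apply, map_smul, lft_pj]
  rw [h]
  exact T.comp _ _ _ _ _ (R.mem k) hf

theorem PAg_scal_inv {k l : κ} {f : (PX R k).R →ₗ[ℂ] (PX R l).R} (hf : f ∈ PAg R k l) :
    ((R.ρ l)⁻¹ : ℂ) • f ∈ PAg R k l := by
  rw [mem_PAg, lft_smul]
  have h : ((R.ρ l)⁻¹ : ℂ) • lft R f = (((R.ρ l)⁻¹ : ℂ) • pj (C.S (e l))) ∘ₗ lft R f := by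
    ext x
    rw [LinearMap.smul_apply, LinearMap.comp_apply, LinearMap.smul_apply, pj_lft]
  rw [h]
  exact T.comp _ _ _ _ _ hf (R.inv l)

theorem PX_tr (k : κ) (x : (PX R k).R) : (PX R k).tr x =
    (R.ρ k * sa a : ℝ) * (T.X (e k)).tr (vol (C.S (e k)) * I R k x) := rfl

theorem PAg_transp {k l : κ} {f : (PX R k).R →ₗ[ℂ] (PX R l).R} (hf : f ∈ PAg R k l) :
    ∃ g ∈ PAg R l k, ∀ x y, (PX R l).tr (f x * y) = (PX R k).tr (x * g y) := by
  obtain ⟨G, hG, hFG⟩ := T.transp _ _ _ hf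
  have hFG' : ∀ x y, (T.X (e l)).tr (lft R f x * y) = (T.X (e k)).tr (x * G y) := hFG
  refine ⟨((R.ρ k)⁻¹ : ℂ) • ((R.ρ l : ℂ) • dsc R (DD (C.S (e k)) ∘ₗ G ∘ₗ MM (C.S (e l)))),
    PAg_scal_inv R (PAg_scal' R (dsc_mem R (T.comp _ _ _ _ _ (T.comp _ _ _ _ _ (C.fibre _) hG)
      (C.orbit _)))), fun x y => ?_⟩
  rw [PX_tr, PX_tr, LinearMap.smul_apply, LinearMap.smul_apply, mul_smul_comm, mul_smul_comm,
    map_smul, map_smul, mul_smul_comm, mul_smul_comm, map_smul, map_smul, smul_eq_mul, smul_eq_mul]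
  have h1 : (T.X (e l)).tr (vol (C.S (e l)) * I R l (f x * y)) =
      (T.X (e k)).tr (I R k x * G (MM (C.S (e l)) (I R l y))) := by
    have h2 : vol (C.S (e l)) * I R l (f x * y) =
        lft R f (I R k x) * MM (C.S (e l)) (I R l y) := by
      rw [lft_I, MM_apply, ← mul_assoc, ← vol_central, mul_assoc]
      rfl
    rw [h2, hFG']
  have h3 : (T.X (e k)).tr (vol (C.S (e k)) *
      I R k (x * dsc R (DD (C.S (e k)) ∘ₗ G ∘ₗ MM (C.S (e l))) y)) =
      (T.X (e k)).tr (I R k x * G (MM (C.S (e l)) (I R l y))) := by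
    have h4 : I R k (x * dsc R (DD (C.S (e k)) ∘ₗ G ∘ₗ MM (C.S (e l))) y) =
        I R k x * DD (C.S (e k)) (G (MM (C.S (e l)) (I R l y))) := by
      have h5 : I R k (dsc R (DD (C.S (e k)) ∘ₗ G ∘ₗ MM (C.S (e l))) y) =
          DD (C.S (e k)) (G (MM (C.S (e l)) (I R l y))) := pj_D _ _
      rw [← h5]
      rfl
    rw [h4, ← mul_assoc, ← MM_apply, ← D_adj]
    congr 2
    exact DM _ _ (I_PP R x)
  rw [h1, h3]
  have h6 : (R.ρ k : ℂ) ≠ 0 := Complex.ofReal_ne_zero.mpr (R.pos k).ne'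
  push_cast
  field_simp

/-- the inverse of `ω ^ n` and the trace -/
theorem tr_top {n : ℕ} {X : KRing n} {θ : X.R →ₗ[ℂ] X.R}
    (h : ∀ (p q : ℤ) (x : X.R), p + q + n = n → x ∈ X.H (p, q) → θ (X.ω ^ n * x) = x) (z : X.R) :
    X.tr (X.ω ^ n * θ (part X {2 * (n : ℤ)} z)) = X.tr z := by
  have key : (X.tr ∘ₗ LinearMap.mulLeft ℂ (X.ω ^ n)) ∘ₗ θ ∘ₗ part X {2 * (n : ℤ)} = X.tr := by
    refine hom_ext' X fun p q z hz => ?_
    change X.tr (X.ω ^ n * θ (part X {2 * (n : ℤ)} z)) = X.tr z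
    by_cases hpq : p = n ∧ q = n
    · obtain ⟨rfl, rfl⟩ := hpq
      rw [part_in X hz (by rw [Set.mem_singleton_iff]; ring)]
      obtain ⟨x, hx, hxz⟩ := X.hl_surj 0 0 n (by ring) z (by rw [zero_add]; exact hz)
      rw [← hxz, h 0 0 x (by ring) hx]
    · have h0 : part X {2 * (n : ℤ)} z = 0 := by
        by_cases h2 : p + q = 2 * n
        · have : z = 0 := zero_of_type hz (by omega)
          rw [this, map_zero]
        · exact part_out X hz (by simpa using h2)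
      rw [h0, map_zero, mul_zero, map_zero, X.tr_van p q z hz hpq]
  exact LinearMap.congr_fun key z

theorem sa_rat (a : ℕ) : ∃ q : ℚ, (sa a : ℂ) = (q : ℂ) := by
  refine ⟨(-1) ^ (a * (a - 1) / 2), ?_⟩
  unfold sa
  push_cast
  rfl

theorem PAg_point (k l : κ) : LinearMap.toSpanSingleton ℂ (PX R l).R 1 ∘ₗ
    ((PX R k).tr ∘ₗ LinearMap.mulLeft ℂ ((PX R k).ω ^ m)) ∈ PAg R k l := by
  obtain ⟨θ, hθ, hθ'⟩ := T.inv (e k) (m + a)
  obtain ⟨q, hq⟩ := sa_rat a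
  have hpow : ∀ j : ℕ, LinearMap.mulLeft ℂ ((T.X (e k)).ω ^ j) ∈ T.A (e k) (e k) := by
    intro j
    induction j with
    | zero =>
      have : LinearMap.mulLeft ℂ ((T.X (e k)).ω ^ 0) =
          (LinearMap.id : (T.X (e k)).R →ₗ[ℂ] (T.X (e k)).R) := by
        rw [pow_zero]
        exact mulLeft_one'
      rw [this]
      exact T.one _
    | succ j ih =>
      rw [pow_succ, mulLeft_mul']
      exact T.comp _ _ _ _ _ (T.lef _) ih
  have h1 : (q : ℂ) • ((LinearMap.toSpanSingleton ℂ (T.X (e l)).R 1 ∘ₗ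
      ((T.X (e k)).tr ∘ₗ LinearMap.mulLeft ℂ ((T.X (e k)).ω ^ (m + a)))) ∘ₗ θ ∘ₗ
      part (T.X (e k)) {2 * ((m + a : ℕ) : ℤ)} ∘ₗ LinearMap.mulLeft ℂ ((T.X (e k)).ω ^ m) ∘ₗ
      MM (C.S (e k)) ∘ₗ ((R.ρ k : ℂ) • pj (C.S (e k)))) ∈ T.A (e k) (e l) :=
    T.rat _ _ _ _ (T.comp _ _ _ _ _ (T.comp _ _ _ _ _ (T.comp _ _ _ _ _ (T.comp _ _ _ _ _
      (T.comp _ _ _ _ _ (R.mem k) (C.fibre _)) (hpow m)) (T.part_mem _ _)) hθ) (T.point _ _))
  rw [mem_PAg]
  convert h1 using 1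
  ext x
  rw [lft_apply, LinearMap.smul_apply]
  simp only [LinearMap.comp_apply]
  rw [LinearMap.mulLeft_apply, LinearMap.mulLeft_apply, LinearMap.mulLeft_apply, tr_top hθ',
    LinearMap.smul_apply, map_smul, M_pj, mul_smul_comm, map_smul, smul_eq_mul,
    LinearMap.toSpanSingleton_apply, LinearMap.toSpanSingleton_apply, PX_tr, map_smul, smul_smul]
  have h2 : vol (C.S (e k)) * I R k ((PX R k).ω ^ m * J R k x) =
      (T.X (e k)).ω ^ m * MM (C.S (e k)) x := by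
    have h3 : I R k ((PX R k).ω ^ m * J R k x) = om (C.S (e k)) ^ m * pj (C.S (e k)) x := rfl
    rw [h3, vol_om_pow, vol_pj, MM_apply]
  rw [h2]
  have h4 : I R l 1 = 1 := rfl
  rw [h4]
  congr 1
  push_cast
  rw [hq]
  ring

/-- **The class of correspondences between the killed classes.** -/
noncomputable def PT : Theory m κ where
  X := PX R
  A := PAg R
  rat k l q f hf := PAg_rat R q hf
  fin k l := by
    obtain ⟨N, hN⟩ := T.fin (e k) (e l)
    refine ⟨N, fun f hf => ?_⟩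
    obtain ⟨q, hq, h⟩ := hN (fun j => lft R (f j)) hf
    refine ⟨q, hq, ?_⟩
    have h1 : lft R (∑ j, (q j : ℂ) • f j) = 0 := by
      have e1 : ∀ s : Finset (Fin N), lft R (∑ j ∈ s, (q j : ℂ) • f j) =
          ∑ j ∈ s, (q j : ℂ) • lft R (f j) := by
        intro s
        induction s using Finset.cons_induction with
        | empty => rw [Finset.sum_empty, Finset.sum_empty, lft_zero]
        | cons j s hj ih => rw [Finset.sum_cons, Finset.sum_cons, lft_add, ih, lft_smul]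
      rw [e1, h]
    rw [← dsc_lft R (∑ j, (q j : ℂ) • f j), h1]
    ext x
    change J R l 0 = 0
    exact map_zero _
  one k := PAg_one R k
  comp i j k f g hf hg := PAg_comp R hf hg
  real k l f hf x := by
    apply I_inj
    rw [← lft_I]
    have h := T.real _ _ _ hf (I R k x)
    change lft R f ((T.X (e k)).bar (I R k x)) = (T.X (e l)).bar (lft R f (I R k x)) at h
    rw [lft_I] at h
    exact h
  hodge k l f hf p q x hx := by
    have h1 := T.hodge _ _ _ hf p q (I R k x) hx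
    change lft R f (I R k x) ∈ _ at h1
    rw [lft_I] at h1
    have h2 : f x = J R l (I R l (f x)) := (JI_apply R l _).symm
    rw [h2]
    have h3 := Submodule.mem_map_of_mem (f := J R l) h1
    rw [Submodule.map_iSup] at h3
    refine (iSup_mono fun j => ?_ : (⨆ j : ℤ, Submodule.map (J R l)
      ((T.X (e l)).H (p + j, q + j))) ≤ ⨆ j : ℤ, (PX R l).H (p + j, q + j)) h3
    rintro _ ⟨y, hy, rfl⟩
    exact prj_mem hy
  transp k l f hf := PAg_transp R hf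
  deg k d := PAg_part R k {d}
  lef k := PAg_lef R k
  inv k j := PAg_inv R k j
  point k l := PAg_point R k l

end Pool.Agent.Helper86.Orl
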