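import Pool.Agent.Helper86.Orl.Ext

/-!
# The classes of degree one
-/

set_option autoImplicit false

open scoped ComplexConjugate
open Module Pool.Agent.W539.DI Pool.Agent.Helper30.DI Pool.Agent.Q8.OM

namespace Pool.Agent.Helper86.Orl

section Gen

variable {n a : ℕ} {X Y : KRing n} (S : AbelianSymmetry X a) (S' : AbelianSymmetry Y a)

theorem ic_form (b : Fin a → ℂ) (j : Fin a) : ic S b (S.form j) = b j • 1 := by
  rw [ic_apply, Finset.sum_eq_single j]
  · rw [io_form, if_pos rfl]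
  · intro k _ hk
    rw [io_form, if_neg hk, smul_zero]
  · intro h
    exact absurd (Finset.mem_univ j) h

theorem mem_PP_of {v : X.R} (hv : v ∈ X.H (0, 1)) (h : ∀ k, ib S k v = 0) : v ∈ PP S := by
  rw [mem_PP]
  exact fun k => ⟨zero_of_type (io_type S k _ _ _ hv) (Or.inl (by norm_num)), h k⟩

/-- the killed classes of degree one are in the radical -/
theorem rad {w : X.R} (hw : w ∈ X.H (0, 1)) (hP : w ∈ PP S) {z : Module.End ℂ X.R}
    (hz : InV S z) : LinearMap.mulLeft ℂ w * cj z + cj z * LinearMap.mulLeft ℂ w = 0 := by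
  obtain ⟨b, β, hβ, rfl⟩ := hz
  have h1 := icb_odd S b hw (by decide)
  have h2 : cj (ic S b) w = 0 := by
    rw [icb_apply, Finset.sum_eq_zero]
    intro k _
    rw [((mem_PP S).mp hP k).2, smul_zero]
  have h3 : (LinearMap.mulLeft ℂ w * LinearMap.mulLeft ℂ (X.bar β) : Module.End ℂ X.R) =
      -(LinearMap.mulLeft ℂ (X.bar β) * LinearMap.mulLeft ℂ w) := by
    rw [← mulLeft_mul', odd_anti hw (X.bar_mem _ _ _ hβ) (by decide) (by decide), ← mulLeft_mul']
    ext x
    simp [mul_assoc]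
  rw [h2, mulLeft_zero'] at h1
  rw [cj_add, cj_mulLeft, mul_add, add_mul, h3]
  calc _ = cj (ic S b) * LinearMap.mulLeft ℂ w + LinearMap.mulLeft ℂ w * cj (ic S b) := by abel
    _ = 0 := h1

variable {φ : X.R →ₗ[ℂ] Y.R} {ψ : Y.R →ₗ[ℂ] X.R}

theorem cg_cg (hψφ : ∀ x, ψ (φ x) = x) (z : Module.End ℂ X.R) : cg φ ψ (cg ψ φ z) = z := by
  ext x
  rw [cg_apply, cg_apply, hψφ, hψφ]

theorem brk_cg (hψφ : ∀ x, ψ (φ x) = x) (hφψ : ∀ y, φ (ψ y) = y) (z : Module.End ℂ X.R)
    (w : Module.End ℂ Y.R) :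
    cg ψ φ z * w + w * cg ψ φ z = cg ψ φ (z * cg φ ψ w + cg φ ψ w * z) := by
  have e : cg ψ φ (cg φ ψ w) = w := by
    ext y
    rw [cg_apply, cg_apply, hφψ, hφψ]
  rw [cg_add, cg_mul hψφ, cg_mul hψφ, e]

/-- the radical is preserved -/
theorem rad_aux (hψφ : ∀ x, ψ (φ x) = x) (hφψ : ∀ y, φ (ψ y) = y)
    (hφ : ∀ x, φ (X.bar x) = Y.bar (φ x)) (hψ : ∀ y, ψ (Y.bar y) = X.bar (ψ y))
    (hR : ∀ z, InV S z → InV S' (cg ψ φ z)) (hR' : ∀ z, InV S' z → InV S (cg φ ψ z))
    {w : X.R} (hw : w ∈ X.H (0, 1)) (hP : w ∈ PP S) :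
    ∃ γ ∈ Y.H (0, 1), γ ∈ PP S' ∧ cg ψ φ (LinearMap.mulLeft ℂ w) = LinearMap.mulLeft ℂ γ := by
  obtain ⟨b, γ, hγ, hb⟩ := hR _ (InV_mul S hw)
  have h0 : ∀ z, InV S' z → cg ψ φ (LinearMap.mulLeft ℂ w) * cj z +
      cj z * cg ψ φ (LinearMap.mulLeft ℂ w) = 0 := by
    intro z hz
    rw [brk_cg hψφ hφψ, ← cj_cg hφ hψ, rad S hw hP (hR' z hz), cg_zero]
  have hb0 : b = 0 := by
    funext k
    have h1 := h0 _ (InV_mul S' (Y.bar_mem _ _ _ (S'.form_mem k)))
    rw [cj_mulLeft, Y.bar_bar, hb] at h1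
    have h2 := ic_odd S' b (S'.form_mem k) (by decide)
    have h3 : (LinearMap.mulLeft ℂ γ * LinearMap.mulLeft ℂ (S'.form k) : Module.End ℂ Y.R) =
        -(LinearMap.mulLeft ℂ (S'.form k) * LinearMap.mulLeft ℂ γ) := by
      rw [← mulLeft_mul', odd_anti hγ (S'.form_mem k) (by decide) (by decide), ← mulLeft_mul']
      ext x
      simp [mul_assoc]
    rw [add_mul, mul_add, h3] at h1
    have h4 : ic S' b * LinearMap.mulLeft ℂ (S'.form k) + LinearMap.mulLeft ℂ (S'.form k) *
        ic S' b = 0 := by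
      rw [← h1]
      abel
    rw [h4, ic_form] at h2
    have h5 := LinearMap.congr_fun h2 1
    rw [LinearMap.zero_apply, LinearMap.mulLeft_apply, mul_one] at h5
    have h6 : (b k) • (1 : Y.R) = (0 : ℂ) • 1 := by rw [← h5, zero_smul]
    exact smul_one_inj h6
  rw [hb0, ic_zero, zero_add] at hb
  refine ⟨γ, hγ, mem_PP_of S' hγ fun k => ?_, hb⟩
  have h1 := h0 _ (InV_io S' k)
  rw [cj_io, hb] at h1
  have h2 := icb_odd S' (Pi.single k 1) hγ (by decide)
  rw [ic_single, cj_io, add_comm, h1] at h2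
  have h3 := LinearMap.congr_fun h2 1
  rw [LinearMap.zero_apply, LinearMap.mulLeft_apply, mul_one] at h3
  exact h3.symm

/-- the forms and the killed classes -/
theorem pj_01 {v : X.R} (hv : v ∈ X.H (0, 1)) :
    v - pj S v = ∑ k, sc X (ib S k v) • X.bar (S.form k) := by
  set v' := v - ∑ k, sc X (ib S k v) • X.bar (S.form k) with hv'
  have h1 : v' ∈ X.H (0, 1) := Submodule.sub_mem _ hv (Submodule.sum_mem _ fun k _ =>
    Submodule.smul_mem _ _ (X.bar_mem _ _ _ (S.form_mem k)))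
  have h2 : v' ∈ PP S := by
    refine mem_PP_of S h1 fun l => ?_
    have e : ∑ k, sc X (ib S k v) • ib S l (X.bar (S.form k)) = ib S l v := by
      rw [Finset.sum_eq_single l]
      · rw [ib_bform, if_pos rfl]
        exact sc_spec (ib_type S l _ _ _ hv)
      · intro k _ hk
        rw [ib_bform, if_neg (Ne.symm hk), smul_zero]
      · intro h
        exact absurd (Finset.mem_univ l) h
    rw [hv', map_sub, map_sum, Finset.sum_congr rfl fun k _ => map_smul (ib S l) _ _, e, sub_self]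
  have h3 : pj S v = v' := by
    have e : v = v' + ∑ k, sc X (ib S k v) • X.bar (S.form k) := by rw [hv']; abel
    have e2 : pj S (∑ k, sc X (ib S k v) • X.bar (S.form k)) = 0 := by
      rw [map_sum]
      refine Finset.sum_eq_zero fun k _ => ?_
      rw [map_smul]
      have := pj_tb S k 1
      rw [mul_one] at this
      rw [this, smul_zero]
    rw [e, map_add, e2, add_zero, pj_of S h2]
  rw [h3, hv']
  abel

theorem pj_10 {v : X.R} (hv : v ∈ X.H (1, 0)) :
    v - pj S v = ∑ k, sc X (io S k v) • S.form k := by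
  have h := congrArg X.bar (pj_01 S (X.bar_mem _ _ _ hv))
  rw [map_sub, pj_bar, X.bar_bar, X.bar_bar, map_sum] at h
  rw [h]
  refine Finset.sum_congr rfl fun k _ => ?_
  rw [LinearMap.map_smulₛₗ, X.bar_bar]
  congr 1
  have h1 : io S k v ∈ X.H (0, 0) := io_type S k _ _ _ hv
  obtain ⟨c, hc⟩ := H00 X h1
  have h2 : ib S k (X.bar v) = X.bar (io S k v) := by
    change X.bar (io S k (X.bar (X.bar v))) = _
    rw [X.bar_bar]
  rw [h2, hc, LinearMap.map_smulₛₗ, bar_one, sc_smul_one, sc_smul_one, Complex.conj_conj]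

/-- the projection on the span of the forms -/
noncomputable def Pi1 : X.R →ₗ[ℂ] X.R := (LinearMap.id - pj S) ∘ₗ part X {1}

theorem Pi1_apply (z : X.R) : Pi1 S z = part X {1} z - pj S (part X {1} z) := rfl

theorem Pi1_form (k : Fin a) : Pi1 S (S.form k) = S.form k := by
  have h := pj_tt S k 1
  rw [mul_one] at h
  rw [Pi1_apply, part_in X (S.form_mem k) (by simp), h, sub_zero]

theorem Pi1_bform (k : Fin a) : Pi1 S (X.bar (S.form k)) = X.bar (S.form k) := by
  have h := pj_tb S k 1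
  rw [mul_one] at h
  rw [Pi1_apply, part_in X (X.bar_mem _ _ _ (S.form_mem k)) (by simp), h, sub_zero]

theorem Pi1_span (z : X.R) : ∃ c d : Fin a → ℂ,
    Pi1 S z = ∑ k, c k • S.form k + ∑ k, d k • X.bar (S.form k) := by
  refine X.ind (P := fun z => ∃ c d : Fin a → ℂ,
    Pi1 S z = ∑ k, c k • S.form k + ∑ k, d k • X.bar (S.form k))
    ⟨0, 0, by simp⟩ ?_ ?_ z
  · rintro x y ⟨c, d, h⟩ ⟨c', d', h'⟩
    refine ⟨c + c', d + d', ?_⟩
    rw [map_add, h, h']
    simp only [Pi.add_apply, add_smul, Finset.sum_add_distrib]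
    abel
  · intro p q x hx
    by_cases h1 : p + q = 1
    · rw [Pi1_apply, part_in X hx (by simpa using h1)]
      by_cases h2 : p = 0
      · have h3 : q = 1 := by omega
        rw [h2, h3] at hx
        exact ⟨0, fun k => sc X (ib S k x), by rw [pj_01 S hx]; simp⟩
      · by_cases h4 : p = 1
        · have h3 : q = 0 := by omega
          rw [h4, h3] at hx
          exact ⟨fun k => sc X (io S k x), 0, by rw [pj_10 S hx]; simp⟩
        · have h5 : x = 0 := zero_of_type hx (by omega)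
          exact ⟨0, 0, by rw [h5]; simp⟩
    · exact ⟨0, 0, by rw [Pi1_apply, part_out X hx (by simpa using h1)]; simp⟩

theorem Pi1_idem (z : X.R) : Pi1 S (Pi1 S z) = Pi1 S z := by
  obtain ⟨c, d, h⟩ := Pi1_span S z
  rw [h, map_add, map_sum, map_sum]
  congr 1
  · exact Finset.sum_congr rfl fun k _ => by rw [map_smul, Pi1_form]
  · exact Finset.sum_congr rfl fun k _ => by rw [map_smul, Pi1_bform]

/-- **A generic twist, for the forms.** -/
theorem exists_s (hψφ : ∀ x, ψ (φ x) = x) (hφψ : ∀ y, φ (ψ y) = y)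
    (hφ : ∀ x, φ (X.bar x) = Y.bar (φ x)) (hψ : ∀ y, ψ (Y.bar y) = X.bar (ψ y))
    (hR : ∀ z, InV S z → InV S' (cg ψ φ z)) (b : Fin a → Fin a → ℂ) (γ : Fin a → Y.R)
    (hγ : ∀ j, γ j ∈ Y.H (0, 1))
    (hb : ∀ j, cg ψ φ (LinearMap.mulLeft ℂ (X.bar (S.form j))) =
      ic S' (b j) + LinearMap.mulLeft ℂ (γ j)) :
    ∃ s : ℚ, (Matrix.of fun j k => sc Y (ib S' k (γ j - (s : ℂ) • ic S' (b j) Y.ω))).det ≠ 0 := by
  let M0 : Matrix (Fin a) (Fin a) ℂ := Matrix.of fun j k => sc Y (ib S' k (γ j))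
  let M1 : Matrix (Fin a) (Fin a) ℂ := Matrix.of fun j k => -sc Y (ib S' k (ic S' (b j) Y.ω))
  have hM : ∀ s : ℂ, M0 + s • M1 + (s ^ 2) • (0 : Matrix (Fin a) (Fin a) ℂ) =
      Matrix.of fun j k => sc Y (ib S' k (γ j - s • ic S' (b j) Y.ω)) := by
    intro s
    ext j k
    simp only [M0, M1, Matrix.add_apply, Matrix.smul_apply, Matrix.of_apply, map_sub, map_smul,
      smul_eq_mul, smul_zero, Matrix.zero_apply]
    ring
  have hI : (M0 + Complex.I • M1 + (Complex.I ^ 2) • (0 : Matrix (Fin a) (Fin a) ℂ)).det ≠ 0 := by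
    intro h0
    obtain ⟨c, hc0, hc⟩ := Matrix.exists_vecMul_eq_zero_iff.mpr h0
    rw [hM] at hc
    set B : Fin a → ℂ := ∑ k, c k • b k with hB
    set Γ : Y.R := ∑ k, c k • γ k with hΓ
    set w : X.R := ∑ k, c k • X.bar (S.form k) with hw
    have hwm : w ∈ X.H (0, 1) := Submodule.sum_mem _ fun k _ => Submodule.smul_mem _ _
      (X.bar_mem _ _ _ (S.form_mem k))
    have hΓm : Γ ∈ Y.H (0, 1) := Submodule.sum_mem _ fun k _ => Submodule.smul_mem _ _ (hγ k)
    have icsum : ic S' B = ∑ k, c k • ic S' (b k) := by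
      have : ∀ s : Finset (Fin a), ic S' (∑ k ∈ s, c k • b k) = ∑ k ∈ s, c k • ic S' (b k) := by
        intro s
        induction s using Finset.cons_induction with
        | empty => rw [Finset.sum_empty, Finset.sum_empty, ic_zero]
        | cons j s hj ih => rw [Finset.sum_cons, Finset.sum_cons, ic_add, ic_smul, ih]
      exact this _
    have mlsum : ∀ {Z : KRing n} (f : Fin a → Z.R),
        (LinearMap.mulLeft ℂ (∑ k, c k • f k) : Module.End ℂ Z.R) =
        ∑ k, c k • LinearMap.mulLeft ℂ (f k) := by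
      intro Z f
      ext x
      rw [LinearMap.mulLeft_apply, Finset.sum_mul, LinearMap.sum_apply]
      exact Finset.sum_congr rfl fun k _ => by
        rw [smul_mul_assoc, LinearMap.smul_apply, LinearMap.mulLeft_apply]
    have hu : cg ψ φ (LinearMap.mulLeft ℂ w) = ic S' B + LinearMap.mulLeft ℂ Γ := by
      have e2 : ∀ s : Finset (Fin a),
          cg ψ φ (∑ k ∈ s, c k • LinearMap.mulLeft ℂ (X.bar (S.form k))) =
          ∑ k ∈ s, c k • cg ψ φ (LinearMap.mulLeft ℂ (X.bar (S.form k))) := by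
        intro s
        induction s using Finset.cons_induction with
        | empty => rw [Finset.sum_empty, Finset.sum_empty, cg_zero]
        | cons j s hj ih => rw [Finset.sum_cons, Finset.sum_cons, cg_add, cg_smul, ih]
      rw [hw, mlsum, e2, icsum, hΓ, mlsum, ← Finset.sum_add_distrib]
      exact Finset.sum_congr rfl fun k _ => by rw [hb, smul_add]
    have hl : ∀ l, ib S' l Γ = Complex.I • ib S' l (ic S' B Y.ω) := by
      intro l
      have h1 : ∑ k, c k * sc Y (ib S' l (γ k - Complex.I • ic S' (b k) Y.ω)) = 0 := congrFun hc l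
      have h2 : sc Y (ib S' l (Γ - Complex.I • ic S' B Y.ω)) = 0 := by
        rw [← h1, hΓ, icsum, LinearMap.sum_apply, Finset.smul_sum, ← Finset.sum_sub_distrib,
          map_sum, map_sum]
        refine Finset.sum_congr rfl fun k _ => ?_
        rw [LinearMap.smul_apply, smul_comm, ← smul_sub, map_smul, map_smul, smul_eq_mul]
      have h3 : ib S' l (Γ - Complex.I • ic S' B Y.ω) ∈ Y.H (0, 0) :=
        ib_type S' l _ _ _ (Submodule.sub_mem _ hΓm (Submodule.smul_mem _ _
          (ic_type S' B _ _ _ Y.ω_mem)))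
      have h4 := sc_zero h3 h2
      rw [map_sub, map_smul, sub_eq_zero] at h4
      exact h4
    obtain ⟨r, hr0, hr1, hr⟩ := pos S' B
    have f1 := herm_form S' B hΓm
    have g1 : cj (ic S' B) Γ = (-(r : ℂ)) • 1 := by
      have e1 : cj (ic S' B) Γ = Complex.I • cj (ic S' B) (ic S' B Y.ω) := by
        rw [icb_apply, icb_apply, Finset.smul_sum]
        refine Finset.sum_congr rfl fun l _ => ?_
        rw [hl, smul_comm]
      have e2 : cj (ic S' B) (ic S' B Y.ω) = -ic S' B (cj (ic S' B) Y.ω) := by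
        have := LinearMap.congr_fun (ic_icb S' B B) Y.ω
        rw [LinearMap.neg_apply, Module.End.mul_apply, Module.End.mul_apply] at this
        rw [this, neg_neg]
      rw [e1, e2, hr, ← neg_smul, smul_smul]
      congr 1
      linear_combination (r : ℂ) * Complex.I_mul_I
    have g2 : ic S' B (Y.bar Γ) = (-(r : ℂ)) • 1 := by
      have e1 : ic S' B (Y.bar Γ) = Y.bar (cj (ic S' B) Γ) := by
        rw [cj_apply, Y.bar_bar]
      rw [e1, g1, LinearMap.map_smulₛₗ, bar_one, map_neg, Complex.conj_ofReal]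
    have f2 : (LinearMap.mulLeft ℂ w * cj (LinearMap.mulLeft ℂ w) + cj (LinearMap.mulLeft ℂ w) *
        LinearMap.mulLeft ℂ w : Module.End ℂ X.R) = 0 := by
      rw [cj_mulLeft, ← mulLeft_mul', ← mulLeft_mul', odd_anti hwm (X.bar_mem _ _ _ hwm)
        (by decide) (by decide)]
      ext x
      simp [mul_assoc]
    have f3 : cg ψ φ (LinearMap.mulLeft ℂ w * cj (LinearMap.mulLeft ℂ w) +
        cj (LinearMap.mulLeft ℂ w) * LinearMap.mulLeft ℂ w) =
        cg ψ φ (LinearMap.mulLeft ℂ w) * cj (cg ψ φ (LinearMap.mulLeft ℂ w)) +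
          cj (cg ψ φ (LinearMap.mulLeft ℂ w)) * cg ψ φ (LinearMap.mulLeft ℂ w) := by
      rw [cg_add, cg_mul hψφ, cg_mul hψφ, cj_cg hψ hφ]
    rw [f2, cg_zero, hu, f1, g1, g2, ← add_smul, mulLeft_smul', mulLeft_one'] at f3
    have f4 := LinearMap.congr_fun f3 1
    rw [LinearMap.zero_apply, LinearMap.smul_apply, Module.End.one_apply] at f4
    have f5 : (0 : ℂ) • (1 : Y.R) = (-(r : ℂ) + -(r : ℂ)) • 1 := by rw [← f4, zero_smul]
    have f6 := smul_one_inj f5
    have f7 : r = 0 := by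
      have : (0 : ℝ) = -r + -r := by exact_mod_cast f6
      linarith
    have hB0 : B = 0 := hr1 f7
    have hΓP : Γ ∈ PP S' := by
      refine mem_PP_of S' hΓm fun l => ?_
      rw [hl, hB0, ic_zero, LinearMap.zero_apply, map_zero, smul_zero]
    rw [hB0, ic_zero, zero_add] at hu
    apply hc0
    funext k
    have h1 := rad S' hΓm hΓP (hR _ (InV_io S k))
    rw [← hu, cj_cg hψ hφ, cj_io, ← cg_mul hψφ, ← cg_mul hψφ, ← cg_add] at h1
    have h2 := congrArg (cg φ ψ) h1
    rw [cg_cg hψφ, cg_zero] at h2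
    have h3 := icb_odd S (Pi.single k 1) hwm (by decide)
    rw [ic_single, cj_io, add_comm, h2] at h3
    have h4 := LinearMap.congr_fun h3 1
    rw [LinearMap.zero_apply, LinearMap.mulLeft_apply, mul_one, hw, map_sum,
      Finset.sum_eq_single k] at h4
    · rw [map_smul, ib_bform, if_pos rfl] at h4
      have h5 : c k • (1 : X.R) = (0 : ℂ) • 1 := by rw [← h4, zero_smul]
      exact smul_one_inj h5
    · intro j _ hj
      rw [map_smul, ib_bform, if_neg (Ne.symm hj), smul_zero]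
    · intro h
      exact absurd (Finset.mem_univ k) h
  obtain ⟨s, hs⟩ := exists_rat M0 M1 0 hI
  refine ⟨s, ?_⟩
  rw [← hM]
  exact hs

end Gen

end Pool.Agent.Helper86.Orl
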