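import Pool.Agent.Helper86.Orl.Sym
import Pool.Graph.R_pool_sql_team_seeded_3997aac3.Q8.OM.Pub

/-!
# The classes killed by the contractions: preparations
-/

set_option autoImplicit false

open scoped ComplexConjugate
open Module Pool.Agent.W539.DI Pool.Agent.Helper30.DI Pool.Agent.Q8.OM

namespace Pool.Agent.Helper86.Orl

section Gen

variable {n a : ℕ} {X : KRing n} (S : AbelianSymmetry X a)

theorem sg_mul (x y : X.R) : sg X (x * y) = sg X x * sg X y := by
  refine X.ind (P := fun x => sg X (x * y) = sg X x * sg X y) (by simp) (fun u v hu hv => by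
    rw [add_mul, map_add, hu, hv, map_add, add_mul]) (fun p q x hx => ?_) x
  refine X.ind (P := fun y => sg X (x * y) = sg X x * sg X y) (by simp) (fun u v hu hv => by
    rw [mul_add, map_add, hu, hv, map_add, mul_add]) (fun p' q' y hy => ?_) y
  rw [sg_of (X.mul_mem hx hy), sg_of hx, sg_of hy, smul_mul_smul_comm]
  congr 1
  rw [← zpow_add₀ (by norm_num)]
  congr 1
  ring

/-- the antiderivation property for all classes -/
theorem io_mul (k : Fin a) (x y : X.R) : io S k (x * y) = io S k x * y + sg X x * io S k y := by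
  refine X.ind (P := fun x => io S k (x * y) = io S k x * y + sg X x * io S k y) (by simp)
    (fun u v hu hv => by
      rw [add_mul, map_add, hu, hv, map_add, map_add, add_mul, add_mul]; abel)
    (fun p q x hx => ?_) x
  rw [sg_of hx]
  have := (S.contraction k).mul p q x y hx
  rw [smul_mul_assoc]
  exact this

theorem bar_sg (x : X.R) : X.bar (sg X x) = sg X (X.bar x) := by
  refine X.ind (P := fun x => X.bar (sg X x) = sg X (X.bar x)) (by simp) (fun u v hu hv => by
    rw [map_add, map_add, hu, hv, map_add, map_add]) (fun p q x hx => ?_) x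
  rw [sg_of hx, sg_of (X.bar_mem _ _ _ hx), LinearMap.map_smulₛₗ]
  congr 1
  rw [map_zpow₀, map_neg, map_one, add_comm q p]

theorem ib_mul (k : Fin a) (x y : X.R) : ib S k (x * y) = ib S k x * y + sg X x * ib S k y := by
  change X.bar (io S k (X.bar (x * y))) = X.bar (io S k (X.bar x)) * y +
    sg X x * X.bar (io S k (X.bar y))
  rw [X.bar_mul, io_mul, map_add, X.bar_mul, X.bar_mul, X.bar_bar, bar_sg, X.bar_bar]

theorem io_one (k : Fin a) : io S k 1 = 0 :=
  zero_of_type (io_type S k 0 0 1 X.one_mem) (Or.inl (by norm_num))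

theorem ib_one (k : Fin a) : ib S k 1 = 0 :=
  zero_of_type (ib_type S k 0 0 1 X.one_mem) (Or.inr (Or.inl (by norm_num)))

theorem one_mem_PP : (1 : X.R) ∈ PP S := by
  rw [mem_PP]
  exact fun k => ⟨io_one S k, ib_one S k⟩

theorem mul_mem_PP {x y : X.R} (hx : x ∈ PP S) (hy : y ∈ PP S) : x * y ∈ PP S := by
  rw [mem_PP] at *
  intro k
  rw [io_mul, ib_mul, (hx k).1, (hx k).2, (hy k).1, (hy k).2]
  simp

theorem bar_mem_PP {x : X.R} (hx : x ∈ PP S) : X.bar x ∈ PP S := by
  rw [mem_PP] at *
  intro k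
  constructor
  · apply bar_inj
    rw [map_zero]
    exact (hx k).2
  · change X.bar (io S k (X.bar (X.bar x))) = 0
    rw [X.bar_bar, (hx k).1, map_zero]

/-- components -/
noncomputable def cp (X : KRing n) (pq : ℤ × ℤ) (x : X.R) : X.R :=
  (DirectSum.decompose X.H x pq : X.R)

theorem cp_mem (pq : ℤ × ℤ) (x : X.R) : cp X pq x ∈ X.H pq := (DirectSum.decompose X.H x pq).2

theorem cp_add (pq : ℤ × ℤ) (x y : X.R) : cp X pq (x + y) = cp X pq x + cp X pq y := by
  unfold cp
  rw [DirectSum.decompose_add]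
  rfl

theorem cp_zero (pq : ℤ × ℤ) : cp X pq 0 = 0 := by
  unfold cp
  rw [DirectSum.decompose_zero]
  rfl

theorem cp_same {pq : ℤ × ℤ} {x : X.R} (hx : x ∈ X.H pq) : cp X pq x = x :=
  DirectSum.decompose_of_mem_same X.H hx

theorem cp_ne {pq pq' : ℤ × ℤ} {x : X.R} (hx : x ∈ X.H pq) (h : pq ≠ pq') : cp X pq' x = 0 :=
  DirectSum.decompose_of_mem_ne X.H hx h

theorem cp_comm (f : Module.End ℂ X.R) (d e : ℤ)
    (h : ∀ (p q : ℤ) (x : X.R), x ∈ X.H (p, q) → f x ∈ X.H (p + d, q + e)) (p q : ℤ) (x : X.R) :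
    f (cp X (p, q) x) = cp X (p + d, q + e) (f x) := by
  refine X.ind (P := fun x => f (cp X (p, q) x) = cp X (p + d, q + e) (f x))
    (by rw [map_zero, cp_zero, cp_zero, map_zero]) (fun u v hu hv => by
    rw [cp_add, map_add, hu, hv, map_add, cp_add]) (fun p' q' x hx => ?_) x
  by_cases hpq : ((p', q') : ℤ × ℤ) = (p, q)
  · cases hpq
    rw [cp_same hx, cp_same (h _ _ _ hx)]
  · rw [cp_ne hx hpq, map_zero, cp_ne (h _ _ _ hx)]
    intro h'
    apply hpq
    rw [Prod.mk.injEq] at h' ⊢
    omega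

theorem cp_PP {x : X.R} (hx : x ∈ PP S) (pq : ℤ × ℤ) : cp X pq x ∈ PP S := by
  rw [mem_PP] at *
  intro k
  obtain ⟨p, q⟩ := pq
  rw [cp_comm (io S k) _ _ (io_type S k), cp_comm (ib S k) _ _ (ib_type S k), (hx k).1, (hx k).2,
    cp_zero, cp_zero]
  exact ⟨rfl, rfl⟩

/-- the projection on the classes killed by the contractions -/
noncomputable def pj : Module.End ℂ X.R := DD S * MM S

theorem pj_apply (x : X.R) : pj S x = DD S (MM S x) := rfl

theorem pj_mem (x : X.R) : pj S x ∈ PP S := D_mem S _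

theorem pj_of {x : X.R} (hx : x ∈ PP S) : pj S x = x := DM S x hx

theorem pj_pj (x : X.R) : pj S (pj S x) = pj S x := pj_of S (pj_mem S x)

theorem M_pj (x : X.R) : MM S (pj S x) = MM S x := MDM S x

theorem pj_D (x : X.R) : pj S (DD S x) = DD S x := DMD S x

theorem vol_pj (x : X.R) : vol S * pj S x = vol S * x := by
  rw [← MM_apply, ← MM_apply, M_pj]

theorem pj_type (p q : ℤ) (x : X.R) (hx : x ∈ X.H (p, q)) : pj S x ∈ X.H (p, q) := by
  have := D_type S _ _ _ (M_type S _ _ _ hx)
  rwa [add_sub_cancel_right, add_sub_cancel_right] at this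

theorem pj_bar (x : X.R) : pj S (X.bar x) = X.bar (pj S x) := by
  have h : cj (pj S) = pj S := by rw [pj, cj_mul, cj_DD, cj_MM]
  have h2 : cj (pj S) x = pj S x := by rw [h]
  rw [← h2, cj_apply, X.bar_bar]

theorem pj_tt (k : Fin a) (x : X.R) : pj S (S.form k * x) = 0 := by
  have := LinearMap.congr_fun (M_tt S k) x
  change MM S (S.form k * x) = 0 at this
  rw [pj_apply, this, map_zero]

theorem pj_tb (k : Fin a) (x : X.R) : pj S (X.bar (S.form k) * x) = 0 := by
  have := LinearMap.congr_fun (M_tb S k) x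
  change MM S (X.bar (S.form k) * x) = 0 at this
  rw [pj_apply, this, map_zero]

/-- `vol x = 0` for `x` killed by the contractions implies `x = 0` -/
theorem vol_inj {x : X.R} (hx : x ∈ PP S) (h : vol S * x = 0) : x = 0 := by
  rw [← pj_of S hx, pj_apply, MM_apply, h, map_zero]

theorem pd0 {p q : ℤ} {x : X.R} (hx : x ∈ X.H (p, q)) (hP : x ∈ PP S)
    (h : ∀ y ∈ X.H (n - a - p, n - a - q), y ∈ PP S → X.tr (vol S * (x * y)) = 0) : x = 0 := by
  refine vol_inj S hP ?_
  have h0 := X.mul_mem (vol_mem S) hx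
  refine X.pd _ _ _ h0 fun z hz => ?_
  have hz' : z ∈ X.H ((n : ℤ) - a - p, n - a - q) := by
    convert hz using 3 <;> ring
  have h1 := h (pj S z) (pj_type S _ _ _ hz') (pj_mem S z)
  rw [vol_central, mul_assoc, ← vol_central, vol_pj] at h1
  rw [vol_central, mul_assoc]
  exact h1

/-- `bar` preserves dimensions -/
theorem finrank_bar (V W : Submodule ℂ X.R) (h1 : ∀ x ∈ V, X.bar x ∈ W)
    (h2 : ∀ x ∈ W, X.bar x ∈ V) : finrank ℂ V = finrank ℂ W := by
  let f : V →ₛₗ[starRingEnd ℂ] W :=
    { toFun := fun x => ⟨X.bar x, h1 _ x.2⟩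
      map_add' := fun x y => by ext; simp
      map_smul' := fun _ _ => by ext; simp [LinearMap.map_smulₛₗ] }
  let g : W →ₛₗ[starRingEnd ℂ] V :=
    { toFun := fun x => ⟨X.bar x, h2 _ x.2⟩
      map_add' := fun x y => by ext; simp
      map_smul' := fun _ _ => by ext; simp [LinearMap.map_smulₛₗ] }
  let e : V ≃ₛₗ[starRingEnd ℂ] W :=
    { f with
      invFun := g
      left_inv := fun x => Subtype.ext (X.bar_bar x)
      right_inv := fun x => Subtype.ext (X.bar_bar x) }
  have h1 : finrank ℝ V = finrank ℝ W := by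
    refine LinearEquiv.finrank_eq
      { toFun := fun x => e x
        map_add' := fun x y => map_add e x y
        map_smul' := fun r x => ?_
        invFun := fun x => e.symm x
        left_inv := fun x => e.symm_apply_apply x
        right_inv := fun x => e.apply_symm_apply x }
    have := e.map_smulₛₗ (r : ℂ) x
    rw [Complex.conj_ofReal] at this
    simpa [Complex.coe_smul] using this
  rw [finrank_real_of_complex, finrank_real_of_complex] at h1
  omega

/-- the dimension of the killed classes of type `(p, q)` -/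
noncomputable def kd (p q : ℤ) : ℕ := finrank ℂ (PP S ⊓ X.H (p, q) : Submodule ℂ X.R)

theorem kd_swap (p q : ℤ) : kd S p q = kd S q p :=
  finrank_bar _ _ (fun x hx => ⟨bar_mem_PP S hx.1, X.bar_mem _ _ _ hx.2⟩)
    (fun x hx => ⟨bar_mem_PP S hx.1, X.bar_mem _ _ _ hx.2⟩)

theorem kd_le (p q : ℤ) : kd S p q ≤ kd S (n - a - p) (n - a - q) := by
  let V : Submodule ℂ X.R := PP S ⊓ X.H (p, q)
  let W : Submodule ℂ X.R := PP S ⊓ X.H ((n : ℤ) - a - p, n - a - q)
  let f : V →ₗ[ℂ] Module.Dual ℂ W := LinearMap.mk₂ ℂ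
    (fun x y => X.tr (vol S * ((x : X.R) * (y : X.R))))
    (fun x y z => by simp [add_mul, mul_add]) (fun c x z => by simp)
    (fun x y z => by simp [mul_add]) (fun c x z => by simp)
  have hf : Function.Injective f := by
    rw [injective_iff_map_eq_zero]
    intro x hx
    refine Subtype.ext (pd0 S x.2.2 x.2.1 fun y hy hyP => ?_)
    exact LinearMap.congr_fun hx ⟨y, hyP, hy⟩
  have h1 := LinearMap.finrank_le_finrank_of_injective hf
  rwa [Subspace.dual_finrank_eq] at h1

theorem kd_dual (p q : ℤ) : kd S p q = kd S (n - a - p) (n - a - q) := by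
  refine le_antisymm (kd_le S p q) ?_
  have := kd_le S ((n : ℤ) - a - p) (n - a - q)
  rwa [sub_sub_cancel, sub_sub_cancel] at this

end Gen

end Pool.Agent.Helper86.Orl
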