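import Pool.Agent.Helper86.Orl.Ring1

/-!
# The classes killed by the contractions: Lefschetz and Hodge-Riemann
-/

set_option autoImplicit false

open scoped ComplexConjugate
open Module Pool.Agent.W539.DI Pool.Agent.Helper30.DI Pool.Agent.Q8.OM

namespace Pool.Agent.Helper86.Orl

variable {m a : ℕ} {X : KRing (m + a)} (S : AbelianSymmetry X a)

/-- the Kähler class of the killed classes -/
noncomputable def om : X.R := pj S X.ω

theorem om_PP : om S ∈ PP S := pj_mem S _
theorem om_mem : om S ∈ X.H (1, 1) := pj_type S _ _ _ X.ω_mem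
theorem om_bar : X.bar (om S) = om S := by rw [om, ← pj_bar, X.ω_bar]

/-- the product of the forms -/
noncomputable def OO : Module.End ℂ X.R := rp (tt S)

/-- the forms are chosen as the contractions of the Kähler class -/
def Adapted : Prop := ∀ k, ib S k X.ω ∈ Submodule.span ℂ (Set.range S.form)

theorem OO_eq : OO S = LinearMap.mulLeft ℂ (rp S.form) := (mulLeft_rp S.form).symm

theorem OO_apply (x : X.R) : OO S x = rp S.form * x := by rw [OO_eq, LinearMap.mulLeft_apply]

theorem OO_mul (z x : X.R) : OO S (z * x) = OO S z * x := by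
  rw [OO_apply, OO_apply, mul_assoc]

theorem OO_tt (k : Fin a) : OO S * tt S k = 0 := by
  rw [OO, rp_anti' (tt S k) (tt S) (tt_tt S k), rp_left _ (tt_tt S) (tt_sq S), mul_zero]

theorem OO_form (k : Fin a) : OO S (S.form k) = 0 := by
  have h := LinearMap.congr_fun (OO_tt S k) 1
  change OO S (S.form k * 1) = 0 at h
  rwa [mul_one] at h

theorem OO_span {z : X.R} (hz : z ∈ Submodule.span ℂ (Set.range S.form)) : OO S z = 0 := by
  induction hz using Submodule.span_induction with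
  | mem x hx =>
    obtain ⟨k, rfl⟩ := hx
    exact OO_form S k
  | zero => exact map_zero _
  | add x y _ _ hx hy => rw [map_add, hx, hy, add_zero]
  | smul c x _ hx => rw [map_smul, hx, smul_zero]

theorem OO_ker {z : X.R} (h1 : MM S z = 0) (h2 : ∀ k, OO S (ib S k z) = 0) : OO S z = 0 := by
  have h3 : pr (ib S) (rp (tb S) (OO S z)) = OO S z := by
    refine pr_rp_smul (ib S) (tb S) (OO S z) (ib_tb S) fun k => ?_
    have h := LinearMap.congr_fun (rp_anti (ib S k) (tt S) (ib_tt S k)) z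
    change ib S k (OO S z) = ((-1 : Module.End ℂ X.R) ^ a * (rp (tt S) * ib S k)) z at h
    rw [neg_pow_smul, LinearMap.smul_apply] at h
    change ib S k (OO S z) = (-1 : ℂ) ^ a • OO S (ib S k z) at h
    rw [h2, smul_zero] at h
    exact h
  have h4 : rp (tb S) (OO S z) = 0 := by
    have h5 : ((-Complex.I) ^ a : ℂ) • (rp (tb S) (OO S z)) = 0 := h1
    refine (smul_eq_zero.mp h5).resolve_left (pow_ne_zero _ ?_)
    rw [neg_ne_zero]
    exact Complex.I_ne_zero
  rw [← h3, h4, map_zero]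

theorem OO_om (hA : Adapted S) : OO S (om S) = OO S X.ω := by
  rw [← sub_eq_zero, ← map_sub]
  refine OO_ker S ?_ fun k => ?_
  · rw [map_sub, om, M_pj, sub_self]
  · rw [map_sub, ((mem_PP S).mp (om_PP S) k).2, zero_sub, map_neg, OO_span S (hA k), neg_zero]

theorem OO_om_pow (hA : Adapted S) (k : ℕ) (x : X.R) :
    OO S (om S ^ k * x) = X.ω ^ k * OO S x := by
  induction k with
  | zero => rw [pow_zero, pow_zero, one_mul, one_mul]
  | succ k ih =>
    rw [pow_succ', mul_assoc, OO_mul, OO_om S hA, ← OO_mul, pow_succ', mul_assoc, ← ih, OO_apply,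
      OO_apply, ← mul_assoc, ← X.central X.ω_mem, mul_assoc]

theorem OO_inj {x : X.R} (hP : x ∈ PP S) (h : OO S x = 0) : x = 0 := by
  have h1 : pr (io S) (rp (tt S) x) = x :=
    pr_rp_smul (io S) (tt S) x (io_tt S) fun k => ((mem_PP S).mp hP k).1
  change pr (io S) (OO S x) = x at h1
  rw [← h1, h, map_zero]

theorem OO_type {p q : ℤ} {x : X.R} (hx : x ∈ X.H (p, q)) : OO S x ∈ X.H (p + a, q) := by
  have := rp_mem_type (tt S) 1 0 (tt_type S) p q x hx
  rwa [mul_one, mul_zero, add_zero] at this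

theorem om_pow_PP (k : ℕ) {x : X.R} (hP : x ∈ PP S) : om S ^ k * x ∈ PP S := by
  induction k with
  | zero => rwa [pow_zero, one_mul]
  | succ k ih =>
    rw [pow_succ', mul_assoc]
    exact mul_mem_PP S (om_PP S) ih

theorem hl0 (hA : Adapted S) {p q : ℤ} {k : ℕ} (h : p + q + k = m) {x : X.R}
    (hx : x ∈ X.H (p, q)) (hP : x ∈ PP S) (h0 : om S ^ k * x = 0) : x = 0 := by
  refine OO_inj S hP (X.hl_inj (p + a) q k (by push_cast; omega) _ (OO_type S hx) ?_)
  rw [← OO_om_pow S hA, h0, map_zero]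

theorem vol_om : vol S * om S = vol S * X.ω := vol_pj S _

theorem vol_om_pow (k : ℕ) (x : X.R) : vol S * (om S ^ k * x) = X.ω ^ k * (vol S * x) := by
  induction k with
  | zero => rw [pow_zero, pow_zero, one_mul, one_mul]
  | succ k ih =>
    rw [pow_succ', mul_assoc, ← mul_assoc, vol_om, pow_succ' X.ω, mul_assoc X.ω, ← ih, ← mul_assoc,
      ← mul_assoc X.ω, X.central X.ω_mem (vol S), mul_assoc (vol S * X.ω)]

/-- the sign in the trace of the killed classes -/
noncomputable def sa (a : ℕ) : ℝ := (-1) ^ (a * (a - 1) / 2)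

theorem sa_sq (a : ℕ) : sa a * sa a = 1 := by
  unfold sa
  rw [← mul_pow]
  norm_num

theorem OOb (x : X.R) {p q : ℤ} (hx : x ∈ X.H (p, q)) :
    OO S x * X.bar (OO S x) =
      ((-1 : ℂ) ^ ((a : ℤ) * (p + q) + a * a) * Complex.I ^ a) • (vol S * (x * X.bar x)) := by
  have e1 : X.bar (rp S.form) = rp fun k => X.bar (S.form k) := by
    have h := LinearMap.congr_fun (cj_rp (tt S)) 1
    rw [cj_apply, bar_one] at h
    have e2 : (fun i => cj (tt S i)) = tb S := funext (cj_tt S)
    rw [e2] at h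
    change X.bar (OO S 1) = _ at h
    rw [OO_apply, mul_one] at h
    rw [h]
    unfold tb
    rw [← mulLeft_rp, LinearMap.mulLeft_apply, mul_one]
  have m1 : rp S.form ∈ X.H (a, 0) := by
    have := OO_type S X.one_mem
    rwa [OO_apply, mul_one, zero_add] at this
  have m2 : X.bar (rp S.form) ∈ X.H (0, a) := X.bar_mem _ _ _ m1
  have e3 : X.bar (rp S.form) * rp S.form = (Complex.I ^ a) • vol S := by
    unfold vol
    rw [smul_smul, I_mul, one_smul, e1]
  rw [OO_apply, X.bar_mul]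
  have e4 : x * X.bar (rp S.form) = ((-1 : ℂ) ^ ((p + q) * (0 + (a : ℤ)))) •
      (X.bar (rp S.form) * x) := X.comm _ _ _ _ _ _ hx m2
  have e5 : rp S.form * X.bar (rp S.form) = ((-1 : ℂ) ^ (((a : ℤ) + 0) * (0 + (a : ℤ)))) •
      (X.bar (rp S.form) * rp S.form) := X.comm _ _ _ _ _ _ m1 m2
  calc rp S.form * x * (X.bar (rp S.form) * X.bar x)
      = rp S.form * (x * X.bar (rp S.form)) * X.bar x := by noncomm_ring
    _ = ((-1 : ℂ) ^ ((p + q) * (0 + (a : ℤ)))) •
        (rp S.form * X.bar (rp S.form) * (x * X.bar x)) := by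
        rw [e4, mul_smul_comm, smul_mul_assoc]
        congr 1
        noncomm_ring
    _ = _ := by
        rw [e5, e3, smul_mul_assoc, smul_mul_assoc, smul_smul, smul_smul]
        congr 1
        rw [zpow_add₀ (by norm_num)]
        ring_nf

theorem hr0 (hA : Adapted S) {p q : ℤ} {k : ℕ} (h : p + q + k = m) {x : X.R}
    (hx : x ∈ X.H (p, q)) (hP : x ∈ PP S) (hx0 : x ≠ 0) (h0 : om S ^ (k + 1) * x = 0) :
    ∃ r : ℝ, 0 < r ∧ Complex.I ^ (p - q) * (-1 : ℂ) ^ ((p + q) * (p + q - 1) / 2) *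
      (sa a * X.tr (vol S * (om S ^ k * (x * X.bar x)))) = (r : ℂ) := by
  obtain ⟨r, hr, h1⟩ := X.hr (p + a) q k (by push_cast; omega) (OO S x) (OO_type S hx)
    (fun h2 => hx0 (OO_inj S hP h2)) (by rw [← OO_om_pow S hA, h0, map_zero])
  refine ⟨r, hr, ?_⟩
  rw [← h1, OOb S x hx, mul_smul_comm, map_smul, smul_eq_mul, vol_om_pow]
  have e1 : (p + a + q) * (p + a + q - 1) / 2 =
      (p + q) * (p + q - 1) / 2 + ((a * (a - 1) / 2 : ℕ) : ℤ) + (p + q) * a := by
    have h3 : ((a * (a - 1) / 2 : ℕ) : ℤ) = (a : ℤ) * (a - 1) / 2 := by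
      rcases a with _ | b
      · rfl
      · push_cast
        simp
    rw [h3]
    have h4 : 2 ∣ (p + q) * (p + q - 1) := (Int.even_mul_pred_self _).two_dvd
    have h5 : 2 ∣ (a : ℤ) * (a - 1) := (Int.even_mul_pred_self _).two_dvd
    obtain ⟨u, hu⟩ := h4
    obtain ⟨v, hv⟩ := h5
    have h6 : (p + a + q) * (p + a + q - 1) = 2 * (u + v + (p + q) * a) := by
      linear_combination hu + hv
    rw [h6, hu, hv]
    simp
  rw [e1]
  have e2 : (sa a : ℂ) = (-1 : ℂ) ^ ((a * (a - 1) / 2 : ℕ) : ℤ) := by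
    unfold sa
    rw [zpow_natCast]
    push_cast
    rfl
  rw [e2, zpow_add₀ (by norm_num), zpow_add₀ (by norm_num), show p + a - q = p - q + a by ring,
    zpow_add₀ Complex.I_ne_zero, zpow_natCast Complex.I]
  have e3 : Complex.I ^ a * Complex.I ^ a = (-1 : ℂ) ^ (a : ℤ) := by
    rw [← mul_pow, Complex.I_mul_I, zpow_natCast]
  have e4 : (-1 : ℂ) ^ ((p + q) * (a : ℤ)) * (-1 : ℂ) ^ ((a : ℤ) * (p + q) + a * a) *
      (-1 : ℂ) ^ (a : ℤ) = 1 := by
    rw [← zpow_add₀ (by norm_num), ← zpow_add₀ (by norm_num)]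
    refine Even.neg_one_zpow ?_
    have : (p + q) * (a : ℤ) + ((a : ℤ) * (p + q) + a * a) + a =
        2 * ((p + q) * a) + a * (a + 1) := by ring
    rw [this]
    exact (even_two_mul _).add (Int.even_mul_succ_self _)
  generalize X.tr (X.ω ^ k * (vol S * (x * X.bar x))) = t
  generalize (-1 : ℂ) ^ ((p + q) * (a : ℤ)) = u at *
  generalize (-1 : ℂ) ^ ((a : ℤ) * (p + q) + a * a) = v at *
  generalize (-1 : ℂ) ^ (a : ℤ) = w at *
  generalize (-1 : ℂ) ^ ((a * (a - 1) / 2 : ℕ) : ℤ) = s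
  generalize (-1 : ℂ) ^ ((p + q) * (p + q - 1) / 2) = z
  generalize Complex.I ^ (p - q) = y
  have : y * z * (s * t) = y * z * (s * t) * (u * v * w) := by rw [e4, mul_one]
  rw [this, ← e3]
  ring

end Pool.Agent.Helper86.Orl
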