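import Pool.Agent.Helper86.Orl.Ops

/-!
# Contractions and forms
-/

set_option autoImplicit false

open scoped ComplexConjugate
open Module Pool.Agent.W539.DI Pool.Agent.Helper30.DI

namespace Pool.Agent.Helper86.Orl

variable {n a : ℕ} {X : KRing n}

theorem zero_of_type {p q : ℤ} {x : X.R} (hx : x ∈ X.H (p, q))
    (h : p < 0 ∨ q < 0 ∨ (n : ℤ) < p ∨ (n : ℤ) < q) : x = 0 := by
  have hb : X.H (p, q) = ⊥ := by
    rcases h with h | h | h | h
    · exact X.van p q (Or.inl h)
    · exact X.van p q (Or.inr h)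
    · exact X.van_top (Or.inl h)
    · exact X.van_top (Or.inr h)
  rw [hb] at hx
  exact (Submodule.mem_bot ℂ).mp hx

/-- odd classes anticommute -/
theorem odd_anti {r s r' s' : ℤ} {x y : X.R} (hx : x ∈ X.H (r, s)) (hy : y ∈ X.H (r', s'))
    (h : Odd (r + s)) (h' : Odd (r' + s')) : x * y = -(y * x) := by
  rw [X.comm _ _ _ _ _ _ hx hy, (h.mul h').neg_one_zpow, neg_one_smul]

/-- even classes are central -/
theorem even_central {r s : ℤ} {x : X.R} (hx : x ∈ X.H (r, s)) (h : Even (r + s)) (y : X.R) :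
    x * y = y * x := by
  refine X.ind (P := fun y => x * y = y * x) (by simp) (fun y z hy hz => by
    rw [mul_add, add_mul, hy, hz]) (fun p q y hy => ?_) y
  rw [X.comm _ _ _ _ _ _ hx hy, (h.mul_right (p + q)).neg_one_zpow, one_smul]

variable (S : AbelianSymmetry X a)

/-- the contractions -/
noncomputable def io (k : Fin a) : Module.End ℂ X.R := S.contr k
/-- the conjugate contractions -/
noncomputable def ib (k : Fin a) : Module.End ℂ X.R := cj (io S k)
/-- the multiplications with the forms -/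
noncomputable def tt (k : Fin a) : Module.End ℂ X.R := LinearMap.mulLeft ℂ (S.form k)
/-- the multiplications with the conjugate forms -/
noncomputable def tb (k : Fin a) : Module.End ℂ X.R := LinearMap.mulLeft ℂ (X.bar (S.form k))

theorem cj_io (k : Fin a) : cj (io S k) = ib S k := rfl
theorem cj_ib (k : Fin a) : cj (ib S k) = io S k := cj_cj _
theorem cj_tt (k : Fin a) : cj (tt S k) = tb S k := cj_mulLeft _
theorem cj_tb (k : Fin a) : cj (tb S k) = tt S k := by rw [← cj_tt, cj_cj]

theorem io_type (k : Fin a) (p q : ℤ) (x : X.R) (hx : x ∈ X.H (p, q)) :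
    io S k x ∈ X.H (p + -1, q + 0) := by
  rw [add_zero, ← sub_eq_add_neg]
  exact (S.contraction k).mem p q x hx

theorem ib_type (k : Fin a) (p q : ℤ) (x : X.R) (hx : x ∈ X.H (p, q)) :
    ib S k x ∈ X.H (p + 0, q + -1) :=
  X.bar_mem _ _ _ (io_type S k q p _ (X.bar_mem _ _ _ hx))

theorem tt_type (k : Fin a) (p q : ℤ) (x : X.R) (hx : x ∈ X.H (p, q)) :
    tt S k x ∈ X.H (p + 1, q + 0) := by
  have := X.mul_mem (S.form_mem k) hx
  rwa [add_comm 1 p, add_comm 0 q] at this

theorem tb_type (k : Fin a) (p q : ℤ) (x : X.R) (hx : x ∈ X.H (p, q)) :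
    tb S k x ∈ X.H (p + 0, q + 1) := by
  have := X.mul_mem (X.bar_mem _ _ _ (S.form_mem k)) hx
  rwa [add_comm 1 q, add_comm 0 p] at this

theorem two_zero {f : Module.End ℂ X.R} (h : f = -f) : f = 0 := by
  have h3 : (2 : ℂ) • f = 0 := by
    rw [two_smul]
    nth_rewrite 1 [h]
    exact neg_add_cancel _
  exact (smul_eq_zero.mp h3).resolve_left two_ne_zero

theorem io_io (i j : Fin a) : io S i * io S j = -(io S j * io S i) := by
  ext x
  exact S.anti i j x

theorem ib_ib (i j : Fin a) : ib S i * ib S j = -(ib S j * ib S i) := by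
  rw [← cj_io, ← cj_io, ← cj_mul, io_io, cj_neg, cj_mul]

theorem io_ib (i j : Fin a) : io S i * ib S j = -(ib S j * io S i) := by
  ext x
  exact S.anti_conj i j x

theorem ib_io (i j : Fin a) : ib S i * io S j = -(io S j * ib S i) := by
  rw [io_ib, neg_neg]

theorem io_sq (i : Fin a) : io S i * io S i = 0 := two_zero (io_io S i i)
theorem ib_sq (i : Fin a) : ib S i * ib S i = 0 := two_zero (ib_ib S i i)

/-- a contraction and the multiplication with an odd class -/
theorem contr_odd (i : Fin a) {r s : ℤ} {w : X.R} (hw : w ∈ X.H (r, s)) (h : Odd (r + s)) :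
    io S i * LinearMap.mulLeft ℂ w + LinearMap.mulLeft ℂ w * io S i =
      LinearMap.mulLeft ℂ (io S i w) := by
  ext x
  change S.contr i (w * x) + w * S.contr i x = S.contr i w * x
  rw [(S.contraction i).mul r s w x hw, h.neg_one_zpow, neg_one_smul]
  abel

/-- a contraction and the multiplication with an even class -/
theorem contr_even (i : Fin a) {r s : ℤ} {w : X.R} (hw : w ∈ X.H (r, s)) (h : Even (r + s)) :
    io S i * LinearMap.mulLeft ℂ w = LinearMap.mulLeft ℂ w * io S i +
      LinearMap.mulLeft ℂ (io S i w) := by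
  ext x
  change S.contr i (w * x) = w * S.contr i x + S.contr i w * x
  rw [(S.contraction i).mul r s w x hw, h.neg_one_zpow, one_smul]
  abel

theorem io_form (i j : Fin a) : io S i (S.form j) = if i = j then 1 else 0 := S.pairing i j

theorem io_bform (i j : Fin a) : io S i (X.bar (S.form j)) = 0 :=
  zero_of_type (io_type S i _ _ _ (X.bar_mem _ _ _ (S.form_mem j))) (Or.inl (by norm_num))

theorem ib_form (i j : Fin a) : ib S i (S.form j) = 0 :=
  zero_of_type (ib_type S i _ _ _ (S.form_mem j)) (Or.inr (Or.inl (by norm_num)))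

theorem ib_bform (i j : Fin a) : ib S i (X.bar (S.form j)) = if i = j then 1 else 0 := by
  change X.bar (io S i (X.bar (X.bar (S.form j)))) = _
  rw [X.bar_bar, io_form]
  split_ifs
  · exact bar_one
  · exact map_zero _

theorem io_tt (i j : Fin a) : io S i * tt S j + tt S j * io S i = if i = j then 1 else 0 := by
  have := contr_odd S i (S.form_mem j) (by decide)
  change _ = LinearMap.mulLeft ℂ (io S i (S.form j)) at this
  rw [io_form] at this
  rw [tt, this]
  split_ifs
  · exact mulLeft_one'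
  · exact LinearMap.mulLeft_zero_eq_zero ℂ _

theorem io_tb (i j : Fin a) : io S i * tb S j = -(tb S j * io S i) := by
  have := contr_odd S i (X.bar_mem _ _ _ (S.form_mem j)) (by decide)
  rw [io_bform] at this
  rw [tb, eq_neg_iff_add_eq_zero, this]
  exact LinearMap.mulLeft_zero_eq_zero ℂ _

theorem ib_tb (i j : Fin a) : ib S i * tb S j + tb S j * ib S i = if i = j then 1 else 0 := by
  rw [← cj_io, ← cj_tt, ← cj_mul, ← cj_mul, ← cj_add, io_tt]
  split_ifs
  · exact cj_one
  · exact cj_zero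

theorem ib_tt (i j : Fin a) : ib S i * tt S j = -(tt S j * ib S i) := by
  rw [← cj_io, ← cj_tb, ← cj_mul, io_tb, cj_neg, cj_mul]

theorem tt_tt (i j : Fin a) : tt S i * tt S j = -(tt S j * tt S i) := by
  rw [tt, tt, ← mulLeft_mul', odd_anti (S.form_mem i) (S.form_mem j) (by decide) (by decide),
    ← mulLeft_mul']
  ext x
  simp [mul_assoc]

theorem tb_tb (i j : Fin a) : tb S i * tb S j = -(tb S j * tb S i) := by
  rw [← cj_tt, ← cj_tt, ← cj_mul, tt_tt, cj_neg, cj_mul]

theorem tt_tb (i j : Fin a) : tt S i * tb S j = -(tb S j * tt S i) := by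
  rw [tt, tb, ← mulLeft_mul', odd_anti (S.form_mem i) (X.bar_mem _ _ _ (S.form_mem j)) (by decide)
    (by decide), ← mulLeft_mul']
  ext x
  simp [mul_assoc]

theorem tb_tt (i j : Fin a) : tb S i * tt S j = -(tt S j * tb S i) := by
  rw [tt_tb, neg_neg]

theorem tt_sq (i : Fin a) : tt S i * tt S i = 0 := two_zero (tt_tt S i i)
theorem tb_sq (i : Fin a) : tb S i * tb S i = 0 := two_zero (tb_tb S i i)

/-! ### the class of the fibre and the contraction with `A` -/

noncomputable def D0 : Module.End ℂ X.R := pr (io S) * pr (ib S)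
noncomputable def M0 : Module.End ℂ X.R := rp (tb S) * rp (tt S)

/-- the contraction with the fundamental class of `A` -/
noncomputable def DD : Module.End ℂ X.R := (Complex.I ^ a) • D0 S
/-- the multiplication with the class of the fibre -/
noncomputable def MM : Module.End ℂ X.R := ((-Complex.I) ^ a) • M0 S

/-- the class of the fibre -/
noncomputable def vol : X.R :=
  ((-Complex.I) ^ a) • (rp (fun k => X.bar (S.form k)) * rp S.form)

theorem MM_eq : MM S = LinearMap.mulLeft ℂ (vol S) := by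
  unfold MM M0 vol tt tb
  rw [← mulLeft_rp, ← mulLeft_rp, ← mulLeft_mul']
  ext x
  rw [LinearMap.smul_apply, LinearMap.mulLeft_apply, LinearMap.mulLeft_apply, smul_mul_assoc]

theorem MM_apply (x : X.R) : MM S x = vol S * x := by rw [MM_eq, LinearMap.mulLeft_apply]

theorem I_mul (a : ℕ) : Complex.I ^ a * (-Complex.I) ^ a = 1 := by
  rw [← mul_pow, mul_neg, Complex.I_mul_I, neg_neg, one_pow]

theorem D0_pr : pr (ib S) * pr (io S) = (-1 : ℂ) ^ a • D0 S := by
  rw [pr_pr _ _ (ib_io S), neg_pow_smul, D0]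
  congr 1
  rcases Nat.even_or_odd a with h | h
  · rw [h.neg_one_pow, (h.mul_right a).neg_one_pow]
  · rw [h.neg_one_pow, (h.mul h).neg_one_pow]

theorem M0_rp : rp (tt S) * rp (tb S) = (-1 : ℂ) ^ a • M0 S := by
  rw [rp_rp _ _ (tt_tb S), neg_pow_smul, M0]
  congr 1
  rcases Nat.even_or_odd a with h | h
  · rw [h.neg_one_pow, (h.mul_right a).neg_one_pow]
  · rw [h.neg_one_pow, (h.mul h).neg_one_pow]

theorem cj_DD : cj (DD S) = DD S := by
  rw [DD, cj_smul, D0, cj_mul, cj_pr, cj_pr]
  have e1 : (fun i => cj (io S i)) = ib S := rfl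
  have e2 : (fun i => cj (ib S i)) = io S := funext (cj_ib S)
  rw [e1, e2, D0_pr, smul_smul, map_pow, Complex.conj_I, ← mul_pow, mul_neg_one, neg_neg]
  rfl

theorem cj_MM : cj (MM S) = MM S := by
  rw [MM, cj_smul, M0, cj_mul, cj_rp, cj_rp]
  have e1 : (fun i => cj (tt S i)) = tb S := funext (cj_tt S)
  have e2 : (fun i => cj (tb S i)) = tt S := funext (cj_tb S)
  rw [e1, e2, M0_rp, smul_smul, map_pow, map_neg, Complex.conj_I, ← mul_pow, neg_neg, mul_neg_one]
  rfl

theorem io_D (k : Fin a) : io S k * DD S = 0 := by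
  rw [DD, mul_smul_comm, D0, ← mul_assoc, pr_left _ (io_io S) (io_sq S), zero_mul, smul_zero]

theorem ib_D (k : Fin a) : ib S k * DD S = 0 := by
  rw [← cj_io, ← cj_DD, ← cj_mul, io_D, cj_zero]

theorem D_io (k : Fin a) : DD S * io S k = 0 := by
  have : DD S = (Complex.I ^ a * (-1 : ℂ) ^ a) • (pr (ib S) * pr (io S)) := by
    rw [D0_pr, smul_smul, mul_assoc, ← mul_pow (-1 : ℂ), neg_one_mul, neg_neg, one_pow, mul_one, DD]
  rw [this, smul_mul_assoc, mul_assoc, pr_right _ (io_io S) (io_sq S), mul_zero, smul_zero]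

theorem D_ib (k : Fin a) : DD S * ib S k = 0 := by
  rw [← cj_io, ← cj_DD, ← cj_mul, D_io, cj_zero]

theorem tb_M (k : Fin a) : tb S k * MM S = 0 := by
  rw [MM, mul_smul_comm, M0, ← mul_assoc, rp_left _ (tb_tb S) (tb_sq S), zero_mul, smul_zero]

theorem tt_M (k : Fin a) : tt S k * MM S = 0 := by
  rw [← cj_tb, ← cj_MM, ← cj_mul, tb_M, cj_zero]

theorem vol_mem : vol S ∈ X.H (a, a) := by
  have h1 : MM S 1 ∈ X.H (a, a) := by
    rw [MM, LinearMap.smul_apply]
    refine Submodule.smul_mem _ _ ?_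
    rw [M0, Module.End.mul_apply]
    have h2 := rp_mem_type (tt S) 1 0 (tt_type S) 0 0 1 X.one_mem
    have h3 := rp_mem_type (tb S) 0 1 (tb_type S) _ _ _ h2
    convert h3 using 3 <;> simp
  rwa [MM_apply, mul_one] at h1

theorem vol_central (x : X.R) : vol S * x = x * vol S :=
  even_central (vol_mem S) ⟨(a : ℤ), rfl⟩ x

theorem bar_vol : X.bar (vol S) = vol S := by
  have h := LinearMap.congr_fun (cj_MM S) 1
  rwa [cj_apply, bar_one, MM_apply, mul_one] at h

theorem tt_vol (k : Fin a) : S.form k * vol S = 0 := by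
  have h := LinearMap.congr_fun (tt_M S k) 1
  rwa [Module.End.mul_apply, MM_apply, mul_one] at h

theorem tb_vol (k : Fin a) : X.bar (S.form k) * vol S = 0 := by
  have h := LinearMap.congr_fun (tb_M S k) 1
  rwa [Module.End.mul_apply, MM_apply, mul_one] at h

theorem M_tt (k : Fin a) : MM S * tt S k = 0 := by
  ext x
  rw [Module.End.mul_apply, MM_apply, LinearMap.zero_apply]
  change vol S * (S.form k * x) = 0
  rw [vol_central, mul_assoc, ← vol_central, ← mul_assoc, tt_vol, zero_mul]

theorem M_tb (k : Fin a) : MM S * tb S k = 0 := by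
  rw [← cj_tt, ← cj_MM, ← cj_mul, M_tt, cj_zero]

/-- the classes killed by the contractions -/
noncomputable def PP : Submodule ℂ X.R :=
  ⨅ k : Fin a, LinearMap.ker (io S k) ⊓ LinearMap.ker (ib S k)

theorem mem_PP {x : X.R} : x ∈ PP S ↔ ∀ k, io S k x = 0 ∧ ib S k x = 0 := by
  simp only [PP, Submodule.mem_iInf, Submodule.mem_inf, LinearMap.mem_ker]

theorem DM (y : X.R) (hy : y ∈ PP S) : DD S (MM S y) = y := by
  rw [mem_PP] at hy
  rw [MM, LinearMap.smul_apply, map_smul, DD, LinearMap.smul_apply, smul_smul,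
    mul_comm ((-Complex.I) ^ a), I_mul, one_smul, D0, M0, Module.End.mul_apply,
    Module.End.mul_apply]
  have h1 : pr (ib S) (rp (tb S) (rp (tt S) y)) = rp (tt S) y := by
    refine pr_rp_smul (ib S) (tb S) (rp (tt S) y) (ib_tb S) fun i => ?_
    exact anti_smul_zero (tt S) y (ib_tt S i) (hy i).2
  rw [h1]
  exact pr_rp_smul (io S) (tt S) y (io_tt S) fun i => (hy i).1

theorem MD (y : X.R) (h1 : ∀ k, S.form k * y = 0) (h2 : ∀ k, X.bar (S.form k) * y = 0) :
    MM S (DD S y) = y := by
  rw [DD, LinearMap.smul_apply, map_smul, MM, LinearMap.smul_apply, smul_smul, I_mul, one_smul, D0,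
    M0, Module.End.mul_apply, Module.End.mul_apply]
  have h3 : rp (tt S) (pr (io S) (pr (ib S) y)) = pr (ib S) y := by
    refine rp_pr_smul (io S) (tt S) (pr (ib S) y) (io_tt S) fun i => ?_
    refine anti_smul_zero' (ib S) y (fun j => ?_) (h1 i)
    rw [ib_tt, neg_neg]
  rw [h3]
  exact rp_pr_smul (ib S) (tb S) y (ib_tb S) fun i => h2 i

theorem MDM (y : X.R) : MM S (DD S (MM S y)) = MM S y := by
  refine MD S _ (fun k => ?_) fun k => ?_
  · exact LinearMap.congr_fun (tt_M S k) y
  · exact LinearMap.congr_fun (tb_M S k) y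

theorem D_mem (y : X.R) : DD S y ∈ PP S := by
  rw [mem_PP]
  exact fun k => ⟨LinearMap.congr_fun (io_D S k) y, LinearMap.congr_fun (ib_D S k) y⟩

theorem DMD (y : X.R) : DD S (MM S (DD S y)) = DD S y := DM S _ (D_mem S y)

theorem D_type (p q : ℤ) (x : X.R) (hx : x ∈ X.H (p, q)) : DD S x ∈ X.H (p - a, q - a) := by
  rw [DD, LinearMap.smul_apply]
  refine Submodule.smul_mem _ _ ?_
  rw [D0, Module.End.mul_apply]
  have h2 := pr_mem_type (ib S) 0 (-1) (ib_type S) _ _ _ hx
  have h3 := pr_mem_type (io S) (-1) 0 (io_type S) _ _ _ h2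
  convert h3 using 3 <;> simp <;> ring

theorem M_type (p q : ℤ) (x : X.R) (hx : x ∈ X.H (p, q)) : MM S x ∈ X.H (p + a, q + a) := by
  rw [MM_apply]
  have := X.mul_mem (vol_mem S) hx
  rwa [add_comm (a : ℤ) p, add_comm (a : ℤ) q] at this

end Pool.Agent.Helper86.Orl
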