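import Pool.Agent.Helper86.Orl.Adj

/-!
# General contractions, the exponential of the Kähler class and positivity
-/

set_option autoImplicit false

open scoped ComplexConjugate
open Module Pool.Agent.W539.DI Pool.Agent.Helper30.DI Pool.Agent.Q8.OM

namespace Pool.Agent.Helper86.Orl

section Sc

variable {n : ℕ} {X : KRing n}

/-- the scalar `c` with `x = c • 1` for `x` of type `(0, 0)` -/
noncomputable def sc (X : KRing n) : X.R →ₗ[ℂ] ℂ :=
  (X.tr (X.ω ^ n * 1))⁻¹ • (X.tr ∘ₗ LinearMap.mulLeft ℂ (X.ω ^ n))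

theorem sc_smul_one (c : ℂ) : sc X (c • 1) = c := by
  have h := vol_ne X
  rw [map_smul, smul_eq_mul]
  have : sc X 1 = 1 := by
    change (X.tr (X.ω ^ n * 1))⁻¹ * X.tr (X.ω ^ n * 1) = 1
    exact inv_mul_cancel₀ h
  rw [this, mul_one]

theorem sc_spec {x : X.R} (hx : x ∈ X.H (0, 0)) : sc X x • (1 : X.R) = x := by
  obtain ⟨c, rfl⟩ := H00 X hx
  rw [sc_smul_one]

theorem smul_one_inj {c d : ℂ} (h : c • (1 : X.R) = d • 1) : c = d := by
  rw [← sc_smul_one (X := X) c, h, sc_smul_one]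

theorem om_top {p q : ℤ} {x : X.R} (hx : x ∈ X.H (p, q)) (h : 0 < p ∨ 0 < q) :
    X.ω ^ n * x = 0 :=
  zero_of_type (X.pow_mul_mem X.ω_mem n hx) (by omega)

end Sc

section Ic

variable {n a : ℕ} {X : KRing n} (S : AbelianSymmetry X a)

/-- the contraction with the vector field `∑ b_k v_k` -/
noncomputable def ic (b : Fin a → ℂ) : Module.End ℂ X.R := ∑ k, b k • io S k

theorem ic_apply (b : Fin a → ℂ) (x : X.R) : ic S b x = ∑ k, b k • io S k x := by
  rw [ic, LinearMap.sum_apply]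
  rfl

theorem ic_type (b : Fin a → ℂ) (p q : ℤ) (x : X.R) (hx : x ∈ X.H (p, q)) :
    ic S b x ∈ X.H (p + -1, q + 0) := by
  rw [ic_apply]
  exact Submodule.sum_mem _ fun k _ => Submodule.smul_mem _ _ (io_type S k p q x hx)

theorem icb_type (b : Fin a → ℂ) (p q : ℤ) (x : X.R) (hx : x ∈ X.H (p, q)) :
    cj (ic S b) x ∈ X.H (p + 0, q + -1) :=
  X.bar_mem _ _ _ (ic_type S b q p _ (X.bar_mem _ _ _ hx))

theorem icb_apply (b : Fin a → ℂ) (x : X.R) : cj (ic S b) x = ∑ k, conj (b k) • ib S k x := by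
  rw [cj_apply, ic_apply, map_sum]
  refine Finset.sum_congr rfl fun k _ => ?_
  rw [LinearMap.map_smulₛₗ]
  rfl

theorem ic_mul (b : Fin a → ℂ) (x y : X.R) :
    ic S b (x * y) = ic S b x * y + sg X x * ic S b y := by
  rw [ic_apply, ic_apply, ic_apply, Finset.sum_mul, Finset.mul_sum, ← Finset.sum_add_distrib]
  refine Finset.sum_congr rfl fun k _ => ?_
  rw [io_mul, smul_add, smul_mul_assoc, mul_smul_comm]

theorem ic_odd (b : Fin a → ℂ) {r s : ℤ} {w : X.R} (hw : w ∈ X.H (r, s)) (h : Odd (r + s)) :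
    ic S b * LinearMap.mulLeft ℂ w + LinearMap.mulLeft ℂ w * ic S b =
      LinearMap.mulLeft ℂ (ic S b w) := by
  ext x
  change ic S b (w * x) + w * ic S b x = ic S b w * x
  rw [ic_mul, sg_of hw, h.neg_one_zpow, neg_one_smul, neg_mul]
  abel

theorem icb_odd (b : Fin a → ℂ) {r s : ℤ} {w : X.R} (hw : w ∈ X.H (r, s)) (h : Odd (r + s)) :
    cj (ic S b) * LinearMap.mulLeft ℂ w + LinearMap.mulLeft ℂ w * cj (ic S b) =
      LinearMap.mulLeft ℂ (cj (ic S b) w) := by
  have h1 := ic_odd S b (X.bar_mem _ _ _ hw) (by rwa [add_comm s r])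
  have h2 := congrArg cj h1
  rw [cj_add, cj_mul, cj_mul, cj_mulLeft, cj_mulLeft, X.bar_bar] at h2
  exact h2

theorem ic_even (b : Fin a → ℂ) {r s : ℤ} {w : X.R} (hw : w ∈ X.H (r, s)) (h : Even (r + s))
    (y : X.R) : ic S b (w * y) = ic S b w * y + w * ic S b y := by
  rw [ic_mul, sg_of hw, h.neg_one_zpow, one_smul]

theorem ic_ic (b b' : Fin a → ℂ) : ic S b * ic S b' = -(ic S b' * ic S b) := by
  unfold ic
  rw [Finset.sum_mul_sum, Finset.sum_mul_sum, Finset.sum_comm, ← Finset.sum_neg_distrib]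
  refine Finset.sum_congr rfl fun j _ => ?_
  rw [← Finset.sum_neg_distrib]
  refine Finset.sum_congr rfl fun i _ => ?_
  rw [smul_mul_smul_comm, smul_mul_smul_comm, io_io S i j, smul_neg, mul_comm]

theorem ic_ib (b : Fin a → ℂ) (l : Fin a) : ic S b * ib S l = -(ib S l * ic S b) := by
  unfold ic
  rw [Finset.sum_mul, Finset.mul_sum, ← Finset.sum_neg_distrib]
  refine Finset.sum_congr rfl fun j _ => ?_
  rw [smul_mul_assoc, mul_smul_comm, io_ib, smul_neg]

theorem ic_io (b : Fin a → ℂ) (l : Fin a) : ic S b * io S l = -(io S l * ic S b) := by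
  unfold ic
  rw [Finset.sum_mul, Finset.mul_sum, ← Finset.sum_neg_distrib]
  refine Finset.sum_congr rfl fun j _ => ?_
  rw [smul_mul_assoc, mul_smul_comm, io_io, smul_neg]

theorem ic_icb (b b' : Fin a → ℂ) : ic S b * cj (ic S b') = -(cj (ic S b') * ic S b) := by
  have e : cj (ic S b') = ∑ k, conj (b' k) • ib S k := by
    ext x
    rw [icb_apply, LinearMap.sum_apply]
    rfl
  rw [e, Finset.mul_sum, Finset.sum_mul, ← Finset.sum_neg_distrib]
  refine Finset.sum_congr rfl fun j _ => ?_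
  rw [mul_smul_comm, smul_mul_assoc, ic_ib, smul_neg]

theorem ic_pow (b : Fin a → ℂ) (j : ℕ) :
    ic S b (X.ω ^ (j + 1)) = ((j : ℂ) + 1) • (X.ω ^ j * ic S b X.ω) := by
  induction j with
  | zero => simp
  | succ j ih =>
    have hc : X.ω ^ (j + 1) * ic S b X.ω = ic S b X.ω * X.ω ^ (j + 1) :=
      even_central (X.pow_mem X.ω_mem (j + 1)) ⟨_, rfl⟩ _
    rw [pow_succ' X.ω (j + 1), ic_even S b X.ω_mem (by decide), ih, ← hc, mul_smul_comm,
      ← mul_assoc, ← pow_succ']
    push_cast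
    rw [add_smul ((j : ℂ) + 1) 1, one_smul, add_comm]

/-- **Positivity.** -/
theorem pos (c : Fin a → ℂ) : ∃ r : ℝ, 0 ≤ r ∧ (r = 0 → c = 0) ∧
    ic S c (cj (ic S c) X.ω) = (-Complex.I * (r : ℂ)) • (1 : X.R) := by
  set x := cj (ic S c) X.ω with hx
  have hbar : X.bar x = ic S c X.ω := by
    rw [hx, cj_apply, X.bar_bar, X.ω_bar]
  have hxm : x ∈ X.H (1, 0) := by
    have := icb_type S c _ _ _ X.ω_mem
    exact this
  have hkm : ic S c x ∈ X.H (0, 0) := by
    have := ic_type S c _ _ _ hxm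
    exact this
  obtain ⟨κ, hκ⟩ := H00 X hkm
  obtain ⟨r1, hr1, h1⟩ := X.hr 0 0 n (by ring) 1 X.one_mem (one_ne X) (by
    rw [mul_one, pow_succ, om_top X.ω_mem (Or.inl one_pos)])
  have h1' : X.tr (X.ω ^ n) = (r1 : ℂ) := by
    rw [← h1, bar_one]
    simp
  -- the basic relation for forms
  have key : ∀ w : X.R, ∀ s : ℤ, w ∈ X.H (s, 1 - s) → n ≠ 0 → 
      ((n : ℂ)) • (X.ω ^ (n - 1) * ic S c X.ω * w) + X.ω ^ n * ic S c w = 0 := by
    intro w s hw hn
    obtain ⟨j, rfl⟩ := Nat.exists_eq_succ_of_ne_zero hn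
    have h2 : X.ω ^ (j + 1) * w = 0 := zero_of_type (X.pow_mul_mem X.ω_mem (j + 1) hw) (by
      push_cast; omega)
    have h3 := ic_even S c (X.pow_mem X.ω_mem (j + 1)) ⟨_, rfl⟩ w
    rw [h2, map_zero, ic_pow, smul_mul_assoc] at h3
    push_cast
    exact h3.symm
  by_cases hn : n = 0
  · have hω : X.ω = 0 := zero_of_type X.ω_mem (by subst hn; simp)
    have hx0 : x = 0 := by rw [hx, hω, map_zero]
    refine ⟨0, le_rfl, fun _ => ?_, by rw [hx0, map_zero]; simp⟩
    funext j
    exfalso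
    have h2 : S.form j = 0 := zero_of_type (S.form_mem j) (by subst hn; simp)
    have h3 := io_form S j j
    rw [h2, map_zero, if_pos rfl] at h3
    exact one_ne X h3.symm
  · by_cases hx0 : x = 0
    · refine ⟨0, le_rfl, fun _ => ?_, by rw [hx0, map_zero]; simp⟩
      funext j
      have h2 := key (S.form j) 1 (S.form_mem j) hn
      have h3 : ic S c (S.form j) = c j • 1 := by
        rw [ic_apply, Finset.sum_eq_single j]
        · rw [io_form, if_pos rfl]
        · intro k _ hk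
          rw [io_form, if_neg hk, smul_zero]
        · intro h
          exact absurd (Finset.mem_univ j) h
      rw [← hbar, hx0, map_zero, mul_zero, zero_mul, smul_zero, zero_add, h3, mul_smul_comm,
        mul_one] at h2
      have h4 := congrArg X.tr h2
      rw [map_smul, h1', map_zero, smul_eq_mul] at h4
      exact (mul_eq_zero.mp h4).resolve_right (Complex.ofReal_ne_zero.mpr hr1.ne')
    · obtain ⟨r2, hr2, h2⟩ := X.hr 1 0 (n - 1) (by omega) x hxm hx0 (by
        rw [Nat.sub_add_cancel (Nat.one_le_iff_ne_zero.mpr hn), om_top hxm (Or.inl one_pos)])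
      have h3 := key x 1 hxm hn
      rw [← hbar, hκ, mul_smul_comm, mul_one, mul_assoc,
        odd_anti (X.bar_mem _ _ _ hxm) hxm (by decide) (by decide), mul_neg, smul_neg] at h3
      have h4 := congrArg X.tr h3
      rw [map_add, map_neg, map_smul, map_smul, map_zero, h1', smul_eq_mul, smul_eq_mul] at h4
      have h5 : X.tr (X.ω ^ (n - 1) * (x * X.bar x)) = -Complex.I * r2 := by
        have h6 : Complex.I ^ ((1 : ℤ) - 0) * (-1 : ℂ) ^ (((1 : ℤ) + 0) * (1 + 0 - 1) / 2) =
            Complex.I := by norm_num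
        rw [h6] at h2
        rw [← h2]
        linear_combination (X.tr (X.ω ^ (n - 1) * (x * X.bar x))) * Complex.I_mul_I
      rw [h5] at h4
      have hr10 : (r1 : ℂ) ≠ 0 := Complex.ofReal_ne_zero.mpr hr1.ne'
      have hn0 : (n : ℝ) ≠ 0 := Nat.cast_ne_zero.mpr hn
      refine ⟨n * r2 / r1, by positivity, fun h => ?_, ?_⟩
      · exfalso
        have : (0 : ℝ) < n * r2 / r1 := by positivity
        linarith
      · rw [hκ]
        congr 1
        push_cast
        field_simp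
        linear_combination h4

end Ic

end Pool.Agent.Helper86.Orl
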